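import Pool.Agent.T2H99.HY.Stm

set_option autoImplicit false

noncomputable section

open MeasureTheory Filter Topology
open scoped ENNReal

namespace Pool.Agent.T2H99.HY

namespace PA

abbrev W := ℝ × V

lemma mk_add_left (a b c : W) : mk (a + b) c = mk a c + mk b c := by
  unfold mk; simp only [Prod.fst_add, Prod.snd_add, inner_add_left]; ring

lemma mk_smul_left (t : ℝ) (a c : W) : mk (t • a) c = t * mk a c := by
  unfold mk; simp only [Prod.smul_fst, Prod.smul_snd, smul_eq_mul, inner_smul_left, conj_trivial]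
  ring

lemma mk_comm (a b : W) : mk a b = mk b a := by
  unfold mk; rw [real_inner_comm]; ring

lemma mk_add_right (a b c : W) : mk a (b + c) = mk a b + mk a c := by
  rw [mk_comm, mk_add_left, mk_comm b, mk_comm c]

lemma mk_smul_right (t : ℝ) (a c : W) : mk a (t • c) = t * mk a c := by
  rw [mk_comm, mk_smul_left, mk_comm c]

/-- the bilinear form -/
def B : LinearMap.BilinForm ℝ W :=
  LinearMap.mk₂ ℝ mk mk_add_left mk_smul_left mk_add_right mk_smul_right

lemma B_apply (a b : W) : B a b = mk a b := rfl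

lemma B_nondeg : B.Nondegenerate := by
  apply LinearMap.BilinForm.Nondegenerate.ofSeparatingLeft
  intro a ha
  have h := ha (a.1, -a.2)
  rw [B_apply] at h
  unfold mk at h
  simp only [inner_neg_right, real_inner_self_eq_norm_sq, sub_neg_eq_add] at h
  have h1 : a.1 = 0 := by nlinarith [sq_nonneg a.1, sq_nonneg ‖a.2‖]
  have h2 : ‖a.2‖ = 0 := by
    have : ‖a.2‖ ^ 2 = 0 := by nlinarith [sq_nonneg a.1, sq_nonneg ‖a.2‖]
    exact pow_eq_zero_iff (two_ne_zero) |>.1 this
  exact Prod.ext h1 (norm_eq_zero.1 h2)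

lemma det_sq {g : W →ₗ[ℝ] W} (hg : ∀ a b, mk (g a) (g b) = mk a b) :
    LinearMap.det g ^ 2 = 1 := by
  set b := Module.finBasis ℝ W with hb
  have h1 : B.comp g g = B := by
    ext a b <;> simp [B_apply, hg]
  have h2 := LinearMap.BilinForm.toMatrix_comp b b B g g
  rw [h1] at h2
  have h3 := congrArg Matrix.det h2
  rw [Matrix.det_mul, Matrix.det_mul, Matrix.det_transpose] at h3
  have h4 : (LinearMap.BilinForm.toMatrix b B).det ≠ 0 :=
    (LinearMap.BilinForm.nondegenerate_iff_det_ne_zero b).1 B_nondeg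
  rw [LinearMap.det_toMatrix] at h3
  have h5 : (LinearMap.BilinForm.toMatrix b B).det * (LinearMap.det g ^ 2 - 1) = 0 := by
    linear_combination -h3
  rcases mul_eq_zero.1 h5 with h | h
  · exact absurd h h4
  · linarith

lemma x0_pos (x : V) : 0 < x0 x := by unfold x0; positivity

lemma x0_sq (x : V) : x0 x ^ 2 = 1 + ‖x‖ ^ 2 := by
  unfold x0; rw [Real.sq_sqrt (by positivity)]

lemma x0_cont : Continuous x0 := by unfold x0; fun_prop

lemma mk_lift (x y : V) : mk (lift x) (lift y) = ch x y := rfl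

lemma ch_self (x : V) : ch x x = 1 := by
  unfold ch
  rw [← pow_two, x0_sq, real_inner_self_eq_norm_sq]; ring

lemma lift_zero : lift 0 = (1, 0) := by
  unfold lift x0; simp

/-- reversed Cauchy-Schwarz -/
lemma timelike {a b : W} (ha : 0 < mk a a) (hb : 0 < mk b b) (ha1 : 0 < a.1) (hab : 0 < mk a b) :
    0 < b.1 := by
  by_contra h
  push Not at h
  unfold mk at ha hb hab
  rw [real_inner_self_eq_norm_sq] at ha hb
  have h1 : ‖a.2‖ < a.1 := by
    apply lt_of_pow_lt_pow_left₀ 2 ha1.le; nlinarith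
  have h2 : ‖b.2‖ < -b.1 := by
    apply lt_of_pow_lt_pow_left₀ 2 (by linarith); nlinarith
  have h3 := abs_real_inner_le_norm a.2 b.2
  have h4 := neg_abs_le (inner ℝ a.2 b.2)
  have h5 : ‖a.2‖ * ‖b.2‖ ≤ a.1 * (-b.1) :=
    mul_le_mul h1.le h2.le (norm_nonneg _) ha1.le
  nlinarith

lemma eq_lift {v : W} (h1 : mk v v = 1) (h2 : 0 < v.1) : v = lift v.2 := by
  unfold mk at h1
  rw [real_inner_self_eq_norm_sq] at h1
  unfold lift x0
  ext1
  · simp only
    rw [show 1 + ‖v.2‖ ^ 2 = v.1 ^ 2 by nlinarith, Real.sqrt_sq h2.le]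
  · rfl

lemma lor_pos {g : W →ₗ[ℝ] W} (hg : IsLor g) {v : W} (h1 : 0 < mk v v) (h2 : 0 < v.1) :
    0 < (g v).1 := by
  apply timelike (a := g (1, 0)) (b := g v)
  · rw [hg.form]; unfold mk; simp
  · rw [hg.form]; exact h1
  · exact hg.pos
  · rw [hg.form]; unfold mk; simpa using h2

lemma lift_act {g : W →ₗ[ℝ] W} (hg : IsLor g) (x : V) : lift (act g x) = g (lift x) := by
  have h1 : mk (lift x) (lift x) = 1 := by rw [mk_lift, ch_self]
  unfold act
  rw [← eq_lift]
  · rw [hg.form, h1]
  · exact lor_pos hg (by rw [h1]; norm_num) (x0_pos x)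

lemma act_cont (g : W →ₗ[ℝ] W) : Continuous (act g) := by
  unfold act
  have : Continuous g := g.continuous_of_finiteDimensional
  exact continuous_snd.comp (this.comp (x0_cont.prodMk continuous_id))

/-! ### the cone -/

/-- the cone -/
def C : Set W := {v | 0 < v.1 ∧ 0 < mk v v ∧ mk v v < 1}

lemma mk_cont : Continuous fun v : W => mk v v := by unfold mk; fun_prop

lemma C_meas : MeasurableSet C := by
  apply MeasurableSet.inter
  · exact measurableSet_lt measurable_const measurable_fst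
  · apply MeasurableSet.inter
    · exact measurableSet_lt measurable_const mk_cont.measurable
    · exact measurableSet_lt mk_cont.measurable measurable_const

/-- the function on the cone -/
def Phi (F : V → ℝ≥0∞) (v : W) : ℝ≥0∞ :=
  C.indicator (fun v => F ((Real.sqrt (mk v v))⁻¹ • v.2)) v

lemma Phi_meas {F : V → ℝ≥0∞} (hF : Measurable F) : Measurable (Phi F) := by
  apply Measurable.indicator _ C_meas
  apply hF.comp
  exact ((mk_cont.measurable.sqrt).inv).smul measurable_snd

/-- substitution in the time variable -/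
lemma slice (F : V → ℝ≥0∞) (x : V) :
    ∫⁻ s : ℝ, Phi F (s, x) =
      ∫⁻ t in Set.Ioo (0 : ℝ) 1, ENNReal.ofReal (t / Real.sqrt (t ^ 2 + ‖x‖ ^ 2)) * F (t⁻¹ • x) := by
  set f : ℝ → ℝ := fun t => Real.sqrt (t ^ 2 + ‖x‖ ^ 2) with hf
  have hpos : ∀ t ∈ Set.Ioo (0 : ℝ) 1, 0 < t ^ 2 + ‖x‖ ^ 2 := by
    intro t ht
    have := ht.1
    positivity
  have hder : ∀ t ∈ Set.Ioo (0 : ℝ) 1, HasDerivWithinAt f (t / Real.sqrt (t ^ 2 + ‖x‖ ^ 2))
      (Set.Ioo 0 1) t := by
    intro t ht
    have h1 : HasDerivAt (fun t : ℝ => t ^ 2 + ‖x‖ ^ 2) (2 * t) t := by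
      simpa using (hasDerivAt_pow 2 t).add_const (‖x‖ ^ 2)
    have h2 := h1.sqrt (hpos t ht).ne'
    refine (h2.congr_deriv ?_).hasDerivWithinAt
    field_simp
  have hinj : Set.InjOn f (Set.Ioo 0 1) := by
    intro a ha b hb hab
    simp only [hf] at hab
    rw [Real.sqrt_inj (hpos a ha).le (hpos b hb).le] at hab
    have : a ^ 2 = b ^ 2 := by linarith
    exact (pow_left_inj₀ ha.1.le hb.1.le two_ne_zero).1 this
  have himg : f '' (Set.Ioo 0 1) = {s : ℝ | (s, x) ∈ C} := by
    ext s
    constructor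
    · rintro ⟨t, ht, rfl⟩
      have h3 : f t ^ 2 = t ^ 2 + ‖x‖ ^ 2 := by
        simp only [hf]; rw [Real.sq_sqrt (hpos t ht).le]
      refine ⟨Real.sqrt_pos.2 (hpos t ht), ?_, ?_⟩
      · unfold mk
        simp only [real_inner_self_eq_norm_sq]
        nlinarith [ht.1]
      · unfold mk
        simp only [real_inner_self_eq_norm_sq]
        nlinarith [ht.1, ht.2]
    · rintro ⟨h1, h2, h3⟩
      unfold mk at h2 h3
      simp only [real_inner_self_eq_norm_sq] at h1 h2 h3
      refine ⟨Real.sqrt (s * s - ‖x‖ ^ 2), ⟨Real.sqrt_pos.2 h2, ?_⟩, ?_⟩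
      · rw [Real.sqrt_lt' one_pos]; linarith
      · simp only [hf]
        rw [Real.sq_sqrt h2.le, show s * s - ‖x‖ ^ 2 + ‖x‖ ^ 2 = s ^ 2 by ring, Real.sqrt_sq h1.le]
  have hmeas : MeasurableSet {s : ℝ | (s, x) ∈ C} := C_meas.preimage (by fun_prop)
  have key := lintegral_image_eq_lintegral_abs_deriv_mul measurableSet_Ioo hder hinj
    (fun s => F ((Real.sqrt (mk (s, x) (s, x)))⁻¹ • x))
  rw [himg] at key
  have e1 : ∫⁻ s : ℝ, Phi F (s, x) = ∫⁻ s in {s : ℝ | (s, x) ∈ C},
      F ((Real.sqrt (mk (s, x) (s, x)))⁻¹ • x) := by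
    rw [← lintegral_indicator hmeas]
    rfl
  rw [e1, key]
  apply setLIntegral_congr_fun measurableSet_Ioo
  intro t ht
  simp only
  have h0 : 0 ≤ t / Real.sqrt (t ^ 2 + ‖x‖ ^ 2) := div_nonneg ht.1.le (Real.sqrt_nonneg _)
  rw [abs_of_nonneg h0]
  congr 3
  unfold mk
  simp only [hf, real_inner_self_eq_norm_sq]
  rw [Real.mul_self_sqrt (hpos t ht).le, add_sub_cancel_right, Real.sqrt_sq ht.1.le]

lemma cone {F : V → ℝ≥0∞} (hF : Measurable F) :
    ∫⁻ v : W, Phi F v = ENNReal.ofReal (1 / 4) * ∫⁻ x, F x ∂mu := by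
  have h1 : ∫⁻ v : W, Phi F v = ∫⁻ x : V, ∫⁻ s : ℝ, Phi F (s, x) := by
    rw [Measure.volume_eq_prod, lintegral_prod_symm _ (Phi_meas hF).aemeasurable]
  rw [h1]
  simp_rw [slice]
  have hm : Measurable (Function.uncurry fun (x : V) (t : ℝ) =>
      ENNReal.ofReal (t / Real.sqrt (t ^ 2 + ‖x‖ ^ 2)) * F (t⁻¹ • x)) := by
    apply Measurable.mul
    · apply ENNReal.measurable_ofReal.comp
      apply Measurable.div measurable_snd
      apply Measurable.sqrt
      exact (measurable_snd.pow_const 2).add (measurable_fst.norm.pow_const 2)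
    · exact hF.comp (measurable_snd.inv.smul measurable_fst)
  rw [lintegral_lintegral_swap hm.aemeasurable]
  have h2 : ∀ t ∈ Set.Ioo (0 : ℝ) 1,
      ∫⁻ x : V, ENNReal.ofReal (t / Real.sqrt (t ^ 2 + ‖x‖ ^ 2)) * F (t⁻¹ • x) =
        ENNReal.ofReal (t ^ 3) * ∫⁻ x, F x ∂mu := by
    intro t ht
    have ht0 : 0 < t := ht.1
    have h3 : ∫⁻ x : V, ENNReal.ofReal (t / Real.sqrt (t ^ 2 + ‖x‖ ^ 2)) * F (t⁻¹ • x) =
        ∫⁻ y : V, ENNReal.ofReal (1 / x0 y) * F y ∂(Measure.map (fun x : V => t⁻¹ • x) volume) := by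
      rw [lintegral_map]
      · apply lintegral_congr
        intro x
        congr 2
        unfold x0
        rw [norm_smul, norm_inv, Real.norm_eq_abs, abs_of_pos ht0]
        have h4 : Real.sqrt (t ^ 2 + ‖x‖ ^ 2) = t * Real.sqrt (1 + (t⁻¹ * ‖x‖) ^ 2) := by
          rw [show t ^ 2 + ‖x‖ ^ 2 = t ^ 2 * (1 + (t⁻¹ * ‖x‖) ^ 2) by field_simp,
            Real.sqrt_mul (by positivity), Real.sqrt_sq ht0.le]
        rw [h4]
        have : Real.sqrt (1 + (t⁻¹ * ‖x‖) ^ 2) ≠ 0 := by positivity
        field_simp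
      · apply Measurable.mul
        · exact ENNReal.measurable_ofReal.comp (measurable_const.div x0_cont.measurable)
        · exact hF
      · fun_prop
    rw [h3, Measure.map_addHaar_smul volume (inv_ne_zero ht0.ne'), lintegral_smul_measure]
    unfold mu
    rw [lintegral_withDensity_eq_lintegral_mul _ _ hF]
    · simp only [smul_eq_mul, Pi.mul_apply]
      congr 2
      rw [finrank_euclideanSpace_fin, ← inv_pow, inv_inv, abs_of_pos (by positivity)]
    · exact ENNReal.measurable_ofReal.comp (measurable_const.div x0_cont.measurable)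
  rw [setLIntegral_congr_fun measurableSet_Ioo h2]
  rw [lintegral_mul_const _ (by fun_prop)]
  congr 1
  rw [← ofReal_integral_eq_lintegral_ofReal]
  · congr 1
    rw [← integral_Ioc_eq_integral_Ioo, ← intervalIntegral.integral_of_le zero_le_one, integral_pow]
    norm_num
  · exact ((continuous_pow 3).integrableOn_Icc (a := 0) (b := 1)).mono_set Set.Ioo_subset_Icc_self
  · rw [EventuallyLE, ae_restrict_iff' measurableSet_Ioo]
    refine Eventually.of_forall fun t ht => ?_
    have := ht.1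
    simp only [Pi.zero_apply]
    positivity

lemma C_iff {g : W →ₗ[ℝ] W} (hg : IsLor g) (v : W) : g v ∈ C ↔ v ∈ C := by
  constructor
  · rintro ⟨h1, h2, h3⟩
    rw [hg.form] at h2 h3
    refine ⟨?_, h2, h3⟩
    by_contra h
    have hv1 : v.1 ≠ 0 := by
      intro h0
      unfold mk at h2
      rw [h0, real_inner_self_eq_norm_sq] at h2
      nlinarith [sq_nonneg ‖v.2‖]
    have h4 : 0 < (-v).1 := by
      rw [Prod.fst_neg]
      have : v.1 < 0 := lt_of_le_of_ne (not_lt.1 h) hv1
      linarith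
    have h5 : 0 < mk (-v) (-v) := by
      have : mk (-v) (-v) = mk v v := by
        unfold mk; simp
      rw [this]; exact h2
    have h6 := lor_pos hg h5 h4
    rw [map_neg, Prod.fst_neg] at h6
    linarith
  · rintro ⟨h1, h2, h3⟩
    refine ⟨lor_pos hg h2 h1, ?_, ?_⟩
    · rw [hg.form]; exact h2
    · rw [hg.form]; exact h3

lemma Phi_act {g : W →ₗ[ℝ] W} (hg : IsLor g) (F : V → ℝ≥0∞) (v : W) :
    Phi (fun x => F (act g x)) v = Phi F (g v) := by
  unfold Phi
  by_cases hv : v ∈ C
  · rw [Set.indicator_of_mem hv, Set.indicator_of_mem ((C_iff hg v).2 hv)]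
    congr 1
    rw [hg.form]
    have h1 : lift ((Real.sqrt (mk v v))⁻¹ • v.2) = (Real.sqrt (mk v v))⁻¹ • v := by
      obtain ⟨h1, h2, h3⟩ := hv
      have hs : 0 < Real.sqrt (mk v v) := Real.sqrt_pos.2 h2
      have : ((Real.sqrt (mk v v))⁻¹ • v).2 = (Real.sqrt (mk v v))⁻¹ • v.2 := rfl
      rw [← this, ← eq_lift]
      · rw [mk_smul_left, mk_smul_right]
        have : Real.sqrt (mk v v) * Real.sqrt (mk v v) = mk v v := Real.mul_self_sqrt h2.le
        field_simp
        rw [pow_two, this]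
      · simp only [Prod.smul_fst, smul_eq_mul]
        positivity
    show F (g (lift ((Real.sqrt (mk v v))⁻¹ • v.2))).2 = _
    rw [h1, map_smul]
    rfl
  · rw [Set.indicator_of_notMem hv, Set.indicator_of_notMem (mt (C_iff hg v).1 hv)]

lemma mp {g : W →ₗ[ℝ] W} (hg : IsLor g) : MeasurePreserving (act g) mu mu := by
  refine ⟨(act_cont g).measurable, ?_⟩
  apply Measure.ext_of_lintegral
  intro F hF
  rw [lintegral_map hF (act_cont g).measurable]
  have h1 := cone (hF.comp (act_cont g).measurable)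
  have h2 := cone hF
  have hdet := det_sq hg.form
  have hne : LinearMap.det g ≠ 0 := by
    intro h; rw [h] at hdet; norm_num at hdet
  have habs : |(LinearMap.det g)⁻¹| = 1 := by
    rw [abs_inv]
    have : |LinearMap.det g| = 1 := by
      rw [← sq_eq_sq₀ (abs_nonneg _) zero_le_one, sq_abs, hdet, one_pow]
    rw [this, inv_one]
  have h3 : ∫⁻ v : W, Phi (F ∘ act g) v = ∫⁻ v : W, Phi F v := by
    have h4 : ∀ v, Phi (F ∘ act g) v = Phi F (g v) := fun v => Phi_act hg F v
    simp_rw [h4]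
    have hgm : Measurable g := (g.continuous_of_finiteDimensional).measurable
    haveI : (volume : Measure W).IsAddHaarMeasure := by
      rw [Measure.volume_eq_prod]; infer_instance
    rw [← lintegral_map (Phi_meas hF) hgm,
      Measure.map_linearMap_addHaar_eq_smul_addHaar (μ := (volume : Measure W)) hne, habs,
      ENNReal.ofReal_one, one_smul]
  rw [h3, h2] at h1
  have h5 : ENNReal.ofReal (1 / 4) ≠ 0 := by
    rw [Ne, ENNReal.ofReal_eq_zero]; norm_num
  exact ((ENNReal.mul_right_inj h5 ENNReal.ofReal_ne_top).1 h1).symm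

end PA

open PA in
theorem t_A : S_A := by
  refine ⟨fun g hg => ⟨mp hg, lift_act hg, fun x y => ?_⟩, ?_, ?_⟩
  · rw [← mk_lift, lift_act hg, lift_act hg, hg.form, mk_lift]
  · intro y
    by_cases hy : y = 0
    · subst hy
      refine ⟨LinearMap.id, ⟨fun a b => rfl, by simp⟩, fun a => rfl, rfl, rfl⟩
    · set n : W := (1, 0) - lift y with hn
      have hnn : mk n n = 2 - 2 * x0 y := by
        have h1 : mk (lift y) (lift y) = 1 := ch_self y
        have h2 : mk ((1, 0) : W) (1, 0) = 1 := by unfold mk; simp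
        have h3 : mk ((1, 0) : W) (lift y) = x0 y := by unfold mk lift; simp
        rw [hn, sub_eq_add_neg, ← neg_one_smul ℝ (lift y), mk_add_left, mk_add_right, mk_add_right,
          mk_smul_left, mk_smul_left, mk_smul_right, mk_smul_right, h1, h2, h3, mk_comm (lift y), h3]
        ring
      have hx0 : 1 < x0 y := by
        have : 0 < ‖y‖ := norm_pos_iff.2 hy
        have h1 := x0_sq y
        nlinarith [x0_pos y]
      have hnn0 : mk n n ≠ 0 := by rw [hnn]; linarith
      set g : W →ₗ[ℝ] W := LinearMap.id - ((2 / mk n n) • (B.flip n)).smulRight n with hg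
      have hgv : ∀ a, g a = a - (2 * mk a n / mk n n) • n := by
        intro a
        have hfl : B.flip n a = mk a n := rfl
        simp only [hg, LinearMap.sub_apply, LinearMap.id_apply, LinearMap.smulRight_apply,
          LinearMap.smul_apply, hfl, smul_eq_mul]
        congr 2
        ring
      have hform : ∀ a b, mk (g a) (g b) = mk a b := by
        intro a b
        rw [hgv, hgv, sub_eq_add_neg, sub_eq_add_neg, ← neg_smul, ← neg_smul, mk_add_left,
          mk_add_right, mk_add_right, mk_smul_left, mk_smul_left, mk_smul_right, mk_smul_right,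
          mk_comm n b]
        field_simp
        ring
      have hg0 : g (1, 0) = lift y := by
        rw [hgv]
        have h1 : mk ((1, 0) : W) n = 1 - x0 y := by
          rw [hn]; unfold mk lift; simp
        rw [h1, hnn]
        have : 2 * (1 - x0 y) / (2 - 2 * x0 y) = 1 := by
          rw [div_eq_one_iff_eq (by linarith)]; ring
        rw [this, one_smul, hn]
        abel
      have hgg : ∀ a, g (g a) = a := by
        intro a
        rw [hgv (g a), hgv a]
        have h1 : mk (a - (2 * mk a n / mk n n) • n) n = - mk a n := by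
          rw [sub_eq_add_neg, ← neg_smul, mk_add_left, mk_smul_left]
          field_simp
          ring
        rw [h1]
        have : (2 * -mk a n / mk n n) = -(2 * mk a n / mk n n) := by ring
        rw [this, neg_smul]
        abel
      refine ⟨g, ⟨hform, ?_⟩, hgg, ?_, ?_⟩
      · rw [hg0]; exact x0_pos y
      · unfold act
        rw [lift_zero, hg0]; rfl
      · unfold act
        rw [← hg0, hgg]
  · intro x y
    have hcomm : ch x y = ch y x := by
      unfold ch; rw [real_inner_comm]; ring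
    have hx := x0_pos x
    have hy := x0_pos y
    have hxy : (x0 x * x0 y) ^ 2 = (1 + inner ℝ x y) ^ 2 + (‖x - y‖ ^ 2 +
        (‖x‖ ^ 2 * ‖y‖ ^ 2 - (inner ℝ x y) ^ 2)) := by
      rw [mul_pow, x0_sq, x0_sq, norm_sub_sq_real]; ring
    have hcs : (inner ℝ x y) ^ 2 ≤ ‖x‖ ^ 2 * ‖y‖ ^ 2 := by
      have := abs_real_inner_le_norm x y
      have h1 := pow_le_pow_left₀ (abs_nonneg _) this 2
      rw [sq_abs] at h1
      nlinarith
    have h1 : 1 + inner ℝ x y ≤ x0 x * x0 y := by
      by_contra hlt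
      push Not at hlt
      have h0 : 0 < x0 x * x0 y := mul_pos hx hy
      have h2 : (x0 x * x0 y) ^ 2 < (1 + inner ℝ x y) ^ 2 :=
        pow_lt_pow_left₀ hlt h0.le two_ne_zero
      nlinarith [sq_nonneg ‖x - y‖]
    refine ⟨by unfold ch; linarith, hcomm, fun h => ?_⟩
    unfold ch at h
    have h2 : x0 x * x0 y = 1 + inner ℝ x y := by linarith
    rw [h2] at hxy
    have h3 : ‖x - y‖ ^ 2 = 0 := by nlinarith [sq_nonneg ‖x - y‖]
    have h4 : ‖x - y‖ = 0 := pow_eq_zero_iff two_ne_zero |>.1 h3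
    exact sub_eq_zero.1 (norm_eq_zero.1 h4)

end Pool.Agent.T2H99.HY
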