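import Pool.Agent.T2H99.HY.Stm

set_option autoImplicit false

noncomputable section

open MeasureTheory Filter Topology

namespace Pool.Agent.T2H99.HY

namespace PB1

lemma expabs (c : ℝ) (hc : 0 < c) : Integrable (fun r : ℝ => Real.exp (-(c * |r|))) := by
  rw [← integrableOn_univ, ← Set.Iic_union_Ioi (a := (0 : ℝ)), integrableOn_union]
  constructor
  · have h : IntegrableOn (fun r : ℝ => Real.exp (c * r)) (Set.Iic 0) :=
      integrableOn_exp_mul_Iic hc 0
    refine h.congr_fun (fun r hr => ?_) measurableSet_Iic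
    simp only [Set.mem_Iic] at hr
    simp only
    rw [abs_of_nonpos hr]; ring_nf
  · have h : IntegrableOn (fun r : ℝ => Real.exp (-c * r)) (Set.Ioi 0) :=
      integrableOn_exp_mul_Ioi (by linarith) 0
    refine h.congr_fun (fun r hr => ?_) measurableSet_Ioi
    simp only [Set.mem_Ioi] at hr
    simp only
    rw [abs_of_pos hr]; ring_nf

/-- `x / sinh x ≤ (2/δ) e^{-(1-δ) x}` -/
lemma quot_le (δ : ℝ) (hδ : 0 < δ) (hδ2 : δ ≤ 2) (x : ℝ) (hx : 0 < x) :
    x / Real.sinh x ≤ 2 / δ * Real.exp (-((1 - δ) * x)) := by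
  have hs : 0 < Real.sinh x := Real.sinh_pos_iff.2 hx
  rw [div_le_iff₀ hs]
  have h1 : 1 + δ * x ≤ Real.exp (δ * x) := by linarith [Real.add_one_le_exp (δ * x)]
  have h2 : 1 + 2 * x ≤ Real.exp (2 * x) := by linarith [Real.add_one_le_exp (2 * x)]
  have e1 : Real.exp (-((1 - δ) * x)) = Real.exp (δ * x) * Real.exp (-x) := by
    rw [← Real.exp_add]; ring_nf
  rw [e1, Real.sinh_eq]
  have e2 : Real.exp (-x) * Real.exp x = 1 := by rw [← Real.exp_add]; simp
  have e3 : Real.exp (2 * x) = Real.exp x * Real.exp x := by rw [← Real.exp_add]; ring_nf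
  have h3 : (1 + 2 * x) ≤ 2 / δ * (1 + δ * x) := by
    have : 1 ≤ 2 / δ := by rw [le_div_iff₀ hδ]; linarith
    have : 2 / δ * (1 + δ * x) = 2 / δ + 2 * x := by field_simp
    linarith
  have h4 : 0 < Real.exp (-x) := Real.exp_pos _
  -- x ≤ (1 + 2x) (1 - e^{-2x}) / 2
  have h5 : (1 + 2 * x) * (Real.exp (-x) * Real.exp (-x)) ≤ 1 := by
    have : Real.exp (2 * x) * (Real.exp (-x) * Real.exp (-x)) = 1 := by
      rw [e3]
      calc Real.exp x * Real.exp x * (Real.exp (-x) * Real.exp (-x))
          = (Real.exp (-x) * Real.exp x) * (Real.exp (-x) * Real.exp x) := by ring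
        _ = 1 := by rw [e2]; ring
    calc (1 + 2 * x) * (Real.exp (-x) * Real.exp (-x))
        ≤ Real.exp (2 * x) * (Real.exp (-x) * Real.exp (-x)) :=
          mul_le_mul_of_nonneg_right h2 (by positivity)
      _ = 1 := this
  have h6 : 2 / δ * (Real.exp (δ * x) * Real.exp (-x)) * ((Real.exp x - Real.exp (-x)) / 2) =
      (2 / δ * Real.exp (δ * x)) * ((1 - Real.exp (-x) * Real.exp (-x)) / 2) := by
    calc _ = (2 / δ * Real.exp (δ * x)) *
          ((Real.exp (-x) * Real.exp x - Real.exp (-x) * Real.exp (-x)) / 2) := by ring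
      _ = _ := by rw [e2]
  rw [h6]
  have h7 : 0 ≤ (1 - Real.exp (-x) * Real.exp (-x)) / 2 := by
    nlinarith [Real.exp_pos (-x)]
  calc x = (1 + 2 * x - 1) / 2 := by ring
    _ ≤ (1 + 2 * x) * ((1 - Real.exp (-x) * Real.exp (-x)) / 2) := by linarith
    _ ≤ (2 / δ * (1 + δ * x)) * ((1 - Real.exp (-x) * Real.exp (-x)) / 2) :=
        mul_le_mul_of_nonneg_right h3 h7
    _ ≤ (2 / δ * Real.exp (δ * x)) * ((1 - Real.exp (-x) * Real.exp (-x)) / 2) := by
        apply mul_le_mul_of_nonneg_right _ h7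
        exact mul_le_mul_of_nonneg_left h1 (by positivity)

lemma kap_even (γ r : ℝ) : kap γ (-r) = kap γ r := by
  unfold kap
  by_cases h : r = 0
  · simp [h]
  · rw [if_neg h, if_neg (by simpa using h)]
    rw [mul_neg, Real.sinh_neg, neg_div_neg_eq]

lemma kap_pos (γ : ℝ) (hγ : 0 < γ) (r : ℝ) : 0 < kap γ r := by
  unfold kap
  by_cases h : r = 0
  · rw [if_pos h]; positivity
  · rw [if_neg h]
    have h1 : 0 < r / Real.sinh (2 * γ * r) := by
      rcases lt_or_gt_of_ne h with h2 | h2
      · exact div_pos_of_neg_of_neg h2 (Real.sinh_neg_iff.2 (by nlinarith))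
      · exact div_pos h2 (Real.sinh_pos_iff.2 (by positivity))
    positivity

lemma kap_le (γ : ℝ) (hγ : 0 < γ) (δ : ℝ) (hδ : 0 < δ) (hδ2 : δ ≤ 2) (r : ℝ) :
    kap γ r ≤ 4 * γ / Real.pi ^ 2 * (2 / δ) * Real.exp (-((1 - δ) * (2 * γ) * |r|)) := by
  have key : ∀ r : ℝ, 0 < r →
      kap γ r ≤ 4 * γ / Real.pi ^ 2 * (2 / δ) * Real.exp (-((1 - δ) * (2 * γ) * r)) := by
    intro r hr
    unfold kap
    rw [if_neg hr.ne']
    have h := quot_le δ hδ hδ2 (2 * γ * r) (by positivity)
    have e : 8 * γ ^ 2 / Real.pi ^ 2 * (r / Real.sinh (2 * γ * r)) =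
        4 * γ / Real.pi ^ 2 * (2 * γ * r / Real.sinh (2 * γ * r)) := by ring
    have e2 : 4 * γ / Real.pi ^ 2 * (2 / δ) * Real.exp (-((1 - δ) * (2 * γ) * r)) =
        4 * γ / Real.pi ^ 2 * (2 / δ * Real.exp (-((1 - δ) * (2 * γ * r)))) := by
      rw [mul_assoc (1 - δ)]; ring
    rw [e, e2]
    exact mul_le_mul_of_nonneg_left h (by positivity)
  rcases lt_trichotomy r 0 with h | h | h
  · rw [← kap_even, abs_of_neg h]
    exact key (-r) (by linarith)
  · subst h
    unfold kap
    rw [if_pos rfl, abs_zero, mul_zero, neg_zero, Real.exp_zero, mul_one]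
    have : 1 ≤ 2 / δ := by rw [le_div_iff₀ hδ]; linarith
    exact le_mul_of_one_le_right (by positivity) this
  · rw [abs_of_pos h]
    exact key r h

lemma kap_cont (γ : ℝ) (hγ : 0 < γ) : Continuous (kap γ) := by
  have hf : Continuous (dslope Real.sinh 0) := by
    rw [← continuousOn_univ]
    refine (continuousOn_dslope univ_mem).2 ⟨Real.continuous_sinh.continuousOn, ?_⟩
    exact Real.differentiable_sinh 0
  have hpos : ∀ x, 0 < dslope Real.sinh 0 x := by
    intro x
    by_cases hx : x = 0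
    · subst hx
      rw [dslope_same, Real.deriv_sinh, Real.cosh_zero]; norm_num
    · rw [dslope_of_ne _ hx, slope_def_field, Real.sinh_zero, sub_zero, sub_zero]
      rcases lt_or_gt_of_ne hx with h2 | h2
      · exact div_pos_of_neg_of_neg (Real.sinh_neg_iff.2 h2) h2
      · exact div_pos (Real.sinh_pos_iff.2 h2) h2
  have he : kap γ = fun r => 4 * γ / Real.pi ^ 2 / dslope Real.sinh 0 (2 * γ * r) := by
    funext r
    unfold kap
    by_cases h : r = 0
    · rw [if_pos h, h, mul_zero, dslope_same, Real.deriv_sinh, Real.cosh_zero, div_one]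
    · rw [if_neg h, dslope_of_ne _ (by positivity), slope_def_field, Real.sinh_zero, sub_zero,
        sub_zero]
      have hs : Real.sinh (2 * γ * r) ≠ 0 := by
        rw [Ne, Real.sinh_eq_zero]; positivity
      field_simp
      ring
  rw [he]
  apply Continuous.div continuous_const
  · exact hf.comp (by fun_prop)
  · intro r; exact (hpos _).ne'

end PB1

open PB1 in
theorem t_B1 : S_B1 := by
  intro γ hγ
  have hπ := Real.pi_pos
  refine ⟨kap_cont γ hγ, kap_even γ, kap_pos γ hγ, ?_, ?_, ?_, ?_⟩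
  · have h1 : Tendsto (fun r : ℝ => 4 * γ / Real.pi ^ 2 * (2 / (1 / 2)) *
        Real.exp (-((1 - 1 / 2) * (2 * γ) * r))) atTop (𝓝 (4 * γ / Real.pi ^ 2 * (2 / (1 / 2)) * 0)) := by
      apply Tendsto.const_mul
      apply Real.tendsto_exp_atBot.comp
      apply tendsto_neg_atTop_atBot.comp
      exact Tendsto.const_mul_atTop (by nlinarith) tendsto_id
    rw [mul_zero] at h1
    refine squeeze_zero' (Eventually.of_forall fun r => (kap_pos γ hγ r).le) ?_ h1
    filter_upwards [eventually_ge_atTop 0] with r hr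
    have := kap_le γ hγ (1 / 2) (by norm_num) (by norm_num) r
    rwa [abs_of_nonneg hr] at this
  · intro r hr
    have hs : Real.sinh (2 * γ * r) ≠ 0 := (Real.sinh_pos_iff.2 (by positivity)).ne'
    have hs' : Real.sinh r ≠ 0 := (Real.sinh_pos_iff.2 hr).ne'
    have h1 : HasDerivAt (fun r : ℝ => 8 * γ ^ 2 / Real.pi ^ 2 * (r / Real.sinh (2 * γ * r)))
        (8 * γ ^ 2 / Real.pi ^ 2 * ((1 * Real.sinh (2 * γ * r) -
          r * (Real.cosh (2 * γ * r) * (2 * γ * 1))) / Real.sinh (2 * γ * r) ^ 2)) r := by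
      apply HasDerivAt.const_mul
      apply HasDerivAt.fun_div (hasDerivAt_id r) _ hs
      exact ((hasDerivAt_id r).const_mul (2 * γ)).sinh
    have h2 : kap γ =ᶠ[𝓝 r] fun r => 8 * γ ^ 2 / Real.pi ^ 2 * (r / Real.sinh (2 * γ * r)) := by
      filter_upwards [lt_mem_nhds hr] with s hs0
      unfold kap
      rw [if_neg (ne_of_gt hs0)]
    refine (h1.congr_of_eventuallyEq h2).congr_deriv ?_
    unfold kk
    field_simp
    ring
  · intro r hr
    unfold kk
    have hx : 0 < 2 * γ * r := by positivity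
    have hs : 0 < Real.sinh (2 * γ * r) := Real.sinh_pos_iff.2 hx
    have hs' : 0 < Real.sinh r := Real.sinh_pos_iff.2 hr
    have key : ∀ x : ℝ, 0 ≤ x → 0 ≤ x * Real.cosh x - Real.sinh x := by
      have hmono : MonotoneOn (fun x : ℝ => x * Real.cosh x - Real.sinh x) (Set.Ici 0) := by
        apply monotoneOn_of_deriv_nonneg (convex_Ici 0)
        · fun_prop
        · fun_prop
        · intro x hx
          rw [interior_Ici, Set.mem_Ioi] at hx
          have hd : HasDerivAt (fun x : ℝ => x * Real.cosh x - Real.sinh x)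
              (1 * Real.cosh x + x * Real.sinh x - Real.cosh x) x :=
            ((hasDerivAt_id x).mul (Real.hasDerivAt_cosh x)).sub (Real.hasDerivAt_sinh x)
          rw [hd.deriv]
          have : 0 < Real.sinh x := Real.sinh_pos_iff.2 hx
          nlinarith
      intro x hx
      have := hmono (Set.mem_Ici.2 le_rfl) (Set.mem_Ici.2 hx) hx
      simpa using this
    have := key _ hx.le
    positivity
  · intro ν hν
    set δ := (2 * γ - |ν|) / (4 * γ) with hδ
    have hδ0 : 0 < δ := by
      rw [hδ]; apply div_pos <;> linarith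
    have hδ2 : δ ≤ 2 := by
      rw [hδ, div_le_iff₀ (by positivity)]
      have := abs_nonneg ν
      linarith
    have hc : (1 - δ) * (2 * γ) - |ν| = γ - |ν| / 2 := by
      rw [hδ]; field_simp; ring
    have hc0 : 0 < γ - |ν| / 2 := by linarith
    refine ((expabs _ hc0).const_mul (4 * γ / Real.pi ^ 2 * (2 / δ))).mono' ?_ ?_
    · exact ((kap_cont γ hγ).mul (by fun_prop)).aestronglyMeasurable
    · refine Eventually.of_forall fun r => ?_
      rw [Real.norm_eq_abs, abs_of_nonneg (mul_nonneg (kap_pos γ hγ r).le (Real.exp_pos _).le)]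
      have h1 := kap_le γ hγ δ hδ0 hδ2 r
      have h2 : Real.exp (ν * r) ≤ Real.exp (|ν| * |r|) := by
        apply Real.exp_le_exp.2
        rw [← abs_mul]
        exact le_abs_self _
      calc kap γ r * Real.exp (ν * r) ≤
          (4 * γ / Real.pi ^ 2 * (2 / δ) * Real.exp (-((1 - δ) * (2 * γ) * |r|))) *
            Real.exp (|ν| * |r|) := by
            apply mul_le_mul h1 h2 (Real.exp_pos _).le
            positivity
        _ = 4 * γ / Real.pi ^ 2 * (2 / δ) * Real.exp (-((γ - |ν| / 2) * |r|)) := by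
            rw [mul_assoc, ← Real.exp_add, ← hc]
            ring_nf

end Pool.Agent.T2H99.HY
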