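import Pool.Agent.T2H99.HY.Stm

set_option autoImplicit false

noncomputable section

open MeasureTheory Filter Topology

namespace Pool.Agent.T2H99.HY

namespace PB2

lemma sum_Z {w : ℂ} (hw : 0 < w.im) :
    Complex.sin (Real.pi * w) ^ 2 * (∑' m : ℤ, 1 / (w + m) ^ 2) = (Real.pi : ℂ) ^ 2 := by
  have h := EisensteinSeries.qExpansion_identity (k := 1) le_rfl ⟨w, hw⟩
  have e0 : ((⟨w, hw⟩ : UpperHalfPlane) : ℂ) = w := rfl
  rw [e0] at h
  simp only [Nat.factorial_one, Nat.cast_one, div_one, pow_one] at h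
  norm_num at h
  obtain ⟨q, hq⟩ : ∃ q : ℂ, q = Complex.exp (2 * Real.pi * Complex.I * w) := ⟨_, rfl⟩
  rw [← hq] at h
  have hq1 : ‖q‖ < 1 := by
    rw [hq, Complex.norm_exp]
    have : (2 * Real.pi * Complex.I * w).re = -(2 * Real.pi * w.im) := by
      simp [mul_assoc]
    rw [this]
    rw [Real.exp_lt_one_iff]
    have := Real.pi_pos
    have : 0 < 2 * Real.pi * w.im := by positivity
    linarith
  have h2 := tsum_coe_mul_geometric_of_norm_lt_one hq1
  rw [h2] at h
  have e2 : (∑' m : ℤ, 1 / (w + m) ^ 2) = ∑' m : ℤ, ((w + m) ^ 2)⁻¹ := by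
    congr 1
    funext m
    rw [one_div]
  rw [e2, h]
  have hE : Complex.exp (Real.pi * w * Complex.I) ≠ 0 := Complex.exp_ne_zero _
  have hqE : q = Complex.exp (Real.pi * w * Complex.I) ^ 2 := by
    rw [hq, ← Complex.exp_nat_mul]
    congr 1
    push_cast
    ring
  have hsin : Complex.sin (Real.pi * w) = (Complex.exp (-(Real.pi * w * Complex.I)) -
      Complex.exp (Real.pi * w * Complex.I)) * Complex.I / 2 := by
    rw [Complex.sin]
    ring_nf
  have hE' : Complex.exp (-(Real.pi * w * Complex.I)) =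
      (Complex.exp (Real.pi * w * Complex.I))⁻¹ := Complex.exp_neg _
  have hne : (1 - q) ≠ 0 := by
    intro h0
    have : q = 1 := by linear_combination -h0
    rw [this, norm_one] at hq1
    exact lt_irrefl _ hq1
  rw [hsin, hE', hqE]
  rw [hqE] at hne
  obtain ⟨E, hEd⟩ : ∃ E : ℂ, E = Complex.exp (Real.pi * w * Complex.I) := ⟨_, rfl⟩
  rw [← hEd] at hE hne ⊢
  field_simp
  exact Complex.I_pow_four

lemma real_int {a : ℝ} (ha : 0 < a) :
    IntegrableOn (fun r : ℝ => r * Real.exp (-(a * r))) (Set.Ioi 0) := by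
  have h := integrableOn_rpow_mul_exp_neg_mul_rpow (s := 1) (p := 1) (b := a) (by norm_num)
    one_pos ha
  refine h.congr_fun (fun r _ => ?_) measurableSet_Ioi
  beta_reduce
  rw [Real.rpow_one, neg_mul]

lemma cplx_int {a : ℂ} (ha : 0 < a.re) :
    IntegrableOn (fun r : ℝ => (r : ℂ) * Complex.exp (-(a * r))) (Set.Ioi 0) := by
  have h := real_int ha
  refine Integrable.mono' h ?_ ?_
  · exact (by fun_prop : Continuous fun r : ℝ => (r : ℂ) * Complex.exp (-(a * r))).aestronglyMeasurable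
  · rw [ae_restrict_iff' measurableSet_Ioi]
    refine Filter.Eventually.of_forall fun r hr => ?_
    rw [norm_mul, Complex.norm_exp, Complex.norm_real, Real.norm_of_nonneg (le_of_lt hr)]
    have : (-(a * (r : ℂ))).re = -(a.re * r) := by simp
    rw [this]

lemma cplx_val {a : ℂ} (ha : 0 < a.re) :
    ∫ r in Set.Ioi (0 : ℝ), (r : ℂ) * Complex.exp (-(a * r)) = 1 / a ^ 2 := by
  have ha0 : a ≠ 0 := by
    rintro rfl
    simp at ha
  have hd : ∀ r ∈ Set.Ici (0 : ℝ), HasDerivAt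
      (fun r : ℝ => -((r : ℂ) / a + 1 / a ^ 2) * Complex.exp (-(a * r)))
      ((r : ℂ) * Complex.exp (-(a * r))) r := by
    intro r _
    have h1 : HasDerivAt (fun z : ℂ => -(z / a + 1 / a ^ 2) * Complex.exp (-(a * z)))
        (-(1 / a) * Complex.exp (-(a * r)) +
          -((r : ℂ) / a + 1 / a ^ 2) * (Complex.exp (-(a * r)) * (-(a * 1)))) (r : ℂ) := by
      have h2 : HasDerivAt (fun z : ℂ => -(z / a + 1 / a ^ 2)) (-(1 / a)) (r : ℂ) :=
        (((hasDerivAt_id (r : ℂ)).div_const a).add_const _).neg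
      have h3 : HasDerivAt (fun z : ℂ => Complex.exp (-(a * z)))
          (Complex.exp (-(a * r)) * (-(a * 1))) (r : ℂ) :=
        (((hasDerivAt_id (r : ℂ)).const_mul a).neg).cexp
      exact h2.mul h3
    have h4 := h1.comp_ofReal
    refine h4.congr_deriv ?_
    field_simp
    ring
  have hlim : Tendsto (fun r : ℝ => -((r : ℂ) / a + 1 / a ^ 2) * Complex.exp (-(a * r))) atTop
      (𝓝 0) := by
    have h1 := tendsto_rpow_mul_exp_neg_mul_atTop_nhds_zero 1 a.re ha
    have h0 := tendsto_rpow_mul_exp_neg_mul_atTop_nhds_zero 0 a.re ha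
    have h2 := (h1.mul_const (1 / ‖a‖)).add (h0.mul_const (1 / ‖a‖ ^ 2))
    simp only [zero_mul, add_zero] at h2
    refine squeeze_zero_norm' ?_ h2
    filter_upwards [eventually_ge_atTop 0] with r hr
    rw [norm_mul, norm_neg, Complex.norm_exp]
    have e1 : (-(a * (r : ℂ))).re = -a.re * r := by simp
    rw [e1, Real.rpow_one, Real.rpow_zero]
    have h3 : ‖(r : ℂ) / a + 1 / a ^ 2‖ ≤ r * (1 / ‖a‖) + 1 / ‖a‖ ^ 2 := by
      refine (norm_add_le _ _).trans (le_of_eq ?_)
      rw [norm_div, norm_div, norm_pow, norm_one, Complex.norm_real, Real.norm_of_nonneg hr]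
      ring
    calc ‖(r : ℂ) / a + 1 / a ^ 2‖ * Real.exp (-a.re * r) ≤
        (r * (1 / ‖a‖) + 1 / ‖a‖ ^ 2) * Real.exp (-a.re * r) :=
          mul_le_mul_of_nonneg_right h3 (Real.exp_pos _).le
      _ = _ := by ring
  have h := integral_Ioi_of_hasDerivAt_of_tendsto' hd (cplx_int ha) hlim
  rw [h]
  simp

lemma norm_val {a : ℂ} (ha : 0 < a.re) :
    ∫ r in Set.Ioi (0 : ℝ), ‖(r : ℂ) * Complex.exp (-(a * r))‖ = 1 / a.re ^ 2 := by
  have h1 : ∫ r in Set.Ioi (0 : ℝ), ‖(r : ℂ) * Complex.exp (-(a * r))‖ =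
      ∫ r in Set.Ioi (0 : ℝ), r * Real.exp (-(a.re * r)) := by
    refine setIntegral_congr_fun measurableSet_Ioi fun r hr => ?_
    beta_reduce
    rw [norm_mul, Complex.norm_exp, Complex.norm_real, Real.norm_of_nonneg (le_of_lt hr)]
    have : (-(a * (r : ℂ))).re = -(a.re * r) := by simp
    rw [this]
  rw [h1]
  have h2 := cplx_val (a := (a.re : ℂ)) (by simpa using ha)
  have h3 : ((∫ r in Set.Ioi (0 : ℝ), r * Real.exp (-(a.re * r)) : ℝ) : ℂ) =
      ((1 / a.re ^ 2 : ℝ) : ℂ) := by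
    rw [← integral_complex_ofReal]
    push_cast
    exact h2
  exact_mod_cast h3

lemma kap_sum {γ : ℝ} (hγ : 0 < γ) {r : ℝ} (hr : 0 < r) (ν : ℂ) :
    HasSum (fun k : ℕ => (16 * γ ^ 2 / Real.pi ^ 2 : ℂ) *
      ((r : ℂ) * Complex.exp (-((2 * γ * (2 * k + 1) + ν) * r))))
      ((kap γ r : ℂ) * Complex.exp (-ν * r)) := by
  have hy : 0 < 2 * γ * r := by positivity
  set y := 2 * γ * r with hyd
  have hq : ‖Complex.exp (-(2 * y : ℝ))‖ < 1 := by
    rw [Complex.norm_exp]
    rw [Real.exp_lt_one_iff]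
    simp
    linarith
  have h1 := (hasSum_geometric_of_norm_lt_one hq).mul_left
    ((16 * γ ^ 2 / Real.pi ^ 2 : ℂ) * r * Complex.exp (-(y : ℂ)) * Complex.exp (-ν * r))
  have hsinh : (Real.sinh y : ℂ) = (Complex.exp y - Complex.exp (-y)) / 2 := by
    rw [Complex.ofReal_sinh, Complex.sinh]
  have hval : (kap γ r : ℂ) * Complex.exp (-ν * r) =
      (16 * γ ^ 2 / Real.pi ^ 2 : ℂ) * r * Complex.exp (-(y : ℂ)) * Complex.exp (-ν * r) *
        (1 - Complex.exp (-(2 * y : ℝ)))⁻¹ := by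
    unfold kap
    rw [if_neg hr.ne', ← hyd]
    push_cast
    rw [show (Complex.sinh (y : ℂ)) = (Complex.exp y - Complex.exp (-y)) / 2 from Complex.sinh.eq_1 _]
    have e1 : Complex.exp (-(2 * (y : ℂ))) = Complex.exp (-y) * Complex.exp (-y) := by
      rw [← Complex.exp_add]; ring_nf
    have e2 : Complex.exp (y : ℂ) * Complex.exp (-y) = 1 := by rw [← Complex.exp_add]; simp
    have e3 : (1 - Complex.exp (-y : ℂ) * Complex.exp (-y)) ≠ 0 := by
      intro h0
      have h2 : Complex.exp (-(2 * y : ℝ)) = 1 := by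
        push_cast
        rw [e1]
        linear_combination -h0
      rw [h2, norm_one] at hq
      exact lt_irrefl _ hq
    have e4 : Complex.exp (y : ℂ) - Complex.exp (-y) ≠ 0 := by
      intro h0
      apply e3
      have : Complex.exp (-y : ℂ) * (Complex.exp (y : ℂ) - Complex.exp (-y)) = 0 := by
        rw [h0, mul_zero]
      linear_combination this - e2
    have hpi : (Real.pi : ℂ) ≠ 0 := by exact_mod_cast Real.pi_ne_zero
    rw [e1]
    have hY := e2
    set Y := Complex.exp (y : ℂ) with hYd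
    set Yi := Complex.exp (-(y : ℂ)) with hYid
    have hk1 : (r : ℂ) / ((Y - Yi) / 2) = 2 * r * Yi * (1 - Yi * Yi)⁻¹ := by
      rw [← div_eq_mul_inv, div_eq_div_iff (by
        intro h0
        apply e4
        linear_combination 2 * h0) e3]
      linear_combination (-(r : ℂ)) * hY
    rw [hk1]
    ring
  rw [hval]
  refine h1.congr_fun ?_ |> id
  intro k
  have e5 : Complex.exp (-(2 * y : ℝ)) ^ k = Complex.exp (-(2 * y * k)) := by
    rw [← Complex.exp_nat_mul]
    congr 1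
    push_cast
    ring
  rw [e5]
  have e6 : Complex.exp (-((2 * γ * (2 * k + 1) + ν) * r)) =
      Complex.exp (-(y : ℂ)) * Complex.exp (-ν * r) * Complex.exp (-(2 * y * k)) := by
    rw [← Complex.exp_add, ← Complex.exp_add]
    congr 1
    rw [hyd]
    push_cast
    ring
  rw [e6]
  ring

lemma summ_aux {γ : ℝ} (hγ : 0 < γ) {x : ℝ} (h : |x| < 2 * γ) :
    Summable fun k : ℕ => 1 / (2 * γ * (2 * k + 1) + x) ^ 2 := by
  have hx := abs_lt.1 h
  set c := min (2 * γ + x) (2 * γ) with hc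
  have hc0 : 0 < c := lt_min (by linarith) (by linarith)
  have h1 : Summable fun k : ℕ => 1 / c ^ 2 * (1 / ((k : ℝ) + 1) ^ 2) := by
    refine Summable.mul_left _ ?_
    have h2 := (Real.summable_one_div_nat_pow (p := 2)).2 (by norm_num)
    have h3 := (summable_nat_add_iff 1).2 h2
    refine h3.congr fun k => ?_
    push_cast
    rfl
  refine Summable.of_nonneg_of_le (fun k => by positivity) (fun k => ?_) h1
  have hk : (0 : ℝ) ≤ k := Nat.cast_nonneg k
  have h4 : c * (k + 1) ≤ 2 * γ * (2 * k + 1) + x := by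
    have h5 : c ≤ 2 * γ + x := min_le_left _ _
    have h6 : c ≤ 2 * γ := min_le_right _ _
    nlinarith
  have h7 : 0 < c * ((k : ℝ) + 1) := by positivity
  rw [one_div_mul_one_div, ← mul_pow]
  exact one_div_le_one_div_of_le (by positivity) (pow_le_pow_left₀ h7.le h4 2)

/-- the integral over the half line -/
lemma half {γ : ℝ} (hγ : 0 < γ) {ν : ℂ} (h : |ν.re| < 2 * γ) :
    HasSum (fun k : ℕ => 1 / ((1 / 2 + ν / (4 * γ)) + k) ^ 2)
      ((Real.pi : ℂ) ^ 2 * ∫ r in Set.Ioi (0 : ℝ), (kap γ r : ℂ) * Complex.exp (-ν * r)) := by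
  have hx := abs_lt.1 h
  have hpi : (Real.pi : ℂ) ≠ 0 := by exact_mod_cast Real.pi_ne_zero
  have hγc : (γ : ℂ) ≠ 0 := by exact_mod_cast hγ.ne'
  have hre : ∀ k : ℕ, (2 * γ * (2 * k + 1) + ν : ℂ).re = 2 * γ * (2 * k + 1) + ν.re := by
    intro k
    have : (2 * γ * (2 * k + 1) + ν : ℂ) = ((2 * γ * (2 * k + 1) : ℝ) : ℂ) + ν := by push_cast; ring
    rw [this, Complex.add_re, Complex.ofReal_re]
  have hpos : ∀ k : ℕ, 0 < (2 * γ * (2 * k + 1) + ν : ℂ).re := by
    intro k
    rw [hre]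
    have hk : (0 : ℝ) ≤ k := Nat.cast_nonneg k
    have : 0 ≤ 2 * γ * (2 * k) := by positivity
    nlinarith
  have hint : ∀ k : ℕ, Integrable (fun r : ℝ => (16 * γ ^ 2 / Real.pi ^ 2 : ℂ) *
      ((r : ℂ) * Complex.exp (-((2 * γ * (2 * k + 1) + ν) * r))))
      (volume.restrict (Set.Ioi 0)) := fun k => (cplx_int (hpos k)).const_mul _
  have hsum : Summable fun k : ℕ => ∫ r in Set.Ioi (0 : ℝ), ‖(16 * γ ^ 2 / Real.pi ^ 2 : ℂ) *
      ((r : ℂ) * Complex.exp (-((2 * γ * (2 * k + 1) + ν) * r)))‖ := by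
    have e1 : ∀ k : ℕ, ∫ r in Set.Ioi (0 : ℝ), ‖(16 * γ ^ 2 / Real.pi ^ 2 : ℂ) *
        ((r : ℂ) * Complex.exp (-((2 * γ * (2 * k + 1) + ν) * r)))‖ =
        ‖(16 * γ ^ 2 / Real.pi ^ 2 : ℂ)‖ * (1 / (2 * γ * (2 * k + 1) + ν.re) ^ 2) := by
      intro k
      simp_rw [norm_mul (16 * (γ : ℂ) ^ 2 / (Real.pi : ℂ) ^ 2)]
      rw [integral_const_mul, norm_val (hpos k), hre]
    simp_rw [e1]
    exact (summ_aux hγ h).mul_left _
  have h1 := hasSum_integral_of_summable_integral_norm hint hsum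
  have h2 : ∫ r in Set.Ioi (0 : ℝ), ∑' k : ℕ, (16 * γ ^ 2 / Real.pi ^ 2 : ℂ) *
      ((r : ℂ) * Complex.exp (-((2 * γ * (2 * k + 1) + ν) * r))) =
      ∫ r in Set.Ioi (0 : ℝ), (kap γ r : ℂ) * Complex.exp (-ν * r) :=
    setIntegral_congr_fun measurableSet_Ioi fun r hr => (kap_sum hγ hr ν).tsum_eq
  rw [h2] at h1
  have h3 := h1.mul_left ((Real.pi : ℂ) ^ 2)
  refine h3.congr_fun ?_ |> id
  intro k
  rw [integral_const_mul, cplx_val (hpos k)]
  have hne : (2 * γ * (2 * k + 1) + ν : ℂ) ≠ 0 := by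
    intro h0
    have := hpos k
    rw [h0] at this
    simp at this
  have e7 : ((1 / 2 + ν / (4 * γ)) + k : ℂ) = (2 * γ * (2 * k + 1) + ν) / (4 * γ) := by
    field_simp
    ring
  rw [e7]
  field_simp
  ring

lemma kap_neg (γ r : ℝ) : kap γ (-r) = kap γ r := by
  unfold kap
  by_cases h : r = 0
  · rw [if_pos h, if_pos (by rw [h, neg_zero])]
  · rw [if_neg h, if_neg (by simpa using h)]
    rw [mul_neg, Real.sinh_neg, neg_div_neg_eq]

/-- the integral over the whole line -/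
lemma whole (h1 : S_B1) {γ : ℝ} (hγ : 0 < γ) {ν : ℂ} (h : |ν.re| < 2 * γ) :
    Integrable (fun r : ℝ => (kap γ r : ℂ) * Complex.exp (-ν * r)) ∧
    ∫ r : ℝ, (kap γ r : ℂ) * Complex.exp (-ν * r) =
      (∫ r in Set.Ioi (0 : ℝ), (kap γ r : ℂ) * Complex.exp (-ν * r)) +
      ∫ r in Set.Ioi (0 : ℝ), (kap γ r : ℂ) * Complex.exp (-(-ν) * r) := by
  obtain ⟨hcont, -, hkpos, -, -, -, hint⟩ := h1 γ hγ
  have hI : Integrable (fun r : ℝ => (kap γ r : ℂ) * Complex.exp (-ν * r)) := by
    refine Integrable.mono' (hint (-ν.re) (by rwa [abs_neg])) ?_ ?_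
    · have : Continuous fun r : ℝ => (kap γ r : ℂ) * Complex.exp (-ν * r) := by
        have := Complex.continuous_ofReal.comp hcont
        exact this.mul (by fun_prop)
      exact this.aestronglyMeasurable
    · refine Filter.Eventually.of_forall fun r => ?_
      rw [norm_mul, Complex.norm_exp, Complex.norm_real, Real.norm_of_nonneg (hkpos r).le]
      have : (-ν * (r : ℂ)).re = -ν.re * r := by simp
      rw [this]
  refine ⟨hI, ?_⟩
  rw [← setIntegral_univ, ← Set.Iic_union_Ioi (a := (0 : ℝ)),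
    setIntegral_union (Set.Iic_disjoint_Ioi le_rfl) measurableSet_Ioi hI.integrableOn
      hI.integrableOn, add_comm]
  congr 1
  have h2 := integral_comp_neg_Ioi (0 : ℝ) (fun r : ℝ => (kap γ r : ℂ) * Complex.exp (-ν * r))
  rw [neg_zero] at h2
  rw [← h2]
  refine setIntegral_congr_fun measurableSet_Ioi fun r _ => ?_
  beta_reduce
  rw [kap_neg]
  congr 2
  push_cast
  ring

/-- the formula in the upper half plane -/
lemma upper (h1 : S_B1) {γ : ℝ} (hγ : 0 < γ) {ν : ℂ} (h : |ν.re| < 2 * γ) (him : 0 < ν.im) :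
    ∫ r : ℝ, (kap γ r : ℂ) * Complex.exp (-ν * r) =
      1 / Complex.cos (Real.pi * ν / (4 * γ)) ^ 2 := by
  have hpi : (Real.pi : ℂ) ≠ 0 := by exact_mod_cast Real.pi_ne_zero
  have hγc : (γ : ℂ) ≠ 0 := by exact_mod_cast hγ.ne'
  rw [(whole h1 hγ h).2]
  have ha := half hγ h
  have hb := half hγ (ν := -ν) (by rw [Complex.neg_re, abs_neg]; exact h)
  set w : ℂ := 1 / 2 + ν / (4 * γ) with hw
  have hwim : 0 < w.im := by
    have e1 : w = ((1 / 2 : ℝ) : ℂ) + ν * (((4 * γ)⁻¹ : ℝ) : ℂ) := by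
      rw [hw]
      push_cast
      ring
    rw [e1, Complex.add_im, Complex.ofReal_im, zero_add, Complex.mul_im, Complex.ofReal_im,
      Complex.ofReal_re, mul_zero, zero_add]
    positivity
  have key := sum_Z hwim
  have e2 : ∀ k : ℕ, 1 / (w + ((k : ℤ) : ℂ)) ^ 2 = 1 / (w + k) ^ 2 := by
    intro k
    push_cast
    rfl
  have e3 : ∀ k : ℕ, 1 / (w + ((-((k : ℤ) + 1) : ℤ) : ℂ)) ^ 2 =
      1 / ((1 / 2 + -ν / (4 * γ)) + k) ^ 2 := by
    intro k
    push_cast
    congr 1
    rw [hw]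
    ring
  have h3 := tsum_of_nat_of_neg_add_one (f := fun m : ℤ => 1 / (w + m) ^ 2)
    (ha.summable.congr fun k => (e2 k).symm) (hb.summable.congr fun k => (e3 k).symm)
  rw [tsum_congr e2, tsum_congr e3, ha.tsum_eq, hb.tsum_eq] at h3
  rw [h3] at key
  have hsin : Complex.sin (Real.pi * w) = Complex.cos (Real.pi * ν / (4 * γ)) := by
    have : (Real.pi : ℂ) * w = Real.pi * ν / (4 * γ) + Real.pi / 2 := by
      rw [hw]; ring
    rw [this, Complex.sin_add_pi_div_two]
  rw [hsin] at key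
  set cc := Complex.cos (Real.pi * ν / (4 * γ)) with hcc
  have hc0 : cc ≠ 0 := by
    intro h0
    rw [h0] at key
    have : (Real.pi : ℂ) ^ 2 ≠ 0 := pow_ne_zero 2 hpi
    apply this
    rw [← key]
    ring
  rw [eq_div_iff (pow_ne_zero 2 hc0)]
  have hp2 : (Real.pi : ℂ) ^ 2 ≠ 0 := pow_ne_zero 2 hpi
  refine mul_left_cancel₀ hp2 ?_
  linear_combination key

end PB2

theorem t_B2 (h1 : S_B1) : S_B2 := by
  intro γ hγ ν h
  rcases lt_trichotomy ν.im 0 with him | him | him
  · -- symmetry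
    have h2 := PB2.upper h1 hγ (ν := -ν) (by rw [Complex.neg_re, abs_neg]; exact h)
      (by rw [Complex.neg_im]; linarith)
    have e1 : ∫ r : ℝ, (kap γ r : ℂ) * Complex.exp (-ν * r) =
        ∫ r : ℝ, (kap γ r : ℂ) * Complex.exp (-(-ν) * r) := by
      rw [← integral_neg_eq_self (fun r : ℝ => (kap γ r : ℂ) * Complex.exp (-ν * r))]
      refine integral_congr_ae (Filter.Eventually.of_forall fun r => ?_)
      beta_reduce
      rw [PB2.kap_neg]
      congr 2
      push_cast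
      ring
    rw [e1, h2]
    have e2 : (Real.pi : ℂ) * -ν / (4 * γ) = -(Real.pi * ν / (4 * γ)) := by ring
    rw [e2, Complex.cos_neg]
  · -- continuity
    obtain ⟨hcont, -, hkpos, -, -, -, hint⟩ := h1 γ hγ
    have hseq : Tendsto (fun n : ℕ => ν + ((1 / ((n : ℝ) + 1) : ℝ) : ℂ) * Complex.I) atTop
        (𝓝 ν) := by
      have h3 : Tendsto (fun n : ℕ => 1 / ((n : ℝ) + 1)) atTop (𝓝 0) :=
        tendsto_one_div_add_atTop_nhds_zero_nat
      have h4 := (Complex.continuous_ofReal.tendsto 0).comp h3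
      have h5 := (h4.mul_const Complex.I).const_add ν
      simpa using h5
    have hA : Tendsto (fun n : ℕ => ∫ r : ℝ, (kap γ r : ℂ) *
        Complex.exp (-(ν + ((1 / ((n : ℝ) + 1) : ℝ) : ℂ) * Complex.I) * r)) atTop
        (𝓝 (∫ r : ℝ, (kap γ r : ℂ) * Complex.exp (-ν * r))) := by
      refine tendsto_integral_of_dominated_convergence
        (fun r => kap γ r * Real.exp (-ν.re * r)) (fun n => ?_)
        (hint (-ν.re) (by rwa [abs_neg])) (fun n => ?_) ?_
      · have : Continuous fun r : ℝ => (kap γ r : ℂ) *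
            Complex.exp (-(ν + ((1 / ((n : ℝ) + 1) : ℝ) : ℂ) * Complex.I) * r) := by
          have := Complex.continuous_ofReal.comp hcont
          exact this.mul (by fun_prop)
        exact this.aestronglyMeasurable
      · refine Filter.Eventually.of_forall fun r => ?_
        rw [norm_mul, Complex.norm_exp, Complex.norm_real, Real.norm_of_nonneg (hkpos r).le]
        have : (-(ν + ((1 / ((n : ℝ) + 1) : ℝ) : ℂ) * Complex.I) * (r : ℂ)).re = -ν.re * r := by
          simp
        rw [this]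
      · refine Filter.Eventually.of_forall fun r => ?_
        have h6 : Continuous fun z : ℂ => (kap γ r : ℂ) * Complex.exp (-z * r) := by fun_prop
        exact (h6.tendsto ν).comp hseq
    have hcos0 : Complex.cos (Real.pi * ν / (4 * γ)) ≠ 0 := by
      have e1 : (Real.pi : ℂ) * ν / (4 * γ) = ((Real.pi * ν.re / (4 * γ) : ℝ) : ℂ) := by
        have : ν = (ν.re : ℂ) := by
          apply Complex.ext <;> simp [him]
        conv_lhs => rw [this]
        push_cast
        ring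
      rw [e1, ← Complex.ofReal_cos]
      have h7 : 0 < Real.cos (Real.pi * ν.re / (4 * γ)) := by
        have hx := abs_lt.1 h
        have hpi := Real.pi_pos
        apply Real.cos_pos_of_mem_Ioo
        constructor
        · rw [lt_div_iff₀ (by positivity)]
          nlinarith
        · rw [div_lt_iff₀ (by positivity)]
          nlinarith
      exact_mod_cast h7.ne'
    have hB : Tendsto (fun n : ℕ => ∫ r : ℝ, (kap γ r : ℂ) *
        Complex.exp (-(ν + ((1 / ((n : ℝ) + 1) : ℝ) : ℂ) * Complex.I) * r)) atTop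
        (𝓝 (1 / Complex.cos (Real.pi * ν / (4 * γ)) ^ 2)) := by
      have h8 : ∀ n : ℕ, ∫ r : ℝ, (kap γ r : ℂ) *
          Complex.exp (-(ν + ((1 / ((n : ℝ) + 1) : ℝ) : ℂ) * Complex.I) * r) =
          1 / Complex.cos (Real.pi * (ν + ((1 / ((n : ℝ) + 1) : ℝ) : ℂ) * Complex.I) /
            (4 * γ)) ^ 2 := by
        intro n
        refine PB2.upper h1 hγ ?_ ?_
        · have : (ν + ((1 / ((n : ℝ) + 1) : ℝ) : ℂ) * Complex.I).re = ν.re := by simp
          rw [this]
          exact h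
        · have : (ν + ((1 / ((n : ℝ) + 1) : ℝ) : ℂ) * Complex.I).im = 1 / ((n : ℝ) + 1) := by
            rw [Complex.add_im, him, zero_add, Complex.mul_I_im, Complex.ofReal_re]
          rw [this]
          positivity
      simp_rw [h8]
      have h9 : ContinuousAt (fun z : ℂ => 1 / Complex.cos (Real.pi * z / (4 * γ)) ^ 2) ν := by
        refine ContinuousAt.div continuousAt_const ?_ (pow_ne_zero 2 hcos0)
        exact (by fun_prop : Continuous fun z : ℂ =>
          Complex.cos (Real.pi * z / (4 * γ)) ^ 2).continuousAt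
      exact h9.tendsto.comp hseq
    exact tendsto_nhds_unique hA hB
  · exact PB2.upper h1 hγ h him

end Pool.Agent.T2H99.HY
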