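import Pool.Agent.T2H99.HY.Stm

set_option autoImplicit false

noncomputable section

open MeasureTheory Filter Topology
open scoped ENNReal

namespace Pool.Agent.T2H99.HY

namespace PC

lemma x0_cont : Continuous x0 := by unfold x0; fun_prop

lemma x0_pos (x : V) : 0 < x0 x := by unfold x0; positivity

lemma x0_sq (x : V) : x0 x ^ 2 = 1 + ‖x‖ ^ 2 := by
  unfold x0; rw [Real.sq_sqrt (by positivity)]

lemma one_le_x0 (x : V) : 1 ≤ x0 x := by
  unfold x0
  rw [Real.one_le_sqrt]
  nlinarith [sq_nonneg ‖x‖]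

lemma arcosh_meas : Measurable Real.arcosh := by
  unfold Real.arcosh; fun_prop

lemma kk_meas (γ : ℝ) : Measurable (kk γ) := by
  unfold kk; fun_prop

lemma ch_cont : Continuous fun q : V × V => ch q.1 q.2 := by
  unfold ch x0; fun_prop

lemma dd_meas : Measurable fun q : V × V => dd q.1 q.2 := by
  unfold dd
  exact arcosh_meas.comp ch_cont.measurable

lemma ddl_meas (x : V) : Measurable fun w : V => dd x w := by
  have h : Continuous fun w : V => ch x w := by
    unfold ch x0; fun_prop
  exact arcosh_meas.comp h.measurable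

lemma ddr_meas (y : V) : Measurable fun w : V => dd w y := by
  have h : Continuous fun w : V => ch w y := by
    unfold ch x0; fun_prop
  exact arcosh_meas.comp h.measurable

lemma kdd_meas (γ : ℝ) (x : V) : Measurable fun w : V => ENNReal.ofReal (kk γ (dd x w)) := by
  have h := (kk_meas γ).comp (ddl_meas x)
  exact ENNReal.measurable_ofReal.comp h

lemma ch_zero (w : V) : ch w 0 = x0 w := by
  unfold ch x0; simp

lemma zero_ch (w : V) : ch 0 w = x0 w := by
  unfold ch x0; simp

lemma dd_zero (w : V) : dd w 0 = Real.arcosh (x0 w) := by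
  unfold dd; rw [ch_zero]

lemma zero_dd (w : V) : dd 0 w = Real.arcosh (x0 w) := by
  unfold dd; rw [zero_ch]

lemma cosh_dd0 (w : V) : Real.cosh (dd w 0) = x0 w := by
  rw [dd_zero, Real.cosh_arcosh (one_le_x0 w)]

lemma sinh_dd0 (w : V) : Real.sinh (dd w 0) = ‖w‖ := by
  rw [dd_zero, Real.sinh_arcosh (one_le_x0 w), x0_sq, add_sub_cancel_left,
    Real.sqrt_sq (norm_nonneg _)]

lemma inner_z (hB : S_B1) {γ r s : ℝ} (hγ : 0 < γ) (hr : 0 < r) (hs : 0 < s) (hrs : s ≠ r) :
    ∫⁻ z in Set.Ioo (-Real.sinh s) (Real.sinh s),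
      ENNReal.ofReal (kk γ (Real.arcosh (Real.cosh r * Real.cosh s - Real.sinh r * z))) =
      ENNReal.ofReal ((kap γ (r - s) - kap γ (r + s)) / (2 * Real.pi * Real.sinh r)) := by
  obtain ⟨hc, hev, -, -, hd, hk0, -⟩ := hB γ hγ
  have hsr : 0 < Real.sinh r := Real.sinh_pos_iff.2 hr
  have hss : 0 < Real.sinh s := Real.sinh_pos_iff.2 hs
  set c : ℝ → ℝ := fun z => Real.cosh r * Real.cosh s - Real.sinh r * z with hcdef
  set A : ℝ → ℝ := fun z => kap γ (Real.arcosh (c z)) / (2 * Real.pi * Real.sinh r) with hA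
  have hc1 : ∀ z ∈ Set.Icc (-Real.sinh s) (Real.sinh s), 1 < c z := by
    intro z hz
    have h1 : 1 < Real.cosh (r - s) := by
      rw [Real.one_lt_cosh]
      intro h; apply hrs; linarith
    rw [Real.cosh_sub] at h1
    have h2 : Real.sinh r * z ≤ Real.sinh r * Real.sinh s := mul_le_mul_of_nonneg_left hz.2 hsr.le
    simp only [hcdef]
    linarith
  have hder : ∀ z ∈ Set.Icc (-Real.sinh s) (Real.sinh s),
      HasDerivAt A (kk γ (Real.arcosh (c z))) z := by
    intro z hz
    have h1 := hc1 z hz
    have hpos : 0 < Real.arcosh (c z) := Real.arcosh_pos h1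
    have e1 : HasDerivAt c (-Real.sinh r) z := by
      have := ((hasDerivAt_id z).const_mul (Real.sinh r)).const_sub (Real.cosh r * Real.cosh s)
      simpa using this
    have e2 := Real.hasDerivAt_arcosh (show c z ∈ Set.Ioi 1 from h1)
    have e3 := e2.comp z e1
    have e4 := (hd _ hpos).comp z e3
    have e5 := e4.div_const (2 * Real.pi * Real.sinh r)
    refine e5.congr_deriv ?_
    have hsa : Real.sinh (Real.arcosh (c z)) = Real.sqrt (c z ^ 2 - 1) := Real.sinh_arcosh h1.le
    have hne : Real.sqrt (c z ^ 2 - 1) ≠ 0 := by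
      rw [← hsa]; exact (Real.sinh_pos_iff.2 hpos).ne'
    rw [hsa]
    have := Real.pi_pos
    field_simp
  have hnn : ∀ z ∈ Set.Icc (-Real.sinh s) (Real.sinh s), 0 ≤ kk γ (Real.arcosh (c z)) :=
    fun z hz => hk0 _ (Real.arcosh_pos (hc1 z hz))
  have hcont : ContinuousOn A (Set.Icc (-Real.sinh s) (Real.sinh s)) :=
    fun z hz => (hder z hz).continuousAt.continuousWithinAt
  have hint : IntegrableOn (fun z => kk γ (Real.arcosh (c z)))
      (Set.Ioc (-Real.sinh s) (Real.sinh s)) :=
    intervalIntegral.integrableOn_deriv_of_nonneg hcont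
      (fun z hz => hder z (Set.Ioo_subset_Icc_self hz))
      (fun z hz => hnn z (Set.Ioo_subset_Icc_self hz))
  have hle : -Real.sinh s ≤ Real.sinh s := by linarith
  have hftc := intervalIntegral.integral_eq_sub_of_hasDerivAt_of_le hle hcont
      (fun z hz => hder z (Set.Ioo_subset_Icc_self hz))
      ((intervalIntegrable_iff_integrableOn_Ioc_of_le hle).2 hint)
  rw [intervalIntegral.integral_of_le hle, integral_Ioc_eq_integral_Ioo] at hftc
  rw [← ofReal_integral_eq_lintegral_ofReal (hint.mono_set Set.Ioo_subset_Ioc_self)]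
  · rw [hftc]
    congr 1
    simp only [hA, hcdef]
    have e1 : Real.cosh r * Real.cosh s - Real.sinh r * Real.sinh s = Real.cosh (r - s) := by
      rw [Real.cosh_sub]
    have e2 : Real.cosh r * Real.cosh s - Real.sinh r * -Real.sinh s = Real.cosh (r + s) := by
      rw [Real.cosh_add]; ring
    rw [e1, e2, Real.arcosh_cosh (by linarith : 0 ≤ r + s), ← Real.cosh_abs (r - s),
      Real.arcosh_cosh (abs_nonneg _)]
    have e3 : kap γ |r - s| = kap γ (r - s) := by
      rcases abs_cases (r - s) with h | h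
      · rw [h.1]
      · rw [h.1, hev]
    rw [e3]
    ring
  · rw [EventuallyLE, ae_restrict_iff' measurableSet_Ioo]
    exact Eventually.of_forall fun z hz => hnn z (Set.Ioo_subset_Icc_self hz)

/-- the law of `(d(w, 0), ⟨w, e⟩)` as an iterated integral -/
lemma zonal (hZ : S_Z) {e : V} (he : ‖e‖ = 1) (Q : ℝ × ℝ → ℝ≥0∞) (hQ : Measurable Q) :
    ∫⁻ w : V, Q (dd w 0, inner ℝ w e) ∂mu =
      ∫⁻ s in Set.Ioi (0 : ℝ), ENNReal.ofReal (2 * Real.pi * Real.sinh s) *
        ∫⁻ z in Set.Ioo (-Real.sinh s) (Real.sinh s), Q (s, z) := by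
  set S : Set (ℝ × ℝ) := {q : ℝ × ℝ | 0 < q.1 ∧ |q.2| < Real.sinh q.1} with hS
  have hSm : MeasurableSet S := by
    apply MeasurableSet.inter
    · exact measurableSet_lt measurable_const measurable_fst
    · exact measurableSet_lt (measurable_snd.abs) (Real.continuous_sinh.measurable.comp measurable_fst)
  have hmap : Measurable fun x : V => (Real.arcosh (x0 x), inner ℝ x e) :=
    (arcosh_meas.comp x0_cont.measurable).prodMk (by fun_prop)
  have h1 : ∫⁻ w : V, Q (dd w 0, inner ℝ w e) ∂mu =
      ∫⁻ q, Q q ∂(Measure.map (fun x : V => (Real.arcosh (x0 x), inner ℝ x e)) mu) := by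
    rw [lintegral_map hQ hmap]
    simp_rw [dd_zero]
  rw [h1, hZ e he, lintegral_withDensity_eq_lintegral_mul _ (by fun_prop) hQ,
    ← lintegral_indicator hSm, Measure.volume_eq_prod, lintegral_prod, ← lintegral_indicator
    measurableSet_Ioi]
  · apply lintegral_congr
    intro s
    by_cases hs : 0 < s
    · rw [Set.indicator_of_mem (show s ∈ Set.Ioi (0 : ℝ) from hs),
        ← lintegral_indicator measurableSet_Ioo, ← lintegral_const_mul' _ _ ENNReal.ofReal_ne_top]
      apply lintegral_congr
      intro z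
      by_cases hz : |z| < Real.sinh s
      · rw [Set.indicator_of_mem (show (s, z) ∈ S from ⟨hs, hz⟩),
          Set.indicator_of_mem (show z ∈ Set.Ioo (-Real.sinh s) (Real.sinh s) from abs_lt.1 hz)]
        rfl
      · rw [Set.indicator_of_notMem (show (s, z) ∉ S from fun h => hz h.2),
          Set.indicator_of_notMem (show z ∉ Set.Ioo (-Real.sinh s) (Real.sinh s) from
            fun h => hz (abs_lt.2 h)), mul_zero]
    · rw [Set.indicator_of_notMem (show s ∉ Set.Ioi (0 : ℝ) from hs)]
      have : ∀ z, S.indicator ((fun q : ℝ × ℝ => ENNReal.ofReal (2 * Real.pi * Real.sinh q.1)) * Q)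
          (s, z) = 0 := fun z => Set.indicator_of_notMem (show (s, z) ∉ S from fun h => hs h.1) _
      simp_rw [this]
      simp
  · apply Measurable.aemeasurable
    apply Measurable.indicator _ hSm
    apply Measurable.mul _ hQ
    fun_prop

lemma radial (hZ : S_Z) (hB : S_B1) {γ : ℝ} (hγ : 0 < γ) {x : V} (hx : x ≠ 0)
    (P : ℝ → ℝ≥0∞) (hP : Measurable P) :
    ∫⁻ w, ENNReal.ofReal (kk γ (dd x w)) * P (dd w 0) ∂mu =
      ∫⁻ s in Set.Ioi (0 : ℝ), ENNReal.ofReal ((kap γ (dd x 0 - s) - kap γ (dd x 0 + s)) *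
        Real.sinh s / Real.sinh (dd x 0)) * P s := by
  set r := dd x 0 with hr
  have hxn : 0 < ‖x‖ := norm_pos_iff.2 hx
  have hsr : Real.sinh r = ‖x‖ := sinh_dd0 x
  have hcr : Real.cosh r = x0 x := cosh_dd0 x
  have hr0 : 0 < r := by rw [← Real.sinh_pos_iff, hsr]; exact hxn
  set e : V := ‖x‖⁻¹ • x with he
  have hen : ‖e‖ = 1 := by
    rw [he, norm_smul, norm_inv, norm_norm, inv_mul_cancel₀ hxn.ne']
  set Q : ℝ × ℝ → ℝ≥0∞ := fun q =>
    ENNReal.ofReal (kk γ (Real.arcosh (Real.cosh r * Real.cosh q.1 - Real.sinh r * q.2))) * P q.1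
    with hQ
  have hQm : Measurable Q := by
    apply Measurable.mul
    · apply ENNReal.measurable_ofReal.comp
      apply (kk_meas γ).comp
      apply arcosh_meas.comp
      fun_prop
    · exact hP.comp measurable_fst
  have h1 : ∀ w : V, ENNReal.ofReal (kk γ (dd x w)) * P (dd w 0) = Q (dd w 0, inner ℝ w e) := by
    intro w
    simp only [hQ]
    congr 3
    rw [hcr, hsr, cosh_dd0]
    unfold dd ch
    congr 2
    rw [he, inner_smul_right, real_inner_comm]
    field_simp
  simp_rw [h1]
  rw [zonal hZ hen Q hQm]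
  apply setLIntegral_congr_fun_ae measurableSet_Ioi
  have hne : ∀ᵐ s : ℝ, s ≠ r := by
    rw [ae_iff]
    simp
  filter_upwards [hne] with s hs hs0
  simp only [Set.mem_Ioi] at hs0
  simp only [hQ]
  rw [lintegral_mul_const _ (by
    apply ENNReal.measurable_ofReal.comp
    apply (kk_meas γ).comp
    apply arcosh_meas.comp
    fun_prop), inner_z hB hγ hr0 hs0 hs, ← mul_assoc, ← ENNReal.ofReal_mul (by positivity)]
  congr 2
  have := Real.pi_pos
  rw [hsr]
  field_simp

/-- the law of `d(w, y)` under the measure with density `k(d(x, w))` -/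
lemma law (hA : S_A) (hZ : S_Z) (hB : S_B1) {γ : ℝ} (hγ : 0 < γ) {x y : V} (hxy : x ≠ y) :
    (mu.withDensity (fun w => ENNReal.ofReal (kk γ (dd x w)))).map (fun w => dd w y) =
      (volume.restrict (Set.Ioi (0 : ℝ))).withDensity (fun s =>
        ENNReal.ofReal ((kap γ (dd x y - s) - kap γ (dd x y + s)) *
        Real.sinh s / Real.sinh (dd x y))) := by
  obtain ⟨g, hg, hgg, hg0, hgy⟩ := hA.2.1 y
  obtain ⟨hmp, hlift, hch⟩ := hA.1 g hg
  have hkc := (hB γ hγ).1
  have hinv : ∀ v, act g (act g v) = v := by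
    intro v
    show (g (lift (act g v))).2 = v
    rw [hlift, hgg]; rfl
  have hm1 : Measurable fun w : V => ENNReal.ofReal (kk γ (dd x w)) := kdd_meas γ x
  have hm2 : Measurable fun w : V => dd w y := ddr_meas y
  apply Measure.ext_of_lintegral
  intro P hP
  rw [lintegral_map hP hm2]
  have e1 := lintegral_withDensity_eq_lintegral_mul mu hm1 (hP.comp hm2)
  simp only [Function.comp_apply, Pi.mul_apply] at e1
  rw [e1, lintegral_withDensity_eq_lintegral_mul _ _ hP]
  · have hx' : act g x ≠ 0 := by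
      intro h
      apply hxy
      rw [← hinv x, h, hg0]
    have h1 := radial hZ hB hγ hx' P hP
    have hdd : ∀ a b, dd (act g a) (act g b) = dd a b := by
      intro a b; unfold dd; rw [hch]
    have hgy' : (0 : V) = act g y := hgy.symm
    have h2 : dd (act g x) 0 = dd x y := by rw [hgy', hdd]
    rw [h2] at h1
    simp only [Pi.mul_apply]
    rw [← h1, ← hmp.lintegral_comp]
    · apply lintegral_congr
      intro w
      have e1 : dd x (act g w) = dd (act g x) w := by
        conv_lhs => rw [← hinv x]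
        rw [hdd]
      have e2 : dd (act g w) y = dd w 0 := by
        rw [← hg0, hdd]
      rw [e1, e2]
    · apply Measurable.mul
      · exact kdd_meas γ _
      · exact hP.comp (ddr_meas _)
  · apply ENNReal.measurable_ofReal.comp
    apply Measurable.div_const
    apply Measurable.mul _ Real.continuous_sinh.measurable
    apply Continuous.measurable
    exact (hkc.comp (by fun_prop)).sub (hkc.comp (by fun_prop))

end PC

open PC in
theorem t_C1 (hA : S_A) (hZ : S_Z) (hB : S_B1) : S_C1 := by
  intro γ hγ O hO hodd x y hxy hint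
  obtain ⟨hkc, hev, hkpos, -, hd, hk0, -⟩ := hB γ hγ
  set r := dd x y with hr
  have hr0 : 0 < r := by
    apply Real.arcosh_pos
    rcases lt_or_eq_of_le (hA.2.2 x y).1 with h1 | h1
    · exact h1
    · exact absurd ((hA.2.2 x y).2.2 h1.symm) hxy
  have hsr : 0 < Real.sinh r := Real.sinh_pos_iff.2 hr0
  have hlaw := law hA hZ hB hγ hxy
  rw [← hr] at hlaw
  set M : Measure V := mu.withDensity (fun w => ENNReal.ofReal (kk γ (dd x w))) with hM
  set D : ℝ → ℝ := fun s => (kap γ (r - s) - kap γ (r + s)) * Real.sinh s / Real.sinh r with hD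
  set U : ℝ → ℂ := fun s => O s / (Real.sinh s : ℂ) with hU
  have hm1 : Measurable fun w : V => ENNReal.ofReal (kk γ (dd x w)) := kdd_meas γ x
  have hm2 : Measurable fun w : V => dd w y := ddr_meas y
  have hDm : Measurable fun s => ENNReal.ofReal (D s) := by
    apply ENNReal.measurable_ofReal.comp
    apply Measurable.div_const
    apply Measurable.mul _ Real.continuous_sinh.measurable
    apply Continuous.measurable
    exact (hkc.comp (by fun_prop)).sub (hkc.comp (by fun_prop))
  have hUm : Measurable U :=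
    hO.measurable.div (Complex.measurable_ofReal.comp Real.continuous_sinh.measurable)
  -- monotonicity of κ
  have hmono : ∀ s : ℝ, 0 < s → kap γ (r + s) ≤ kap γ (r - s) := by
    intro s hs
    have hanti : AntitoneOn (kap γ) (Set.Ici 0) := by
      apply antitoneOn_of_deriv_nonpos (convex_Ici 0) hkc.continuousOn
      · intro t ht
        rw [interior_Ici, Set.mem_Ioi] at ht
        exact (hd t ht).differentiableAt.differentiableWithinAt
      · intro t ht
        rw [interior_Ici, Set.mem_Ioi] at ht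
        rw [(hd t ht).deriv]
        have h1 : 0 < Real.sinh t := Real.sinh_pos_iff.2 ht
        have h2 := hk0 t ht
        have h3 := Real.pi_pos
        have : 0 ≤ 2 * Real.pi * Real.sinh t * kk γ t := by positivity
        linarith
    have h1 : kap γ |r - s| = kap γ (r - s) := by
      rcases abs_cases (r - s) with h | h
      · rw [h.1]
      · rw [h.1, hev]
    rw [← h1]
    apply hanti (Set.mem_Ici.2 (abs_nonneg _)) (Set.mem_Ici.2 (by linarith))
    rw [abs_le]; constructor <;> linarith
  have hD0 : ∀ s ∈ Set.Ioi (0 : ℝ), 0 ≤ D s := by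
    intro s hs
    simp only [Set.mem_Ioi] at hs
    have h1 := hmono s hs
    have h2 : 0 < Real.sinh s := Real.sinh_pos_iff.2 hs
    simp only [hD]
    apply div_nonneg _ hsr.le
    apply mul_nonneg _ h2.le
    linarith
  -- the one-dimensional side
  have hi1 : IntegrableOn (fun s : ℝ => (kap γ (r - s) : ℂ) * O s) (Set.Ioi 0) := hint.integrableOn
  have hi2' : Integrable (fun s : ℝ => (kap γ (r - -s) : ℂ) * O (-s)) := hint.comp_neg
  have hi2 : IntegrableOn (fun s : ℝ => (kap γ (r + s) : ℂ) * O s) (Set.Ioi 0) := by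
    have : (fun s : ℝ => (kap γ (r + s) : ℂ) * O s) =
        fun s => -((kap γ (r - -s) : ℂ) * O (-s)) := by
      funext s; rw [hodd]; ring_nf
    rw [this]
    exact hi2'.neg.integrableOn
  have hDU : ∀ s ∈ Set.Ioi (0 : ℝ), (ENNReal.ofReal (D s)).toReal • U s =
      ((kap γ (r - s) : ℂ) * O s - (kap γ (r + s) : ℂ) * O s) / (Real.sinh r : ℂ) := by
    intro s hs
    rw [ENNReal.toReal_ofReal (hD0 s hs)]
    simp only [Set.mem_Ioi] at hs
    have h2 : (Real.sinh s : ℂ) ≠ 0 := by exact_mod_cast (Real.sinh_pos_iff.2 hs).ne'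
    have h3 : (Real.sinh r : ℂ) ≠ 0 := by exact_mod_cast hsr.ne'
    simp only [hD, hU, Complex.real_smul]
    push_cast
    push_cast at h2 h3
    field_simp
  have hiDU : IntegrableOn (fun s => (ENNReal.ofReal (D s)).toReal • U s) (Set.Ioi 0) := by
    apply IntegrableOn.congr_fun _ (fun s hs => (hDU s hs).symm) measurableSet_Ioi
    exact (hi1.sub hi2).div_const _
  have hlt : ∀ᵐ s ∂(volume.restrict (Set.Ioi (0 : ℝ))), ENNReal.ofReal (D s) < ∞ :=
    Eventually.of_forall fun s => ENNReal.ofReal_lt_top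
  have hiU : Integrable U (Measure.map (fun w => dd w y) M) := by
    rw [hlaw, integrable_withDensity_iff_integrable_smul' hDm hlt]
    exact hiDU
  have hlt' : ∀ᵐ w ∂mu, ENNReal.ofReal (kk γ (dd x w)) < ∞ :=
    Eventually.of_forall fun s => ENNReal.ofReal_lt_top
  have hkk : ∀ w, (ENNReal.ofReal (kk γ (dd x w))).toReal = kk γ (dd x w) := by
    intro w
    rw [ENNReal.toReal_ofReal]
    rcases lt_or_eq_of_le (Real.arcosh_nonneg (hA.2.2 x w).1) with h | h
    · exact hk0 _ h
    · unfold dd
      rw [← h]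
      unfold kk
      simp
  have hiUM : Integrable (fun w => U (dd w y)) M := (integrable_map_measure hUm.aestronglyMeasurable
    hm2.aemeasurable).1 hiU
  rw [hM, integrable_withDensity_iff_integrable_smul' hm1 hlt'] at hiUM
  simp_rw [hkk] at hiUM
  constructor
  · refine hiUM.congr (Eventually.of_forall fun w => ?_)
    simp only [hU, Complex.real_smul]
  · have h1 : ∫ w : V, (kk γ (dd x w) : ℂ) * (O (dd w y) / (Real.sinh (dd w y) : ℂ)) ∂mu =
        ∫ w, U (dd w y) ∂M := by
      rw [hM, integral_withDensity_eq_integral_toReal_smul hm1 hlt']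
      simp_rw [hkk]
      apply integral_congr_ae
      refine Eventually.of_forall fun w => ?_
      simp only [hU, Complex.real_smul]
    rw [h1, ← integral_map hm2.aemeasurable hUm.aestronglyMeasurable, hlaw,
      integral_withDensity_eq_integral_toReal_smul hDm hlt,
      setIntegral_congr_fun measurableSet_Ioi hDU, integral_div, integral_sub hi1 hi2]
    congr 1
    have h2 : ∫ s : ℝ, (kap γ (r - s) : ℂ) * O s =
        (∫ s in Set.Iic (0 : ℝ), (kap γ (r - s) : ℂ) * O s) +
          ∫ s in Set.Ioi (0 : ℝ), (kap γ (r - s) : ℂ) * O s := by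
      rw [← setIntegral_union (Set.Iic_disjoint_Ioi le_rfl) measurableSet_Ioi hint.integrableOn
        hint.integrableOn, Set.Iic_union_Ioi, setIntegral_univ]
    have h3 : ∫ s in Set.Iic (0 : ℝ), (kap γ (r - s) : ℂ) * O s =
        - ∫ s in Set.Ioi (0 : ℝ), (kap γ (r + s) : ℂ) * O s := by
      have h4 := integral_comp_neg_Ioi (0 : ℝ) (fun s : ℝ => (kap γ (r - s) : ℂ) * O s)
      rw [neg_zero] at h4
      rw [← h4, ← integral_neg]
      apply setIntegral_congr_fun measurableSet_Ioi
      intro s _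
      simp only
      rw [hodd]; ring_nf
    rw [h2, h3]
    ring

end Pool.Agent.T2H99.HY
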