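import Pool.Agent.T2H99.HY.C

set_option autoImplicit false

noncomputable section

open MeasureTheory Filter Topology
open scoped ENNReal

namespace Pool.Agent.T2H99.HY

namespace PC2

open PC

lemma hh_pos {b : V} (hb : ‖b‖ = 1) (w : V) : 0 < hh b w := by
  unfold hh
  have h1 := real_inner_le_norm w b
  rw [hb, mul_one] at h1
  have h2 : ‖w‖ < x0 w := by
    apply lt_of_pow_lt_pow_left₀ 2 (x0_pos w).le
    rw [x0_sq]; linarith
  linarith

lemma hh_cont (b : V) : Continuous (hh b) := by
  unfold hh x0; fun_prop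

lemma dd_comm0 (w : V) : dd 0 w = dd w 0 := by rw [dd_zero, zero_dd]

/-- the substitution `z = cosh s - e^t` -/
lemma subst (s : ℝ) (hs : 0 < s) (P : ℝ → ℝ≥0∞) :
    ∫⁻ z in Set.Ioo (-Real.sinh s) (Real.sinh s), P (Real.log (Real.cosh s - z)) =
      ∫⁻ t in Set.Ioo (-s) s, ENNReal.ofReal (Real.exp t) * P t := by
  set f : ℝ → ℝ := fun t => Real.cosh s - Real.exp t with hf
  have hder : ∀ t ∈ Set.Ioo (-s) s, HasDerivWithinAt f (-Real.exp t) (Set.Ioo (-s) s) t := by
    intro t _
    exact ((Real.hasDerivAt_exp t).const_sub (Real.cosh s)).hasDerivWithinAt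
  have hinj : Set.InjOn f (Set.Ioo (-s) s) := by
    intro a _ b _ hab
    simp only [hf] at hab
    exact Real.exp_injective (by linarith)
  have e1 : Real.cosh s - Real.exp s = -Real.sinh s := by
    rw [Real.cosh_eq, Real.sinh_eq]; ring
  have e2 : Real.cosh s - Real.exp (-s) = Real.sinh s := by
    rw [Real.cosh_eq, Real.sinh_eq]; ring
  have himg : f '' Set.Ioo (-s) s = Set.Ioo (-Real.sinh s) (Real.sinh s) := by
    ext z
    constructor
    · rintro ⟨t, ht, rfl⟩
      have h1 : Real.exp t < Real.exp s := Real.exp_lt_exp.2 ht.2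
      have h2 : Real.exp (-s) < Real.exp t := Real.exp_lt_exp.2 ht.1
      simp only [hf]
      constructor <;> linarith
    · intro hz
      have hp : 0 < Real.cosh s - z := by
        have := Real.sinh_lt_cosh s
        linarith [hz.2]
      refine ⟨Real.log (Real.cosh s - z), ⟨?_, ?_⟩, ?_⟩
      · rw [Real.lt_log_iff_exp_lt hp]; linarith [hz.2]
      · rw [Real.log_lt_iff_lt_exp hp]; linarith [hz.1]
      · simp only [hf]
        rw [Real.exp_log hp]; ring
  have key := lintegral_image_eq_lintegral_abs_deriv_mul measurableSet_Ioo hder hinj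
    (fun z => P (Real.log (Real.cosh s - z)))
  rw [himg] at key
  rw [key]
  apply setLIntegral_congr_fun measurableSet_Ioo
  intro t _
  simp only [hf]
  rw [abs_neg, abs_of_pos (Real.exp_pos t), sub_sub_cancel, Real.log_exp]

/-- `∫_{|t|}^∞ 2π sinh s k(s) ds = κ(t)` -/
lemma tail (hB : S_B1) {γ : ℝ} (hγ : 0 < γ) (t : ℝ) :
    ∫⁻ s in Set.Ioi |t|, ENNReal.ofReal (2 * Real.pi * Real.sinh s) * ENNReal.ofReal (kk γ s) =
      ENNReal.ofReal (kap γ t) := by
  obtain ⟨hkc, hev, hkpos, hlim, hd, hk0, -⟩ := hB γ hγ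
  have hπ := Real.pi_pos
  have ht := abs_nonneg t
  have hder : ∀ s ∈ Set.Ioi |t|, HasDerivAt (kap γ) (-(2 * Real.pi * Real.sinh s * kk γ s)) s :=
    fun s hs => hd s (lt_of_le_of_lt ht hs)
  have hneg : ∀ s ∈ Set.Ioi |t|, -(2 * Real.pi * Real.sinh s * kk γ s) ≤ 0 := by
    intro s hs
    have hs0 : 0 < s := lt_of_le_of_lt ht hs
    have h1 : 0 < Real.sinh s := Real.sinh_pos_iff.2 hs0
    have h2 := hk0 s hs0
    have : 0 ≤ 2 * Real.pi * Real.sinh s * kk γ s := by positivity
    linarith
  have h1 := integral_Ioi_of_hasDerivAt_of_nonpos hkc.continuousWithinAt hder hneg hlim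
  have h2 := integrableOn_Ioi_deriv_of_nonpos hkc.continuousWithinAt hder hneg hlim
  have h3 : kap γ |t| = kap γ t := by
    rcases abs_cases t with h | h
    · rw [h.1]
    · rw [h.1, hev]
  have h4 : ∫ s in Set.Ioi |t|, 2 * Real.pi * Real.sinh s * kk γ s = kap γ t := by
    rw [integral_neg] at h1
    rw [← h3]; linarith
  have h5 : IntegrableOn (fun s => 2 * Real.pi * Real.sinh s * kk γ s) (Set.Ioi |t|) := by
    have := h2.neg
    refine this.congr (Eventually.of_forall fun s => ?_)
    simp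
  rw [← h4, ofReal_integral_eq_lintegral_ofReal h5]
  · apply setLIntegral_congr_fun measurableSet_Ioi
    intro s hs
    simp only
    have hs0 : 0 < s := lt_of_le_of_lt ht hs
    have h1 : 0 < Real.sinh s := Real.sinh_pos_iff.2 hs0
    rw [← ENNReal.ofReal_mul (by positivity)]
  · rw [EventuallyLE, ae_restrict_iff' measurableSet_Ioi]
    refine Eventually.of_forall fun s hs => ?_
    have := hneg s hs
    simp only [Pi.zero_apply]
    linarith

lemma law2 (hZ : S_Z) (hB : S_B1) {γ : ℝ} (hγ : 0 < γ) {b : V} (hb : ‖b‖ = 1) :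
    (mu.withDensity (fun w => ENNReal.ofReal (kk γ (dd 0 w)))).map (fun w => Real.log (hh b w)) =
      (volume : Measure ℝ).withDensity (fun t => ENNReal.ofReal (kap γ t * Real.exp t)) := by
  obtain ⟨hkc, hev, hkpos, hlim, hd, hk0, -⟩ := hB γ hγ
  have hm1 : Measurable fun w : V => ENNReal.ofReal (kk γ (dd 0 w)) := kdd_meas γ 0
  have hm2 : Measurable fun w : V => Real.log (hh b w) := (hh_cont b).measurable.log
  apply Measure.ext_of_lintegral
  intro P hP
  rw [lintegral_map hP hm2]
  have e1 := lintegral_withDensity_eq_lintegral_mul mu hm1 (hP.comp hm2)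
  simp only [Function.comp_apply, Pi.mul_apply] at e1
  rw [e1, lintegral_withDensity_eq_lintegral_mul _ (by
    apply ENNReal.measurable_ofReal.comp
    exact (hkc.mul Real.continuous_exp).measurable) hP]
  simp only [Pi.mul_apply]
  set Q : ℝ × ℝ → ℝ≥0∞ := fun q => ENNReal.ofReal (kk γ q.1) * P (Real.log (Real.cosh q.1 - q.2))
    with hQ
  have hQm : Measurable Q := by
    apply Measurable.mul
    · exact ENNReal.measurable_ofReal.comp ((kk_meas γ).comp measurable_fst)
    · apply hP.comp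
      apply Measurable.log
      fun_prop
  have h1 : ∀ w : V, ENNReal.ofReal (kk γ (dd 0 w)) * P (Real.log (hh b w)) =
      Q (dd w 0, inner ℝ w b) := by
    intro w
    simp only [hQ]
    rw [cosh_dd0, dd_comm0]
    rfl
  simp_rw [h1]
  rw [zonal hZ hb Q hQm]
  have h2 : ∀ s ∈ Set.Ioi (0 : ℝ), ENNReal.ofReal (2 * Real.pi * Real.sinh s) *
      ∫⁻ z in Set.Ioo (-Real.sinh s) (Real.sinh s), Q (s, z) =
      ∫⁻ t : ℝ, (Set.Ioi |t|).indicator (fun s => ENNReal.ofReal (2 * Real.pi * Real.sinh s) *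
        ENNReal.ofReal (kk γ s)) s * (ENNReal.ofReal (Real.exp t) * P t) := by
    intro s hs
    simp only [Set.mem_Ioi] at hs
    simp only [hQ]
    rw [lintegral_const_mul' _ _ ENNReal.ofReal_ne_top, subst s hs P,
      ← lintegral_indicator measurableSet_Ioo, ← mul_assoc, ← lintegral_const_mul']
    · apply lintegral_congr
      intro t
      by_cases ht : |t| < s
      · rw [Set.indicator_of_mem (show t ∈ Set.Ioo (-s) s from abs_lt.1 ht),
          Set.indicator_of_mem (show s ∈ Set.Ioi |t| from ht)]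
      · rw [Set.indicator_of_notMem (show t ∉ Set.Ioo (-s) s from fun h => ht (abs_lt.2 h)),
          Set.indicator_of_notMem (show s ∉ Set.Ioi |t| from ht), mul_zero, zero_mul]
    · exact ENNReal.mul_ne_top ENNReal.ofReal_ne_top ENNReal.ofReal_ne_top
  rw [setLIntegral_congr_fun measurableSet_Ioi h2]
  have hm3 : Measurable (Function.uncurry fun (s t : ℝ) =>
      (Set.Ioi |t|).indicator (fun s => ENNReal.ofReal (2 * Real.pi * Real.sinh s) *
        ENNReal.ofReal (kk γ s)) s * (ENNReal.ofReal (Real.exp t) * P t)) := by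
    apply Measurable.mul
    · have : (fun q : ℝ × ℝ => (Set.Ioi |q.2|).indicator (fun s =>
          ENNReal.ofReal (2 * Real.pi * Real.sinh s) * ENNReal.ofReal (kk γ s)) q.1) =
          {q : ℝ × ℝ | |q.2| < q.1}.indicator (fun q =>
          ENNReal.ofReal (2 * Real.pi * Real.sinh q.1) * ENNReal.ofReal (kk γ q.1)) := by
        funext q
        by_cases hq : |q.2| < q.1
        · rw [Set.indicator_of_mem (show q.1 ∈ Set.Ioi |q.2| from hq),
            Set.indicator_of_mem (show q ∈ {q : ℝ × ℝ | |q.2| < q.1} from hq)]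
        · rw [Set.indicator_of_notMem (show q.1 ∉ Set.Ioi |q.2| from hq),
            Set.indicator_of_notMem (show q ∉ {q : ℝ × ℝ | |q.2| < q.1} from hq)]
      show Measurable (fun q : ℝ × ℝ => (Set.Ioi |q.2|).indicator (fun s =>
          ENNReal.ofReal (2 * Real.pi * Real.sinh s) * ENNReal.ofReal (kk γ s)) q.1)
      rw [this]
      apply Measurable.indicator
      · have m1 : Measurable fun q : ℝ × ℝ => ENNReal.ofReal (2 * Real.pi * Real.sinh q.1) := by
          fun_prop
        have m2 : Measurable fun q : ℝ × ℝ => ENNReal.ofReal (kk γ q.1) :=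
          ENNReal.measurable_ofReal.comp ((kk_meas γ).comp measurable_fst)
        exact m1.mul m2
      · exact measurableSet_lt measurable_snd.abs measurable_fst
    · exact (by fun_prop : Measurable fun q : ℝ × ℝ => ENNReal.ofReal (Real.exp q.2)).mul
        (hP.comp measurable_snd)
  rw [lintegral_lintegral_swap hm3.aemeasurable]
  apply lintegral_congr
  intro t
  have hmk : Measurable fun s : ℝ => ENNReal.ofReal (2 * Real.pi * Real.sinh s) *
      ENNReal.ofReal (kk γ s) := by
    have m1 : Measurable fun s : ℝ => ENNReal.ofReal (2 * Real.pi * Real.sinh s) := by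
      fun_prop
    exact m1.mul (ENNReal.measurable_ofReal.comp (kk_meas γ))
  rw [lintegral_mul_const _ (hmk.indicator measurableSet_Ioi),
    setLIntegral_indicator measurableSet_Ioi]
  have h3 : Set.Ioi |t| ∩ Set.Ioi 0 = Set.Ioi |t| := by
    apply Set.inter_eq_left.2
    exact Set.Ioi_subset_Ioi (abs_nonneg t)
  rw [h3, tail hB hγ t, ← mul_assoc, ← ENNReal.ofReal_mul (hkpos t).le]

lemma cpow_eq {b : V} (hb : ‖b‖ = 1) (w : V) (μ : ℂ) :
    (hh b w : ℂ) ^ μ = Complex.exp (μ * (Real.log (hh b w) : ℂ)) := by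
  have h := hh_pos hb w
  rw [Complex.cpow_def_of_ne_zero (by exact_mod_cast h.ne'), Complex.ofReal_log h.le, mul_comm]

lemma kk_dd_nonneg (hA : S_A) (hB : S_B1) {γ : ℝ} (hγ : 0 < γ) (x w : V) : 0 ≤ kk γ (dd x w) := by
  rcases lt_or_eq_of_le (Real.arcosh_nonneg (hA.2.2 x w).1) with h | h
  · exact (hB γ hγ).2.2.2.2.2.1 _ h
  · unfold dd
    rw [← h]
    unfold kk
    simp

/-- the case `x = 0` -/
lemma case0 (hA : S_A) (hZ : S_Z) (hB : S_B1) {γ : ℝ} (hγ : 0 < γ) {b : V} (hb : ‖b‖ = 1)
    {ν : ℂ} (hν : |ν.re| < 2 * γ) :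
    Integrable (fun w : V => (kk γ (dd 0 w) : ℂ) * (hh b w : ℂ) ^ (ν - 1)) mu ∧
    ∫ w : V, (kk γ (dd 0 w) : ℂ) * (hh b w : ℂ) ^ (ν - 1) ∂mu =
      ∫ r : ℝ, (kap γ r : ℂ) * Complex.exp (-ν * r) := by
  obtain ⟨hkc, hev, hkpos, hlim, hd, hk0, hI⟩ := hB γ hγ
  have hlaw := law2 hZ hB hγ hb
  set M : Measure V := mu.withDensity (fun w => ENNReal.ofReal (kk γ (dd 0 w))) with hM
  have hm1 : Measurable fun w : V => ENNReal.ofReal (kk γ (dd 0 w)) := kdd_meas γ 0
  have hm2 : Measurable fun w : V => Real.log (hh b w) := (hh_cont b).measurable.log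
  have hDm : Measurable fun t : ℝ => ENNReal.ofReal (kap γ t * Real.exp t) :=
    ENNReal.measurable_ofReal.comp (hkc.mul Real.continuous_exp).measurable
  set G : ℝ → ℂ := fun t => Complex.exp ((ν - 1) * t) with hG
  have hGm : Measurable G := by
    apply Continuous.measurable; simp only [hG]; fun_prop
  have hDG : ∀ t : ℝ, (ENNReal.ofReal (kap γ t * Real.exp t)).toReal • G t =
      (kap γ t : ℂ) * Complex.exp (ν * t) := by
    intro t
    rw [ENNReal.toReal_ofReal (mul_nonneg (hkpos t).le (Real.exp_pos t).le)]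
    simp only [hG, Complex.real_smul]
    push_cast
    rw [mul_assoc, ← Complex.exp_add]
    congr 2; ring
  have hint : Integrable fun t : ℝ => (kap γ t : ℂ) * Complex.exp (ν * t) := by
    have h1 := hI ν.re hν
    refine h1.mono' ?_ ?_
    · exact ((Complex.continuous_ofReal.comp hkc).mul (by fun_prop)).aestronglyMeasurable
    · refine Eventually.of_forall fun t => ?_
      rw [norm_mul, Complex.norm_real, Real.norm_eq_abs, abs_of_pos (hkpos t), Complex.norm_exp]
      simp
  have hlt : ∀ᵐ t : ℝ, ENNReal.ofReal (kap γ t * Real.exp t) < ∞ :=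
    Eventually.of_forall fun s => ENNReal.ofReal_lt_top
  have hiU : Integrable G (Measure.map (fun w => Real.log (hh b w)) M) := by
    rw [hlaw, integrable_withDensity_iff_integrable_smul' hDm hlt]
    simp_rw [hDG]
    exact hint
  have hlt' : ∀ᵐ w ∂mu, ENNReal.ofReal (kk γ (dd 0 w)) < ∞ :=
    Eventually.of_forall fun s => ENNReal.ofReal_lt_top
  have hkk : ∀ w, (ENNReal.ofReal (kk γ (dd 0 w))).toReal = kk γ (dd 0 w) := fun w =>
    ENNReal.toReal_ofReal (kk_dd_nonneg hA hB hγ 0 w)
  have hiUM : Integrable (fun w => G (Real.log (hh b w))) M := (integrable_map_measure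
    hGm.aestronglyMeasurable hm2.aemeasurable).1 hiU
  rw [hM, integrable_withDensity_iff_integrable_smul' hm1 hlt'] at hiUM
  simp_rw [hkk] at hiUM
  have hrw : ∀ w : V, (kk γ (dd 0 w) : ℂ) * (hh b w : ℂ) ^ (ν - 1) =
      kk γ (dd 0 w) • G (Real.log (hh b w)) := by
    intro w
    rw [cpow_eq hb, Complex.real_smul]
  simp_rw [hrw]
  refine ⟨hiUM, ?_⟩
  have h1 : ∫ w : V, kk γ (dd 0 w) • G (Real.log (hh b w)) ∂mu = ∫ w, G (Real.log (hh b w)) ∂M := by
    rw [hM, integral_withDensity_eq_integral_toReal_smul hm1 hlt']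
    simp_rw [hkk]
  rw [h1, ← integral_map hm2.aemeasurable hGm.aestronglyMeasurable, hlaw,
    integral_withDensity_eq_integral_toReal_smul hDm hlt]
  simp_rw [hDG]
  have h2 := integral_neg_eq_self (fun t : ℝ => (kap γ t : ℂ) * Complex.exp (ν * t)) volume
  rw [← h2]
  apply integral_congr_ae
  refine Eventually.of_forall fun t => ?_
  simp only
  rw [hev]
  push_cast
  ring_nf

end PC2

open PC PC2 in
theorem t_C2 (hA : S_A) (hZ : S_Z) (hB : S_B1) : S_C2 := by
  intro γ hγ b hb ν hν x
  obtain ⟨g, hg, hgg, hg0, hgx⟩ := hA.2.1 x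
  obtain ⟨hmp, hlift, hch⟩ := hA.1 g hg
  have hl0 : lift 0 = (1, 0) := by unfold lift x0; simp
  have hge : g (1, 0) = lift x := by rw [← hl0, ← hlift, hg0]
  set n : ℝ × V := (1, b) with hn
  have hhn : ∀ w, hh b w = mk (lift w) n := by
    intro w; unfold hh mk lift; simp [hn]
  have hnn : mk n n = 0 := by
    unfold mk; simp only [hn]; rw [real_inner_self_eq_norm_sq, hb]; norm_num
  set c : ℝ := (g n).1 with hc
  have hcx : c = hh b x := by
    have h1 : mk (1, 0) (g n) = c := by unfold mk; simp [hc]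
    rw [← h1, hhn, ← hge, ← hg.form (1, 0) (g n), hgg]
  have hc0 : 0 < c := by rw [hcx]; exact hh_pos hb x
  have hnorm : ‖(g n).2‖ = c := by
    have h1 : mk (g n) (g n) = 0 := by rw [hg.form, hnn]
    unfold mk at h1
    rw [real_inner_self_eq_norm_sq] at h1
    have h2 : ‖(g n).2‖ ^ 2 = c ^ 2 := by rw [hc]; linarith
    exact (pow_left_inj₀ (norm_nonneg _) hc0.le two_ne_zero).1 h2
  set b' : V := c⁻¹ • (g n).2 with hb'
  have hb'n : ‖b'‖ = 1 := by
    rw [hb', norm_smul, hnorm, norm_inv, Real.norm_eq_abs, abs_of_pos hc0, inv_mul_cancel₀ hc0.ne']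
  have hhact : ∀ w, hh b (act g w) = c * hh b' w := by
    intro w
    rw [hhn, hlift, ← hg.form (g (lift w)) n, hgg]
    unfold mk hh lift
    rw [hb', inner_smul_right, ← hc]
    field_simp
  have hdd : ∀ w, dd x (act g w) = dd 0 w := by
    intro w
    unfold dd
    rw [← hg0, hch]
  obtain ⟨hi0, he0⟩ := case0 hA hZ hB hγ hb'n hν
  set F : V → ℂ := fun w => (kk γ (dd x w) : ℂ) * (hh b w : ℂ) ^ (ν - 1) with hF
  have hFm : Measurable F := by
    apply Measurable.mul
    · exact Complex.measurable_ofReal.comp ((kk_meas γ).comp (ddl_meas x))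
    · have : (fun w => (hh b w : ℂ) ^ (ν - 1)) =
          fun w => Complex.exp ((ν - 1) * (Real.log (hh b w) : ℂ)) := by
        funext w; exact cpow_eq hb w _
      rw [this]
      apply Complex.measurable_exp.comp
      apply Measurable.const_mul
      exact Complex.measurable_ofReal.comp (hh_cont b).measurable.log
  have hFact : ∀ w, F (act g w) = (c : ℂ) ^ (ν - 1) *
      ((kk γ (dd 0 w) : ℂ) * (hh b' w : ℂ) ^ (ν - 1)) := by
    intro w
    simp only [hF]
    rw [hdd, hhact, Complex.ofReal_mul, Complex.mul_cpow_ofReal_nonneg hc0.le (hh_pos hb'n w).le]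
    ring
  have hactm : Measurable (act g) := hmp.measurable
  constructor
  · have h1 : Integrable (F ∘ act g) mu := by
      have : F ∘ act g = fun w => (c : ℂ) ^ (ν - 1) *
          ((kk γ (dd 0 w) : ℂ) * (hh b' w : ℂ) ^ (ν - 1)) := funext hFact
      rw [this]
      exact hi0.const_mul _
    have h2 := (integrable_map_measure (μ := mu) (f := act g) (g := F)
      hFm.aestronglyMeasurable hactm.aemeasurable).2 h1
    rwa [hmp.map_eq] at h2
  · have h1 : ∫ w, F w ∂mu = ∫ w, F (act g w) ∂mu := by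
      conv_lhs => rw [← hmp.map_eq]
      rw [integral_map hactm.aemeasurable hFm.aestronglyMeasurable]
    show ∫ w, F w ∂mu = _
    rw [h1]
    simp_rw [hFact]
    rw [integral_const_mul, he0, hcx, mul_comm]

end Pool.Agent.T2H99.HY
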