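import Pool.Agent.T2H99.HY.C2

set_option autoImplicit false

noncomputable section

open MeasureTheory Filter Topology
open scoped ENNReal

namespace Pool.Agent.T2H99.HY

namespace PD

open PC PC2

lemma sfin : SigmaFinite mu := by unfold mu; infer_instance

attribute [local instance] sfin

/-- `C_ν = ∫ κ(r) e^{-νr} dr` -/
def CC (γ ν : ℝ) : ℝ := ∫ r : ℝ, kap γ r * Real.exp (-ν * r)

lemma CC_nonneg (hB : S_B1) {γ : ℝ} (hγ : 0 < γ) (ν : ℝ) : 0 ≤ CC γ ν := by
  unfold CC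
  apply integral_nonneg
  intro r
  exact mul_nonneg ((hB γ hγ).2.2.1 r).le (Real.exp_pos _).le

lemma CC_neg (hB : S_B1) {γ : ℝ} (hγ : 0 < γ) (ν : ℝ) : CC γ (-ν) = CC γ ν := by
  unfold CC
  rw [← integral_neg_eq_self (fun r : ℝ => kap γ r * Real.exp (-ν * r)) volume]
  apply integral_congr_ae
  refine Eventually.of_forall fun r => ?_
  simp only
  rw [(hB γ hγ).2.1]
  ring_nf

lemma eig (hA : S_A) (hB : S_B1) (hC : S_C2) {γ : ℝ} (hγ : 0 < γ) {b : V} (hb : ‖b‖ = 1) {ν : ℝ}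
    (hν : |ν| < 2 * γ) (x : V) :
    ∫⁻ w, ENNReal.ofReal (kk γ (dd x w)) * ENNReal.ofReal (hh b w ^ (ν - 1)) ∂mu =
      ENNReal.ofReal (CC γ ν) * ENNReal.ofReal (hh b x ^ (ν - 1)) := by
  obtain ⟨hi, he⟩ := hC γ hγ b hb (ν : ℂ) (by simpa using hν) x
  have hk := kk_dd_nonneg hA hB hγ x
  have h1 : ∀ w, (kk γ (dd x w) : ℂ) * (hh b w : ℂ) ^ ((ν : ℂ) - 1) =
      ((kk γ (dd x w) * hh b w ^ (ν - 1) : ℝ) : ℂ) := by
    intro w
    rw [Complex.ofReal_mul, Complex.ofReal_cpow (hh_pos hb w).le]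
    push_cast; rfl
  simp_rw [h1] at hi he
  have hi' : Integrable (fun w => kk γ (dd x w) * hh b w ^ (ν - 1)) mu := by
    have := hi.re
    simpa using this
  have he0 : ∫ w, ((kk γ (dd x w) * hh b w ^ (ν - 1) : ℝ) : ℂ) ∂mu =
      ((∫ w, kk γ (dd x w) * hh b w ^ (ν - 1) ∂mu : ℝ) : ℂ) := integral_ofReal
  rw [he0] at he
  have h2 : ∫ r : ℝ, (kap γ r : ℂ) * Complex.exp (-(ν : ℂ) * r) = ((CC γ ν : ℝ) : ℂ) := by
    unfold CC
    have e : ((∫ r : ℝ, kap γ r * Real.exp (-ν * r) : ℝ) : ℂ) =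
        ∫ r : ℝ, ((kap γ r * Real.exp (-ν * r) : ℝ) : ℂ) := integral_ofReal.symm
    rw [e]
    apply integral_congr_ae
    refine Eventually.of_forall fun r => ?_
    simp only
    push_cast; rfl
  have h3 : (hh b x : ℂ) ^ ((ν : ℂ) - 1) = ((hh b x ^ (ν - 1) : ℝ) : ℂ) := by
    rw [Complex.ofReal_cpow (hh_pos hb x).le]; push_cast; rfl
  rw [h2, h3, ← Complex.ofReal_mul] at he
  have he' : ∫ w, kk γ (dd x w) * hh b w ^ (ν - 1) ∂mu = CC γ ν * hh b x ^ (ν - 1) := by
    exact_mod_cast he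
  rw [← ENNReal.ofReal_mul (CC_nonneg hB hγ ν), ← he', ofReal_integral_eq_lintegral_ofReal hi']
  · apply lintegral_congr
    intro w
    rw [← ENNReal.ofReal_mul (hk w)]
  · exact Eventually.of_forall fun w => mul_nonneg (hk w) (Real.rpow_nonneg (hh_pos hb w).le _)

lemma kk2_meas (γ : ℝ) : Measurable fun q : V × V => kk γ (dd q.1 q.2) := by
  have h : Continuous fun q : V × V => ch q.1 q.2 := by
    unfold ch x0; fun_prop
  have h2 : Measurable fun q : V × V => Real.arcosh (ch q.1 q.2) := arcosh_meas.comp h.measurable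
  exact (kk_meas γ).comp h2

/-- the Schur test -/
lemma schur (hA : S_A) (hB : S_B1) (hC : S_C2) {p : ℝ} (hp : 2 < p) (F : V → ℝ≥0∞)
    (hF : AEMeasurable F mu) :
    ∫⁻ x, (∫⁻ w, ENNReal.ofReal (kk (1 - 2 / p) (dd x w)) * F w ∂mu) ^ p ∂mu ≤
      ENNReal.ofReal (CC (1 - 2 / p) (1 - 2 / p)) ^ p * ∫⁻ w, F w ^ p ∂mu := by
  set γ := 1 - 2 / p with hγdef
  have hp0 : 0 < p := by linarith
  have hγ : 0 < γ := by
    have : 2 / p < 1 := by rw [div_lt_one hp0]; exact hp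
    rw [hγdef]; linarith
  have hγ1 : γ < 1 := by
    have : 0 < 2 / p := by positivity
    rw [hγdef]; linarith
  set q := p / (p - 1) with hq
  have hpq : q.HolderConjugate p := by
    have : p.HolderConjugate q := by
      rw [hq]; exact Real.HolderConjugate.conjExponent (by linarith)
    exact this.symm
  obtain ⟨b, hb⟩ : ∃ b : V, ‖b‖ = 1 := ⟨EuclideanSpace.single 0 1, by simp⟩
  set C := ENNReal.ofReal (CC γ γ) with hCd
  set K : V → V → ℝ≥0∞ := fun x w => ENNReal.ofReal (kk γ (dd x w)) with hK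
  set a : ℝ := -((1 - γ ^ 2) / 2) with ha
  set h : V → ℝ≥0∞ := fun w => ENNReal.ofReal (hh b w ^ a) with hh'
  have hpne : p ≠ 0 := hp0.ne'
  have hp1 : p - 1 ≠ 0 := by linarith
  have haq : a * q = γ - 1 := by
    rw [ha, hq, hγdef]; field_simp; ring
  have hap : a * p = -γ - 1 := by
    rw [ha, hγdef]; field_simp; ring
  have hhq : ∀ w, h w ^ q = ENNReal.ofReal (hh b w ^ (γ - 1)) := by
    intro w
    simp only [hh']
    rw [ENNReal.ofReal_rpow_of_pos (Real.rpow_pos_of_pos (hh_pos hb w) _),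
      ← Real.rpow_mul (hh_pos hb w).le, haq]
  have hhp : ∀ w, h w ^ p = ENNReal.ofReal (hh b w ^ (-γ - 1)) := by
    intro w
    simp only [hh']
    rw [ENNReal.ofReal_rpow_of_pos (Real.rpow_pos_of_pos (hh_pos hb w) _),
      ← Real.rpow_mul (hh_pos hb w).le, hap]
  have hh0 : ∀ w, h w ≠ 0 := by
    intro w
    simp only [hh']
    rw [Ne, ENNReal.ofReal_eq_zero, not_le]
    exact Real.rpow_pos_of_pos (hh_pos hb w) _
  have hht : ∀ w, h w ≠ ∞ := fun w => ENNReal.ofReal_ne_top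
  have e1 : ∀ x, ∫⁻ w, K x w * h w ^ q ∂mu = C * h x ^ q := by
    intro x
    simp_rw [hhq]
    exact eig hA hB hC hγ hb (by rw [abs_of_pos hγ]; linarith) x
  have e2 : ∀ x, ∫⁻ w, K x w * h w ^ p ∂mu = C * h x ^ p := by
    intro x
    simp_rw [hhp]
    have := eig hA hB hC hγ hb (ν := -γ) (by rw [abs_neg, abs_of_pos hγ]; linarith) x
    rw [CC_neg hB hγ] at this
    exact this
  have hhm : Measurable h := by
    apply ENNReal.measurable_ofReal.comp
    exact (hh_cont b).measurable.pow_const _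
  have hKm : Measurable (Function.uncurry K) := ENNReal.measurable_ofReal.comp (kk2_meas γ)
  have hKx : ∀ x, Measurable (K x) := fun x => kdd_meas γ x
  have hq0 : 0 < q := hpq.pos
  -- pointwise Hölder
  have hold : ∀ x, (∫⁻ w, K x w * F w ∂mu) ^ p ≤
      C ^ (p - 1) * (h x ^ p * ∫⁻ w, K x w * (F w ^ p * (h w ^ p)⁻¹) ∂mu) := by
    intro x
    have h1 : ∀ w, K x w * F w = (fun w => K x w ^ (1 / q) * h w) w *
        (fun w => K x w ^ (1 / p) * (F w * (h w)⁻¹)) w := by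
      intro w
      simp only
      have h2 : K x w ^ (1 / q) * K x w ^ (1 / p) = K x w := by
        rw [← ENNReal.rpow_add_of_nonneg _ _ (by positivity) (by positivity)]
        have : 1 / q + 1 / p = 1 := by
          have := hpq.inv_add_inv_eq_one
          rw [one_div, one_div]; exact this
        rw [this, ENNReal.rpow_one]
      calc K x w * F w = (K x w ^ (1 / q) * K x w ^ (1 / p)) * F w * (h w * (h w)⁻¹) := by
            rw [h2, ENNReal.mul_inv_cancel (hh0 w) (hht w), mul_one]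
        _ = _ := by ring
    have h3 := ENNReal.lintegral_mul_le_Lp_mul_Lq mu hpq
      (f := fun w => K x w ^ (1 / q) * h w) (g := fun w => K x w ^ (1 / p) * (F w * (h w)⁻¹))
      (((hKx x).pow_const _).mul hhm).aemeasurable
      (((hKx x).pow_const _).aemeasurable.mul (hF.mul hhm.inv.aemeasurable))
    have h4 : ∫⁻ w, K x w * F w ∂mu =
        ∫⁻ w, ((fun w => K x w ^ (1 / q) * h w) * fun w => K x w ^ (1 / p) * (F w * (h w)⁻¹)) w ∂mu := by
      apply lintegral_congr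
      intro w
      rw [h1]; rfl
    rw [h4]
    refine (ENNReal.rpow_le_rpow h3 hp0.le).trans ?_
    have h5 : ∀ w, (K x w ^ (1 / q) * h w) ^ q = K x w * h w ^ q := by
      intro w
      rw [ENNReal.mul_rpow_of_nonneg _ _ hq0.le, ← ENNReal.rpow_mul, one_div_mul_cancel hq0.ne',
        ENNReal.rpow_one]
    have h6 : ∀ w, (K x w ^ (1 / p) * (F w * (h w)⁻¹)) ^ p = K x w * (F w ^ p * (h w ^ p)⁻¹) := by
      intro w
      rw [ENNReal.mul_rpow_of_nonneg _ _ hp0.le, ← ENNReal.rpow_mul, one_div_mul_cancel hpne,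
        ENNReal.rpow_one, ENNReal.mul_rpow_of_nonneg _ _ hp0.le, ENNReal.inv_rpow]
    simp_rw [h5, h6]
    rw [e1, ENNReal.mul_rpow_of_nonneg _ _ hp0.le, ← ENNReal.rpow_mul, ← ENNReal.rpow_mul,
      one_div_mul_cancel hpne, ENNReal.rpow_one]
    have h7 : 1 / q * p = p - 1 := by
      rw [hq]; field_simp
    rw [h7, ENNReal.mul_rpow_of_nonneg _ _ (by linarith), ← ENNReal.rpow_mul]
    have h8 : q * (p - 1) = p := by rw [hq]; field_simp
    rw [h8, mul_assoc]
  calc ∫⁻ x, (∫⁻ w, K x w * F w ∂mu) ^ p ∂mu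
      ≤ ∫⁻ x, C ^ (p - 1) * (h x ^ p * ∫⁻ w, K x w * (F w ^ p * (h w ^ p)⁻¹) ∂mu) ∂mu :=
        lintegral_mono hold
    _ = C ^ (p - 1) * ∫⁻ x, ∫⁻ w, h x ^ p * (K x w * (F w ^ p * (h w ^ p)⁻¹)) ∂mu ∂mu := by
        rw [lintegral_const_mul' _ _ (ENNReal.rpow_ne_top_of_nonneg (by linarith)
          ENNReal.ofReal_ne_top)]
        congr 1
        apply lintegral_congr
        intro x
        rw [lintegral_const_mul' _ _ (ENNReal.rpow_ne_top_of_nonneg hp0.le (hht x))]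
    _ = C ^ (p - 1) * ∫⁻ w, ∫⁻ x, h x ^ p * (K x w * (F w ^ p * (h w ^ p)⁻¹)) ∂mu ∂mu := by
        congr 1
        apply lintegral_lintegral_swap
        have m1 : AEMeasurable (fun q : V × V => h q.1 ^ p) (mu.prod mu) :=
          ((hhm.comp measurable_fst).pow_const _).aemeasurable
        have m2 : AEMeasurable (fun q : V × V => K q.1 q.2) (mu.prod mu) := hKm.aemeasurable
        have m3 : AEMeasurable (fun q : V × V => F q.2 ^ p) (mu.prod mu) :=
          (hF.comp_quasiMeasurePreserving Measure.quasiMeasurePreserving_snd).pow_const _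
        have m4 : AEMeasurable (fun q : V × V => (h q.2 ^ p)⁻¹) (mu.prod mu) :=
          ((hhm.comp measurable_snd).pow_const _).inv.aemeasurable
        exact m1.mul (m2.mul (m3.mul m4))
    _ = C ^ (p - 1) * ∫⁻ w, C * F w ^ p ∂mu := by
        congr 1
        apply lintegral_congr
        intro w
        have h1 : ∀ x, h x ^ p * (K x w * (F w ^ p * (h w ^ p)⁻¹)) =
            (K w x * h x ^ p) * (F w ^ p * (h w ^ p)⁻¹) := by
          intro x
          have : K x w = K w x := by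
            simp only [hK]
            unfold dd
            rw [(hA.2.2 x w).2.1]
          rw [this]; ring
        simp_rw [h1]
        have m : Measurable fun x => K w x * h x ^ p := (hKx w).mul (hhm.pow_const _)
        rw [lintegral_mul_const _ m, e2]
        have h2 : h w ^ p ≠ 0 := by
          rw [Ne, ENNReal.rpow_eq_zero_iff_of_pos hp0]; exact hh0 w
        have h3 : h w ^ p ≠ ∞ := ENNReal.rpow_ne_top_of_nonneg hp0.le (hht w)
        calc C * h w ^ p * (F w ^ p * (h w ^ p)⁻¹) = C * F w ^ p * (h w ^ p * (h w ^ p)⁻¹) := by ring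
          _ = C * F w ^ p := by rw [ENNReal.mul_inv_cancel h2 h3, mul_one]
    _ = C ^ p * ∫⁻ w, F w ^ p ∂mu := by
        rw [lintegral_const_mul' _ _ ENNReal.ofReal_ne_top, ← mul_assoc]
        have e : C ^ (p - 1) * C = C ^ p := by
          have e1 : C ^ (p - 1) * C ^ (1 : ℝ) = C ^ (p - 1 + 1) :=
            (ENNReal.rpow_add_of_nonneg (p - 1) 1 (by linarith) (by norm_num)).symm
          rw [ENNReal.rpow_one, sub_add_cancel] at e1
          exact e1
        rw [e]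

/-- the integral operator on functions -/
def op (γ : ℝ) (f : V → ℂ) (x : V) : ℂ := ∫ w : V, (kk γ (dd x w) : ℂ) * f w ∂mu

lemma op_meas (γ : ℝ) {f : V → ℂ} (hf : AEStronglyMeasurable f mu) :
    AEStronglyMeasurable (op γ f) mu := by
  unfold op
  apply AEStronglyMeasurable.integral_prod_right' (f := fun q : V × V => (kk γ (dd q.1 q.2) : ℂ) * f q.2)
  apply AEStronglyMeasurable.mul
  · exact (Complex.measurable_ofReal.comp (kk2_meas γ)).aestronglyMeasurable
  · exact hf.comp_snd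

lemma enorm_kk (hA : S_A) (hB : S_B1) {γ : ℝ} (hγ : 0 < γ) (f : V → ℂ) (x w : V) :
    ‖(kk γ (dd x w) : ℂ) * f w‖ₑ = ENNReal.ofReal (kk γ (dd x w)) * ‖f w‖ₑ := by
  rw [enorm_mul]
  congr 1
  rw [← ofReal_norm, Complex.norm_real, Real.norm_eq_abs, abs_of_nonneg (kk_dd_nonneg hA hB hγ x w)]

lemma main (hA : S_A) (hB : S_B1) (hC : S_C2) {p : ℝ} (hp : 2 < p) {f : V → ℂ}
    (hf : MemLp f (ENNReal.ofReal p) mu) :
    (∀ᵐ x ∂mu, Integrable (fun w : V => (kk (1 - 2 / p) (dd x w) : ℂ) * f w) mu) ∧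
    MemLp (op (1 - 2 / p) f) (ENNReal.ofReal p) mu ∧
    eLpNorm (op (1 - 2 / p) f) (ENNReal.ofReal p) mu ≤
      ENNReal.ofReal (CC (1 - 2 / p) (1 - 2 / p)) * eLpNorm f (ENNReal.ofReal p) mu := by
  set γ := 1 - 2 / p with hγdef
  have hp0 : 0 < p := by linarith
  have hγ : 0 < γ := by
    have : 2 / p < 1 := by rw [div_lt_one hp0]; exact hp
    rw [hγdef]; linarith
  have hS := schur hA hB hC hp (fun w => ‖f w‖ₑ) hf.1.enorm
  rw [← hγdef] at hS
  set C := ENNReal.ofReal (CC γ γ) with hCd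
  have hpe : ENNReal.ofReal p ≠ 0 := by
    rw [Ne, ENNReal.ofReal_eq_zero]; linarith
  have hpt : ENNReal.ofReal p ≠ ∞ := ENNReal.ofReal_ne_top
  have hnorm : ∀ g : V → ℂ, eLpNorm g (ENNReal.ofReal p) mu = (∫⁻ x, ‖g x‖ₑ ^ p ∂mu) ^ (1 / p) := by
    intro g
    rw [eLpNorm_eq_lintegral_rpow_enorm_toReal hpe hpt, ENNReal.toReal_ofReal hp0.le]
  have hffin : ∫⁻ x, ‖f x‖ₑ ^ p ∂mu < ∞ := by
    have h := hf.2
    rw [hnorm] at h
    exact (ENNReal.rpow_lt_top_iff_of_pos (by positivity)).1 h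
  have hfin : ∫⁻ x, (∫⁻ w, ENNReal.ofReal (kk γ (dd x w)) * ‖f w‖ₑ ∂mu) ^ p ∂mu < ∞ := by
    refine lt_of_le_of_lt hS (ENNReal.mul_lt_top ?_ hffin)
    exact ENNReal.rpow_lt_top_of_nonneg hp0.le ENNReal.ofReal_ne_top
  have hKm : AEMeasurable (fun x => ∫⁻ w, ENNReal.ofReal (kk γ (dd x w)) * ‖f w‖ₑ ∂mu) mu := by
    apply AEMeasurable.lintegral_prod_right' (f := fun q : V × V => ENNReal.ofReal (kk γ (dd q.1 q.2)) * ‖f q.2‖ₑ)
    have m1 : AEMeasurable (fun q : V × V => ENNReal.ofReal (kk γ (dd q.1 q.2))) (mu.prod mu) :=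
      (ENNReal.measurable_ofReal.comp (kk2_meas γ)).aemeasurable
    have m2 : AEMeasurable (fun q : V × V => ‖f q.2‖ₑ) (mu.prod mu) := (hf.1.comp_snd).enorm
    exact m1.mul m2
  have hae : ∀ᵐ x ∂mu, ∫⁻ w, ENNReal.ofReal (kk γ (dd x w)) * ‖f w‖ₑ ∂mu < ∞ := by
    have h := ae_lt_top' (hKm.pow_const p) hfin.ne
    filter_upwards [h] with x hx
    exact (ENNReal.rpow_lt_top_iff_of_pos hp0).1 hx
  have hle : ∫⁻ x, ‖op γ f x‖ₑ ^ p ∂mu ≤ C ^ p * ∫⁻ w, ‖f w‖ₑ ^ p ∂mu := by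
    refine le_trans (lintegral_mono fun x => ?_) hS
    apply ENNReal.rpow_le_rpow _ hp0.le
    unfold op
    refine (enorm_integral_le_lintegral_enorm _).trans (le_of_eq ?_)
    apply lintegral_congr
    intro w
    rw [enorm_kk hA hB hγ]
  have hop : eLpNorm (op γ f) (ENNReal.ofReal p) mu ≤ C * eLpNorm f (ENNReal.ofReal p) mu := by
    rw [hnorm, hnorm]
    calc (∫⁻ x, ‖op γ f x‖ₑ ^ p ∂mu) ^ (1 / p)
        ≤ (C ^ p * ∫⁻ w, ‖f w‖ₑ ^ p ∂mu) ^ (1 / p) := ENNReal.rpow_le_rpow hle (by positivity)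
      _ = C * (∫⁻ x, ‖f x‖ₑ ^ p ∂mu) ^ (1 / p) := by
          rw [ENNReal.mul_rpow_of_nonneg _ _ (by positivity), ← ENNReal.rpow_mul,
            mul_one_div_cancel hp0.ne', ENNReal.rpow_one]
  refine ⟨?_, ⟨op_meas γ hf.1, lt_of_le_of_lt hop (ENNReal.mul_lt_top ENNReal.ofReal_lt_top hf.2)⟩, hop⟩
  filter_upwards [hae] with x hx
  refine ⟨?_, ?_⟩
  · apply AEStronglyMeasurable.mul _ hf.1
    exact (Complex.measurable_ofReal.comp ((kk_meas γ).comp (ddl_meas x))).aestronglyMeasurable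
  · rw [hasFiniteIntegral_iff_enorm]
    refine lt_of_le_of_lt (le_of_eq ?_) hx
    apply lintegral_congr
    intro w
    rw [enorm_kk hA hB hγ]

end PD

open PD in
theorem t_D (hA : S_A) (hB1 : S_B1) (hC : S_C2) : S_D := by
  intro p hp _
  set γ := 1 - 2 / p with hγdef
  have hm : ∀ f : Lp ℂ (ENNReal.ofReal p) mu, _ := fun f => main hA hB1 hC hp (Lp.memLp f)
  let T : Lp ℂ (ENNReal.ofReal p) mu →ₗ[ℂ] Lp ℂ (ENNReal.ofReal p) mu :=
    { toFun := fun f => (hm f).2.1.toLp (op γ f)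
      map_add' := by
        intro f g
        apply Lp.ext
        filter_upwards [(hm (f + g)).2.1.coeFn_toLp, (hm f).2.1.coeFn_toLp, (hm g).2.1.coeFn_toLp,
          Lp.coeFn_add ((hm f).2.1.toLp (op γ f)) ((hm g).2.1.toLp (op γ g)), (hm f).1, (hm g).1]
          with x h1 h2 h3 h4 h5 h6
        rw [h1, h4, Pi.add_apply, h2, h3]
        unfold op
        rw [← integral_add h5 h6]
        apply integral_congr_ae
        filter_upwards [Lp.coeFn_add f g] with w hw
        rw [hw, Pi.add_apply, mul_add]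
      map_smul' := by
        intro c f
        apply Lp.ext
        filter_upwards [(hm (c • f)).2.1.coeFn_toLp, (hm f).2.1.coeFn_toLp,
          Lp.coeFn_smul c ((hm f).2.1.toLp (op γ f))] with x h1 h2 h3
        rw [h1, RingHom.id_apply, h3, Pi.smul_apply, h2]
        unfold op
        rw [smul_eq_mul, ← integral_const_mul]
        apply integral_congr_ae
        filter_upwards [Lp.coeFn_smul c f] with w hw
        rw [hw, Pi.smul_apply, smul_eq_mul]
        ring }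
  have hbound : ∀ f, ‖T f‖ ≤ CC γ γ * ‖f‖ := by
    intro f
    have hγ : 0 < γ := by
      have : 2 / p < 1 := by rw [div_lt_one (by linarith)]; exact hp
      rw [hγdef]; linarith
    have h1 : ‖T f‖ = (eLpNorm (op γ f) (ENNReal.ofReal p) mu).toReal := by
      show ‖(hm f).2.1.toLp (op γ f)‖ = _
      rw [Lp.norm_toLp]
    rw [h1, Lp.norm_def, ← ENNReal.toReal_ofReal (CC_nonneg hB1 hγ γ), ← ENNReal.toReal_mul]
    apply ENNReal.toReal_mono
    · exact ENNReal.mul_ne_top ENNReal.ofReal_ne_top (Lp.eLpNorm_ne_top f)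
    · exact (hm f).2.2
  refine ⟨T.mkContinuous _ hbound, fun f => ⟨(hm f).1, ?_⟩⟩
  exact (hm f).2.1.coeFn_toLp

end Pool.Agent.T2H99.HY
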