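import Pool.Agent.T2H99.HY.D

set_option autoImplicit false

noncomputable section

open MeasureTheory Filter Topology
open scoped ENNReal

namespace Pool.Agent.T2H99.HY

namespace PD2

open PC PC2 PD

attribute [local instance] sfin

lemma norm_cpow {b w : V} (hb : ‖b‖ = 1) (l : ℝ) :
    ‖(hh b w : ℂ) ^ (Complex.I * l - 1)‖ = hh b w ^ ((0 : ℝ) - 1) := by
  rw [Complex.norm_cpow_eq_rpow_re_of_pos (hh_pos hb w)]
  simp

lemma kk_symm (hA : S_A) (γ : ℝ) (x w : V) : kk γ (dd x w) = kk γ (dd w x) := by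
  unfold dd
  rw [(hA.2.2 x w).2.1]

lemma cpow_meas {b : V} (hb : ‖b‖ = 1) (l : ℝ) :
    Measurable fun x : V => (hh b x : ℂ) ^ (Complex.I * l - 1) := by
  have h1 : Measurable fun x : V => (hh b x : ℂ) :=
    Complex.measurable_ofReal.comp (hh_cont b).measurable
  exact h1.pow_const _

/-- the double integrand is integrable -/
lemma dbl (hA : S_A) (hB : S_B1) (hC : S_C2) {γ : ℝ} (hγ : 0 < γ) {b : V} (hb : ‖b‖ = 1)
    {f : V → ℂ} (hf : AEStronglyMeasurable f mu)
    (hi : Integrable (fun w => ((hh b w)⁻¹ : ℂ) * f w) mu) (l : ℝ) :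
    Integrable (fun q : V × V => (hh b q.1 : ℂ) ^ (Complex.I * l - 1) *
      ((kk γ (dd q.1 q.2) : ℂ) * f q.2)) (mu.prod mu) := by
  have m1 : AEStronglyMeasurable (fun q : V × V => (hh b q.1 : ℂ) ^ (Complex.I * l - 1))
      (mu.prod mu) := ((cpow_meas hb l).comp measurable_fst).aestronglyMeasurable
  have m2 : AEStronglyMeasurable (fun q : V × V => (kk γ (dd q.1 q.2) : ℂ)) (mu.prod mu) :=
    (Complex.measurable_ofReal.comp (kk2_meas γ)).aestronglyMeasurable
  have m3 : AEStronglyMeasurable (fun q : V × V => f q.2) (mu.prod mu) := hf.comp_snd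
  have m : AEStronglyMeasurable (fun q : V × V => (hh b q.1 : ℂ) ^ (Complex.I * l - 1) *
      ((kk γ (dd q.1 q.2) : ℂ) * f q.2)) (mu.prod mu) := m1.mul (m2.mul m3)
  refine ⟨m, ?_⟩
  rw [hasFiniteIntegral_iff_enorm, lintegral_prod_symm _ m.enorm]
  have key : ∀ w, ∫⁻ x, ‖(hh b x : ℂ) ^ (Complex.I * l - 1) * ((kk γ (dd x w) : ℂ) * f w)‖ₑ ∂mu =
      ENNReal.ofReal (CC γ 0) * ‖((hh b w)⁻¹ : ℂ) * f w‖ₑ := by
    intro w
    have e1 : ∀ x, ‖(hh b x : ℂ) ^ (Complex.I * l - 1) * ((kk γ (dd x w) : ℂ) * f w)‖ₑ =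
        (ENNReal.ofReal (kk γ (dd w x)) * ENNReal.ofReal (hh b x ^ ((0 : ℝ) - 1))) * ‖f w‖ₑ := by
      intro x
      rw [enorm_mul, enorm_kk hA hB hγ, ← ofReal_norm ((hh b x : ℂ) ^ (Complex.I * l - 1)),
        norm_cpow hb, kk_symm hA]
      ring
    simp_rw [e1]
    have mm : Measurable fun x => ENNReal.ofReal (kk γ (dd w x)) *
        ENNReal.ofReal (hh b x ^ ((0 : ℝ) - 1)) := by
      have a1 : Measurable fun x => ENNReal.ofReal (kk γ (dd w x)) :=
        kdd_meas γ w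
      have a2 : Measurable fun x => ENNReal.ofReal (hh b x ^ ((0 : ℝ) - 1)) :=
        ENNReal.measurable_ofReal.comp ((hh_cont b).measurable.pow_const _)
      exact a1.mul a2
    rw [lintegral_mul_const _ mm, eig hA hB hC hγ hb (by simpa using hγ) w, enorm_mul]
    have e2 : ‖((hh b w : ℂ))⁻¹‖ₑ = ENNReal.ofReal (hh b w ^ ((0 : ℝ) - 1)) := by
      rw [← ofReal_norm, norm_inv, Complex.norm_real, Real.norm_eq_abs,
        abs_of_pos (hh_pos hb w), zero_sub, Real.rpow_neg_one]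
    rw [e2]
    ring
  calc ∫⁻ w, ∫⁻ x, ‖(hh b x : ℂ) ^ (Complex.I * l - 1) * ((kk γ (dd x w) : ℂ) * f w)‖ₑ ∂mu ∂mu
      = ∫⁻ w, ENNReal.ofReal (CC γ 0) * ‖((hh b w)⁻¹ : ℂ) * f w‖ₑ ∂mu := by
        apply lintegral_congr
        exact key
    _ = ENNReal.ofReal (CC γ 0) * ∫⁻ w, ‖((hh b w)⁻¹ : ℂ) * f w‖ₑ ∂mu :=
        lintegral_const_mul' _ _ ENNReal.ofReal_ne_top
    _ < ∞ := ENNReal.mul_lt_top ENNReal.ofReal_lt_top hi.2

end PD2

open PC PC2 PD PD2 in
theorem t_D2 (hA : S_A) (hB1 : S_B1) (hB2 : S_B2) (hC : S_C2) : S_D2 := by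
  haveI := sfin
  intro γ hγ b hb f hf hi
  constructor
  · have h := (dbl hA hB1 hC hγ hb hf hi 0).integral_prod_left
    refine h.congr (Eventually.of_forall fun x => ?_)
    simp only
    rw [integral_const_mul]
    congr 1
    rw [Complex.ofReal_zero, mul_zero, zero_sub, Complex.cpow_neg_one]
  · intro l
    have h := dbl hA hB1 hC hγ hb hf hi l
    have h1 : ∫ x : V, (∫ w : V, (kk γ (dd x w) : ℂ) * f w ∂mu) *
        (hh b x : ℂ) ^ (Complex.I * l - 1) ∂mu =
        ∫ x : V, ∫ w : V, (hh b x : ℂ) ^ (Complex.I * l - 1) *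
          ((kk γ (dd x w) : ℂ) * f w) ∂mu ∂mu := by
      apply integral_congr_ae
      refine Eventually.of_forall fun x => ?_
      simp only
      rw [integral_const_mul, mul_comm]
    rw [h1, integral_integral_swap h, ← integral_const_mul]
    apply integral_congr_ae
    refine Eventually.of_forall fun w => ?_
    simp only
    have hre : |(Complex.I * (l : ℂ)).re| < 2 * γ := by simpa using hγ
    obtain ⟨_, e⟩ := hC γ hγ b hb (Complex.I * l) hre w
    rw [hB2 γ hγ _ hre] at e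
    have h2 : ∫ x : V, (hh b x : ℂ) ^ (Complex.I * l - 1) * ((kk γ (dd x w) : ℂ) * f w) ∂mu =
        (∫ x : V, (kk γ (dd w x) : ℂ) * (hh b x : ℂ) ^ (Complex.I * l - 1) ∂mu) * f w := by
      rw [← integral_mul_const]
      apply integral_congr_ae
      refine Eventually.of_forall fun x => ?_
      simp only
      rw [kk_symm hA]; ring
    rw [h2, e]
    ring

end Pool.Agent.T2H99.HY
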