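import Pool.Agent.T2H99.HY.D2

set_option autoImplicit false

noncomputable section

open MeasureTheory Filter Topology
open scoped ENNReal

namespace Pool.Agent.T2H99.HY

namespace PD3

open PC PC2 PD PD2

attribute [local instance] sfin

lemma norm_cpow' {b w : V} (hb : ‖b‖ = 1) (ν : ℂ) :
    ‖(hh b w : ℂ) ^ (ν - 1)‖ = hh b w ^ (ν.re - 1) := by
  rw [Complex.norm_cpow_eq_rpow_re_of_pos (hh_pos hb w)]
  simp

lemma cpow_meas' {b : V} (ν : ℂ) :
    Measurable fun x : V => (hh b x : ℂ) ^ (ν - 1) := by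
  have h1 : Measurable fun x : V => (hh b x : ℂ) :=
    Complex.measurable_ofReal.comp (hh_cont b).measurable
  exact h1.pow_const _

/-- the double integrand is integrable -/
lemma dbl' (hA : S_A) (hB : S_B1) (hC : S_C2) {γ : ℝ} (hγ : 0 < γ) {b : V} (hb : ‖b‖ = 1)
    {ν : ℂ} (hν : |ν.re| < 2 * γ) {f : V → ℂ} (hf : AEStronglyMeasurable f mu)
    (hi : Integrable (fun w => (hh b w : ℂ) ^ (ν - 1) * f w) mu) :
    Integrable (fun q : V × V => (hh b q.1 : ℂ) ^ (ν - 1) *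
      ((kk γ (dd q.1 q.2) : ℂ) * f q.2)) (mu.prod mu) := by
  have m1 : AEStronglyMeasurable (fun q : V × V => (hh b q.1 : ℂ) ^ (ν - 1))
      (mu.prod mu) := ((cpow_meas' ν).comp measurable_fst).aestronglyMeasurable
  have m2 : AEStronglyMeasurable (fun q : V × V => (kk γ (dd q.1 q.2) : ℂ)) (mu.prod mu) :=
    (Complex.measurable_ofReal.comp (kk2_meas γ)).aestronglyMeasurable
  have m3 : AEStronglyMeasurable (fun q : V × V => f q.2) (mu.prod mu) := hf.comp_snd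
  have m : AEStronglyMeasurable (fun q : V × V => (hh b q.1 : ℂ) ^ (ν - 1) *
      ((kk γ (dd q.1 q.2) : ℂ) * f q.2)) (mu.prod mu) := m1.mul (m2.mul m3)
  refine ⟨m, ?_⟩
  rw [hasFiniteIntegral_iff_enorm, lintegral_prod_symm _ m.enorm]
  have key : ∀ w, ∫⁻ x, ‖(hh b x : ℂ) ^ (ν - 1) * ((kk γ (dd x w) : ℂ) * f w)‖ₑ ∂mu =
      ENNReal.ofReal (CC γ ν.re) * ‖(hh b w : ℂ) ^ (ν - 1) * f w‖ₑ := by
    intro w
    have e1 : ∀ x, ‖(hh b x : ℂ) ^ (ν - 1) * ((kk γ (dd x w) : ℂ) * f w)‖ₑ =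
        (ENNReal.ofReal (kk γ (dd w x)) * ENNReal.ofReal (hh b x ^ (ν.re - 1))) * ‖f w‖ₑ := by
      intro x
      rw [enorm_mul, enorm_kk hA hB hγ, ← ofReal_norm ((hh b x : ℂ) ^ (ν - 1)),
        norm_cpow' hb, kk_symm hA]
      ring
    simp_rw [e1]
    have mm : Measurable fun x => ENNReal.ofReal (kk γ (dd w x)) *
        ENNReal.ofReal (hh b x ^ (ν.re - 1)) := by
      have a1 : Measurable fun x => ENNReal.ofReal (kk γ (dd w x)) :=
        kdd_meas γ w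
      have a2 : Measurable fun x => ENNReal.ofReal (hh b x ^ (ν.re - 1)) :=
        ENNReal.measurable_ofReal.comp ((hh_cont b).measurable.pow_const _)
      exact a1.mul a2
    rw [lintegral_mul_const _ mm, eig hA hB hC hγ hb hν w, enorm_mul]
    have e2 : ‖(hh b w : ℂ) ^ (ν - 1)‖ₑ = ENNReal.ofReal (hh b w ^ (ν.re - 1)) := by
      rw [← ofReal_norm, norm_cpow' hb]
    rw [e2]
    ring
  calc ∫⁻ w, ∫⁻ x, ‖(hh b x : ℂ) ^ (ν - 1) * ((kk γ (dd x w) : ℂ) * f w)‖ₑ ∂mu ∂mu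
      = ∫⁻ w, ENNReal.ofReal (CC γ ν.re) * ‖(hh b w : ℂ) ^ (ν - 1) * f w‖ₑ ∂mu := by
        apply lintegral_congr
        exact key
    _ = ENNReal.ofReal (CC γ ν.re) * ∫⁻ w, ‖(hh b w : ℂ) ^ (ν - 1) * f w‖ₑ ∂mu :=
        lintegral_const_mul' _ _ ENNReal.ofReal_ne_top
    _ < ∞ := ENNReal.mul_lt_top ENNReal.ofReal_lt_top hi.2

/-- the symbol on the complex strip -/
theorem symbol (hA : S_A) (hB1 : S_B1) (hB2 : S_B2) (hC : S_C2) {γ : ℝ} (hγ : 0 < γ) {b : V}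
    (hb : ‖b‖ = 1) {ν : ℂ} (hν : |ν.re| < 2 * γ) {f : V → ℂ} (hf : AEStronglyMeasurable f mu)
    (hi : Integrable (fun w => (hh b w : ℂ) ^ (ν - 1) * f w) mu) :
    Integrable (fun x => (hh b x : ℂ) ^ (ν - 1) * ∫ w : V, (kk γ (dd x w) : ℂ) * f w ∂mu) mu ∧
    ∫ x : V, (hh b x : ℂ) ^ (ν - 1) * (∫ w : V, (kk γ (dd x w) : ℂ) * f w ∂mu) ∂mu =
      1 / Complex.cos (Real.pi * ν / (4 * γ)) ^ 2 * ∫ x : V, (hh b x : ℂ) ^ (ν - 1) * f x ∂mu := by
  have h := dbl' hA hB1 hC hγ hb hν hf hi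
  constructor
  · refine h.integral_prod_left.congr (Eventually.of_forall fun x => ?_)
    simp only
    rw [integral_const_mul]
  · have h1 : ∫ x : V, (hh b x : ℂ) ^ (ν - 1) * (∫ w : V, (kk γ (dd x w) : ℂ) * f w ∂mu) ∂mu =
        ∫ x : V, ∫ w : V, (hh b x : ℂ) ^ (ν - 1) * ((kk γ (dd x w) : ℂ) * f w) ∂mu ∂mu := by
      apply integral_congr_ae
      refine Eventually.of_forall fun x => ?_
      simp only
      rw [integral_const_mul]
    rw [h1, integral_integral_swap h, ← integral_const_mul]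
    apply integral_congr_ae
    refine Eventually.of_forall fun w => ?_
    simp only
    obtain ⟨_, e⟩ := hC γ hγ b hb ν hν w
    rw [hB2 γ hγ _ hν] at e
    have h2 : ∫ x : V, (hh b x : ℂ) ^ (ν - 1) * ((kk γ (dd x w) : ℂ) * f w) ∂mu =
        (∫ x : V, (kk γ (dd w x) : ℂ) * (hh b x : ℂ) ^ (ν - 1) ∂mu) * f w := by
      rw [← integral_mul_const]
      apply integral_congr_ae
      refine Eventually.of_forall fun x => ?_
      simp only
      rw [kk_symm hA]; ring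
    rw [h2, e]
    ring

end PD3

end Pool.Agent.T2H99.HY
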