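import Mathlib

/-!
# MP_e4fe74_an: a hypercyclic `L^p` multiplier on hyperbolic 3-space with symbol bounded by one

Definitions.  The hyperbolic space `H^3` is the hyperboloid `{(√(1+|x|²), x) : x ∈ ℝ³}`; we use
the coordinate `x ∈ ℝ³`.
-/

set_option autoImplicit false

noncomputable section

open MeasureTheory Filter Topology

namespace Pool.Agent.T2H99.HY

/-- Euclidean three-space -/
abbrev V := EuclideanSpace ℝ (Fin 3)

/-- the time coordinate `√(1 + |x|²)` of the point of the hyperboloid over `x` -/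
def x0 (x : V) : ℝ := Real.sqrt (1 + ‖x‖ ^ 2)

/-- the point of the hyperboloid over `x` -/
def lift (x : V) : ℝ × V := (x0 x, x)

/-- the Minkowski form -/
def mk (a b : ℝ × V) : ℝ := a.1 * b.1 - inner ℝ a.2 b.2

/-- `cosh` of the hyperbolic distance -/
def ch (x y : V) : ℝ := x0 x * x0 y - inner ℝ x y

/-- the hyperbolic distance -/
def dd (x y : V) : ℝ := Real.arcosh (ch x y)

/-- the hyperbolic measure `dx / √(1 + |x|²)` -/
def mu : Measure V := volume.withDensity (fun x => ENNReal.ofReal (1 / x0 x))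

/-- orthochronous Lorentz maps -/
structure IsLor (g : (ℝ × V) →ₗ[ℝ] (ℝ × V)) : Prop where
  form : ∀ a b, mk (g a) (g b) = mk a b
  pos : 0 < (g (1, 0)).1

/-- the action on `H^3` -/
def act (g : (ℝ × V) →ₗ[ℝ] (ℝ × V)) (x : V) : V := (g (lift x)).2

/-- `x_0 - ⟨x, b⟩` (the exponential of the Busemann function, for `|b| = 1`) -/
def hh (b x : V) : ℝ := x0 x - inner ℝ x b

/-- `κ(r) = (8 γ² / π²) r / sinh (2 γ r)` -/
def kap (γ r : ℝ) : ℝ :=
  if r = 0 then 4 * γ / Real.pi ^ 2 else 8 * γ ^ 2 / Real.pi ^ 2 * (r / Real.sinh (2 * γ * r))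

/-- the radial kernel `k(r) = - κ'(r) / (2 π sinh r)`, `r > 0` -/
def kk (γ r : ℝ) : ℝ :=
  4 * γ ^ 2 / Real.pi ^ 3 * (2 * γ * r * Real.cosh (2 * γ * r) - Real.sinh (2 * γ * r)) /
    (Real.sinh (2 * γ * r) ^ 2 * Real.sinh r)

/-- the boundary values `ω(t) = - ((1 + i sinh (π t / 2γ)) / cosh (π t / 2γ))²` of the symbol -/
def om (γ t : ℝ) : ℂ :=
  -((1 + Complex.I * (Real.sinh (Real.pi * t / (2 * γ)) : ℂ)) /
    (Real.cosh (Real.pi * t / (2 * γ)) : ℂ)) ^ 2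

/-- `U_j g (r) = ∫ g(t) ω(t)^j e^{i t r} dt` -/
def UU (γ : ℝ) (g : ℝ → ℂ) (j : ℤ) (r : ℝ) : ℂ :=
  ∫ t : ℝ, g t * om γ t ^ j * Complex.exp (Complex.I * t * r)

/-- `E_j g (r) = e^{γ r} U_j g (r)` -/
def EE (γ : ℝ) (g : ℝ → ℂ) (j : ℤ) (r : ℝ) : ℂ := (Real.exp (γ * r) : ℂ) * UU γ g j r

/-- the odd part of `E_j g` -/
def OO (γ : ℝ) (g : ℝ → ℂ) (j : ℤ) (r : ℝ) : ℂ := (EE γ g j r - EE γ g j (-r)) / 2

/-- the radial function `O_j(d(x, y)) / sinh d(x, y)` on `H^3` with centre `y` -/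
def rad (γ : ℝ) (g : ℝ → ℂ) (j : ℤ) (y x : V) : ℂ := OO γ g j (dd x y) / (Real.sinh (dd x y) : ℂ)

/-- nice densities `g` -/
structure Nice (g : ℝ → ℂ) : Prop where
  cont : Continuous g
  int : Integrable g
  int1 : Integrable (fun t => t * g t)
  l2 : MemLp g 2

end Pool.Agent.T2H99.HY
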