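import Pool.Agent.T2H99.HY.Stm

set_option autoImplicit false

noncomputable section

open MeasureTheory Filter Topology

namespace Pool.Agent.T2H99.HY

theorem t_E1 : S_E1 := by
  intro γ hγ
  have hne : ∀ t : ℝ, (Real.cosh (Real.pi * t / (2 * γ)) : ℂ) ≠ 0 := by
    intro t
    exact_mod_cast (Real.cosh_pos _).ne'
  have hsq : ∀ x : ℝ, ‖(1 + Complex.I * (Real.sinh x : ℂ))‖ = Real.cosh x := by
    intro x
    have h1 : ‖(1 + Complex.I * (Real.sinh x : ℂ))‖ ^ 2 = Real.cosh x ^ 2 := by
      rw [← Complex.normSq_eq_norm_sq, Complex.normSq_apply]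
      simp only [Complex.add_re, Complex.one_re, Complex.mul_re, Complex.I_re, Complex.ofReal_re,
        zero_mul, Complex.I_im, Complex.ofReal_im, mul_zero, sub_zero, add_zero, Complex.add_im,
        Complex.one_im, Complex.mul_im, one_mul, zero_add]
      rw [Real.cosh_sq]
      ring
    exact (pow_left_inj₀ (norm_nonneg _) (Real.cosh_pos _).le two_ne_zero).1 h1
  refine ⟨?_, ?_, ?_⟩
  · intro t
    unfold om
    rw [norm_neg, norm_pow, norm_div, hsq, Complex.norm_real, Real.norm_eq_abs,
      abs_of_pos (Real.cosh_pos _), div_self (Real.cosh_pos _).ne', one_pow]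
  · unfold om
    apply Continuous.neg
    apply Continuous.pow
    apply Continuous.div
    · apply Continuous.add continuous_const
      apply Continuous.mul continuous_const
      apply Complex.continuous_ofReal.comp
      exact Real.continuous_sinh.comp (by fun_prop)
    · apply Complex.continuous_ofReal.comp
      exact Real.continuous_cosh.comp (by fun_prop)
    · exact hne
  · intro t
    set x : ℝ := Real.pi * t / (2 * γ) with hx
    have hγ' : (γ : ℂ) ≠ 0 := by exact_mod_cast hγ.ne'
    have h1 : Complex.cos (Real.pi * (γ + Complex.I * t) / (4 * γ)) ^ 2 =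
        (1 - Complex.I * (Real.sinh x : ℂ)) / 2 := by
      have h2 : (Real.pi * (γ + Complex.I * t) / (4 * γ) : ℂ) =
          (Real.pi / 2 + (x : ℂ) * Complex.I) / 2 := by
        rw [hx]; push_cast; field_simp; ring
      rw [h2, Complex.cos_sq]
      have h3 : (2 * ((Real.pi / 2 + (x : ℂ) * Complex.I) / 2) : ℂ) =
          (x : ℂ) * Complex.I + Real.pi / 2 := by ring
      rw [h3, Complex.cos_add_pi_div_two, Complex.sin_mul_I, Complex.ofReal_sinh]
      ring
    have h4 : (1 - Complex.I * (Real.sinh x : ℂ)) ≠ 0 := by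
      intro h
      have := congrArg Complex.re h
      simp at this
    have h5 : (1 + Complex.I * (Real.sinh x : ℂ)) * (1 - Complex.I * (Real.sinh x : ℂ)) =
        (Real.cosh x : ℂ) ^ 2 := by
      have h6 : ((Real.cosh x ^ 2 : ℝ) : ℂ) = ((Real.sinh x ^ 2 + 1 : ℝ) : ℂ) := by
        rw [Real.cosh_sq]
      push_cast at h6
      push_cast
      rw [h6]
      linear_combination (-(Complex.sinh x) ^ 2) * Complex.I_sq
    rw [h1]
    unfold om
    rw [← hx, div_pow]
    have h7 := hne t
    rw [← hx] at h7
    rw [← h5]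
    have h8 : (1 + Complex.I * (Real.sinh x : ℂ)) ≠ 0 := by
      intro h
      have := congrArg Complex.re h
      simp at this
    field_simp
    ring

end Pool.Agent.T2H99.HY
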