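import Pool.Agent.T2H99.HY.Stm

set_option autoImplicit false

noncomputable section

open MeasureTheory Filter Topology

namespace Pool.Agent.T2H99.HY

namespace PE2

variable {γ : ℝ} (hE1 : S_E1) (hγ : 0 < γ) {g : ℝ → ℂ} (hg : Nice g)

include hE1 hγ

lemma om_ne (t : ℝ) : om γ t ≠ 0 := by
  have h := (hE1 γ hγ).1 t
  intro h0
  rw [h0, norm_zero] at h
  exact zero_ne_one h

lemma om_zpow (t : ℝ) (j : ℤ) : ‖om γ t ^ j‖ = 1 := by
  rw [norm_zpow, (hE1 γ hγ).1 t, one_zpow]

lemma om_cont (j : ℤ) : Continuous fun t => om γ t ^ j :=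
  (hE1 γ hγ).2.1.zpow₀ j fun t => Or.inl (om_ne hE1 hγ t)

include hg

lemma G_int (j : ℤ) : Integrable fun t => g t * om γ t ^ j := by
  refine hg.int.norm.mono' ((hg.cont.mul (om_cont hE1 hγ j)).aestronglyMeasurable) ?_
  refine Eventually.of_forall fun t => ?_
  rw [norm_mul, om_zpow hE1 hγ, mul_one]

lemma UU_cont (j : ℤ) : Continuous (UU γ g j) := by
  unfold UU
  apply continuous_of_dominated (bound := fun t => ‖g t‖)
  · intro r
    apply Continuous.aestronglyMeasurable
    exact (hg.cont.mul (om_cont hE1 hγ j)).mul (by fun_prop)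
  · intro r
    refine Eventually.of_forall fun t => ?_
    rw [norm_mul, norm_mul, om_zpow hE1 hγ, mul_one]
    have : ‖Complex.exp (Complex.I * t * r)‖ = 1 := by
      have : Complex.I * t * r = ((t * r : ℝ) : ℂ) * Complex.I := by push_cast; ring
      rw [this, Complex.norm_exp_ofReal_mul_I]
    rw [this, mul_one]
  · exact hg.int.norm
  · refine Eventually.of_forall fun t => ?_
    fun_prop

lemma EE_cont (j : ℤ) : Continuous (EE γ g j) := by
  unfold EE
  apply Continuous.mul _ (UU_cont hE1 hγ hg j)
  fun_prop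

lemma convE (hB1 : S_B1) (hB2 : S_B2) (j : ℤ) (r : ℝ) :
    Integrable (fun s : ℝ => (kap γ (r - s) : ℂ) * EE γ g j s) ∧
      ∫ s : ℝ, (kap γ (r - s) : ℂ) * EE γ g j s = EE γ g j r - EE γ g (j + 1) r := by
  obtain ⟨hc, -, -, -, -, -, hI⟩ := hB1 γ hγ
  set a : ℝ → ℂ := fun s => (kap γ (r - s) : ℂ) * (Real.exp (γ * s) : ℂ) with ha
  set G : ℝ → ℂ := fun t => g t * om γ t ^ j with hG
  have hGi : Integrable G := G_int hE1 hγ hg j
  have hai : Integrable a := by
    have h1 : Integrable fun x => kap γ x * Real.exp (-γ * x) :=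
      hI (-γ) (by rw [abs_neg, abs_of_pos hγ]; linarith)
    have h2 : Integrable fun x => ((kap γ x * Real.exp (-γ * x) : ℝ) : ℂ) := h1.ofReal
    have h3 := (h2.comp_sub_left r).const_mul (Real.exp (γ * r) : ℂ)
    refine h3.congr (Eventually.of_forall fun s => ?_)
    simp only [ha]
    push_cast
    have : Complex.exp (γ * r) * Complex.exp (-γ * (r - s)) = Complex.exp (γ * s) := by
      rw [← Complex.exp_add]; ring_nf
    rw [← this]; ring
  have hac : Continuous a := by
    simp only [ha]
    apply Continuous.mul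
    · exact Complex.continuous_ofReal.comp (hc.comp (by fun_prop))
    · fun_prop
  set F : ℝ × ℝ → ℂ := fun z => a z.1 * G z.2 * Complex.exp (Complex.I * z.2 * z.1) with hF
  have hexp : ∀ s t : ℝ, ‖Complex.exp (Complex.I * t * s)‖ = 1 := by
    intro s t
    have : Complex.I * t * s = ((t * s : ℝ) : ℂ) * Complex.I := by push_cast; ring
    rw [this, Complex.norm_exp_ofReal_mul_I]
  have hFi : Integrable F (volume.prod volume) := by
    have h1 : Integrable (fun z : ℝ × ℝ => a z.1 * G z.2) (volume.prod volume) := hai.mul_prod hGi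
    refine h1.norm.mono' ?_ ?_
    · apply AEStronglyMeasurable.mul h1.aestronglyMeasurable
      apply Continuous.aestronglyMeasurable
      fun_prop
    · refine Eventually.of_forall fun z => ?_
      simp only [hF]
      rw [norm_mul, hexp, mul_one]
  have hEE : ∀ s, (kap γ (r - s) : ℂ) * EE γ g j s = ∫ t, F (s, t) := by
    intro s
    simp only [hF, ha]
    unfold EE UU
    rw [← mul_assoc, ← integral_const_mul]
    congr 1
    funext t
    simp only [hG]
    ring
  constructor
  · have := hFi.integral_prod_left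
    refine this.congr (Eventually.of_forall fun s => ?_)
    simp only
    rw [hEE]
  · simp_rw [hEE]
    rw [integral_integral_swap (f := fun s t => F (s, t)) hFi]
    have h1 : ∀ t : ℝ, ∫ s, F (s, t) =
        G t * (1 - om γ t) * Complex.exp ((γ + Complex.I * t) * r) := by
      intro t
      have h2 : ∀ s : ℝ, F (s, t) = (G t * Complex.exp ((γ + Complex.I * t) * r)) *
          (fun x : ℝ => (kap γ x : ℂ) * Complex.exp (-(γ + Complex.I * t) * x)) (r - s) := by
        intro s
        simp only [hF, ha]
        have : Complex.exp ((γ + Complex.I * t) * r) *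
            Complex.exp (-(γ + Complex.I * t) * ((r - s : ℝ) : ℂ)) =
            (Real.exp (γ * s) : ℂ) * Complex.exp (Complex.I * t * s) := by
          rw [Complex.ofReal_exp, ← Complex.exp_add, ← Complex.exp_add]
          congr 1; push_cast; ring
        calc (kap γ (r - s) : ℂ) * (Real.exp (γ * s) : ℂ) * G t * Complex.exp (Complex.I * t * s)
            = (kap γ (r - s) : ℂ) * G t * ((Real.exp (γ * s) : ℂ) *
              Complex.exp (Complex.I * t * s)) := by ring
          _ = _ := by rw [← this]; ring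
      simp_rw [h2]
      rw [integral_const_mul, integral_sub_left_eq_self (fun x : ℝ => (kap γ x : ℂ) *
        Complex.exp (-(γ + Complex.I * t) * x)) volume r]
      have h3 : |(γ + Complex.I * t : ℂ).re| < 2 * γ := by
        simp
        rw [abs_of_pos hγ]; linarith
      rw [hB2 γ hγ _ h3, (hE1 γ hγ).2.2 t]
      ring
    simp_rw [h1]
    unfold EE UU
    have hi1 : Integrable (fun t : ℝ => g t * om γ t ^ j * Complex.exp (Complex.I * t * r)) := by
      refine hGi.norm.mono' ?_ (Eventually.of_forall fun t => by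
        rw [norm_mul, hexp, mul_one])
      exact ((hg.cont.mul (om_cont hE1 hγ j)).mul (by fun_prop)).aestronglyMeasurable
    have hi2 : Integrable (fun t : ℝ => g t * om γ t ^ (j + 1) *
        Complex.exp (Complex.I * t * r)) := by
      refine (G_int hE1 hγ hg (j + 1)).norm.mono' ?_ (Eventually.of_forall fun t => by
        rw [norm_mul, hexp, mul_one])
      exact ((hg.cont.mul (om_cont hE1 hγ (j + 1))).mul (by fun_prop)).aestronglyMeasurable
    rw [← mul_sub, ← integral_sub hi1 hi2, ← integral_const_mul]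
    congr 1
    funext t
    rw [zpow_add_one₀ (om_ne hE1 hγ t)]
    simp only [hG]
    have : Complex.exp ((γ + Complex.I * t) * r) =
        (Real.exp (γ * r) : ℂ) * Complex.exp (Complex.I * t * r) := by
      rw [Complex.ofReal_exp, ← Complex.exp_add]
      congr 1; push_cast; ring
    rw [this]
    ring

end PE2

open PE2 in
theorem t_E2 (hB1 : S_B1) (hB2 : S_B2) (hE1 : S_E1) : S_E2 := by
  intro γ hγ g hg j
  have hEc := EE_cont hE1 hγ hg j
  refine ⟨?_, ?_, ?_⟩
  · unfold OO
    exact (hEc.sub (hEc.comp continuous_neg)).div_const 2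
  · intro r
    unfold OO
    rw [neg_neg]; ring
  · intro r
    obtain ⟨hi, he⟩ := convE hE1 hγ hg hB1 hB2 j r
    obtain ⟨hi', he'⟩ := convE hE1 hγ hg hB1 hB2 j (-r)
    have hev := (hB1 γ hγ).2.1
    have h1 : ∀ s : ℝ, (kap γ (r - s) : ℂ) * EE γ g j (-s) =
        (fun s => (kap γ (-r - s) : ℂ) * EE γ g j s) (-s) := by
      intro s
      simp only
      rw [← hev (r - s)]
      congr 3
      ring
    have hi2 : Integrable (fun s : ℝ => (kap γ (r - s) : ℂ) * EE γ g j (-s)) := by
      simp_rw [h1]
      exact hi'.comp_neg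
    have he2 : ∫ s : ℝ, (kap γ (r - s) : ℂ) * EE γ g j (-s) =
        EE γ g j (-r) - EE γ g (j + 1) (-r) := by
      simp_rw [h1]
      rw [integral_neg_eq_self (fun s => (kap γ (-r - s) : ℂ) * EE γ g j s), he']
    have h2 : ∀ s : ℝ, (kap γ (r - s) : ℂ) * OO γ g j s =
        (1 / 2 : ℂ) * ((kap γ (r - s) : ℂ) * EE γ g j s - (kap γ (r - s) : ℂ) * EE γ g j (-s)) := by
      intro s
      unfold OO; ring
    constructor
    · simp_rw [h2]
      exact (hi.sub hi2).const_mul _
    · simp_rw [h2]
      rw [integral_const_mul, integral_sub hi hi2, he, he2]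
      unfold OO
      ring

end Pool.Agent.T2H99.HY
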