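import Pool.Agent.T2H99.HY.E2

set_option autoImplicit false

noncomputable section

open MeasureTheory Filter Topology
open scoped FourierTransform

namespace Pool.Agent.T2H99.HY

namespace PE3

open PE2

/-- the phase -/
def psi (γ t : ℝ) : ℝ := Real.arctan (Real.sinh (Real.pi * t / (2 * γ)))

lemma exp_psi (γ t : ℝ) : Complex.exp ((psi γ t : ℂ) * Complex.I) =
    (1 + Complex.I * (Real.sinh (Real.pi * t / (2 * γ)) : ℂ)) /
      (Real.cosh (Real.pi * t / (2 * γ)) : ℂ) := by
  set x := Real.pi * t / (2 * γ) with hx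
  have hs : Real.sqrt (1 + Real.sinh x ^ 2) = Real.cosh x := by
    rw [← Real.cosh_sq', Real.sqrt_sq (Real.cosh_pos x).le]
  rw [Complex.exp_mul_I, ← Complex.ofReal_cos, ← Complex.ofReal_sin]
  unfold psi
  rw [← hx, Real.cos_arctan, Real.sin_arctan, hs]
  push_cast
  ring

lemma om_zpow_eq (γ t : ℝ) (j : ℤ) :
    om γ t ^ j = (-1) ^ j * Complex.exp (2 * j * psi γ t * Complex.I) := by
  have h : om γ t = (-1) * Complex.exp (2 * psi γ t * Complex.I) := by
    unfold om
    rw [← exp_psi, ← Complex.exp_nat_mul, neg_one_mul]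
    congr 2
    push_cast; ring
  rw [h, mul_zpow, ← Complex.exp_int_mul]
  congr 2
  ring

lemma om_shift (hE1 : S_E1) {γ : ℝ} (hγ : 0 < γ) (s h : ℝ) (j : ℤ) :
    om γ (s + h) ^ j * (starRingEnd ℂ) (om γ s ^ j) =
      Complex.exp (Complex.I * ((2 * j : ℝ) : ℂ) * ((psi γ (s + h) - psi γ s : ℝ) : ℂ)) := by
  rw [← Complex.inv_eq_conj (om_zpow hE1 hγ s j), om_zpow_eq, om_zpow_eq]
  have h1 : ((-1 : ℂ)) ^ j ≠ 0 := zpow_ne_zero _ (by norm_num)
  rw [mul_inv, ← Complex.exp_neg]
  calc _ = ((-1 : ℂ) ^ j * ((-1 : ℂ) ^ j)⁻¹) * (Complex.exp (2 * j * psi γ (s + h) * Complex.I) *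
      Complex.exp (-(2 * j * psi γ s * Complex.I))) := by ring
    _ = _ := by
      rw [mul_inv_cancel₀ h1, one_mul, ← Complex.exp_add]
      congr 1
      push_cast; ring

/-- Riemann-Lebesgue for a phase function -/
lemma rl (S : Set ℝ) (hS : MeasurableSet S) (Φ Φ' : ℝ → ℝ)
    (hd : ∀ x ∈ S, HasDerivWithinAt Φ (Φ' x) S x) (hinj : Set.InjOn Φ S)
    (hne : ∀ x ∈ S, Φ' x ≠ 0) (H : ℝ → ℂ) :
    Tendsto (fun l : ℝ => ∫ x in S, H x * Complex.exp (Complex.I * (l : ℂ) * (Φ x : ℂ)))
      (cocompact ℝ) (𝓝 0) := by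
  set K : ℝ → ℂ := fun u => H (Function.invFunOn Φ S u) / ((|Φ' (Function.invFunOn Φ S u)| : ℝ) : ℂ)
    with hK
  have himg : MeasurableSet (Φ '' S) :=
    measurable_image_of_fderivWithin hS (fun x hx => (hd x hx).hasFDerivWithinAt) hinj
  have key : ∀ l : ℝ, ∫ x in S, H x * Complex.exp (Complex.I * (l : ℂ) * (Φ x : ℂ)) =
      ∫ u, Real.fourierChar (-(u * (-(l / (2 * Real.pi))))) • (Set.indicator (Φ '' S) K) u := by
    intro l
    have h1 := integral_image_eq_integral_abs_deriv_smul hS hd hinj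
      (fun u => K u * Complex.exp (Complex.I * (l : ℂ) * (u : ℂ)))
    have h2 : ∫ x in S, |Φ' x| • (K (Φ x) * Complex.exp (Complex.I * (l : ℂ) * (Φ x : ℂ))) =
        ∫ x in S, H x * Complex.exp (Complex.I * (l : ℂ) * (Φ x : ℂ)) := by
      apply setIntegral_congr_fun hS
      intro x hx
      simp only [hK]
      rw [hinj.leftInvOn_invFunOn hx]
      have h3 : ((|Φ' x| : ℝ) : ℂ) ≠ 0 := by
        exact_mod_cast (abs_pos.2 (hne x hx)).ne'
      rw [Complex.real_smul, ← mul_assoc, mul_div_cancel₀ _ h3]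
    rw [← h2, ← h1, ← integral_indicator himg]
    apply integral_congr_ae
    refine Eventually.of_forall fun u => ?_
    simp only
    by_cases hu : u ∈ Φ '' S
    · rw [Set.indicator_of_mem hu, Set.indicator_of_mem hu, Circle.smul_def, Real.fourierChar_apply,
        smul_eq_mul, mul_comm]
      congr 2
      have : (Real.pi : ℂ) ≠ 0 := by exact_mod_cast Real.pi_ne_zero
      push_cast
      field_simp
    · rw [Set.indicator_of_notMem hu, Set.indicator_of_notMem hu, smul_zero]
  simp_rw [key]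
  have h4 := Real.tendsto_integral_exp_smul_cocompact (Set.indicator (Φ '' S) K)
  refine h4.comp ?_
  have h5 : (fun l : ℝ => -(l / (2 * Real.pi))) = fun l : ℝ => (-(2 * Real.pi)⁻¹) * l := by
    funext l; ring
  rw [h5]
  apply tendsto_cocompact_of_tendsto_dist_comp_atTop (0 : ℝ)
  have h6 : ∀ l : ℝ, dist (-(2 * Real.pi)⁻¹ * l) 0 = (2 * Real.pi)⁻¹ * ‖l‖ := by
    intro l
    rw [dist_zero_right, norm_mul, norm_neg, Real.norm_of_nonneg (by positivity)]
  simp_rw [h6]
  exact (tendsto_norm_cocompact_atTop).const_mul_atTop (by positivity)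

lemma psi_deriv (γ t : ℝ) : HasDerivAt (psi γ)
    (Real.pi / (2 * γ) * (Real.cosh (Real.pi * t / (2 * γ)))⁻¹) t := by
  unfold psi
  have h1 : HasDerivAt (fun t : ℝ => Real.pi * t / (2 * γ)) (Real.pi / (2 * γ)) t := by
    have := ((hasDerivAt_id t).const_mul Real.pi).div_const (2 * γ)
    simpa using this
  have h2 := h1.sinh.arctan
  convert h2 using 1
  rw [← Real.cosh_sq']
  have := (Real.cosh_pos (Real.pi * t / (2 * γ))).ne'
  field_simp

/-- the derivative of `s ↦ ψ(s + h) - ψ(s)` -/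
def dphi (γ h s : ℝ) : ℝ := Real.pi / (2 * γ) * (Real.cosh (Real.pi * (s + h) / (2 * γ)))⁻¹ -
  Real.pi / (2 * γ) * (Real.cosh (Real.pi * s / (2 * γ)))⁻¹

lemma phi_deriv (γ h s : ℝ) : HasDerivAt (fun s => psi γ (s + h) - psi γ s) (dphi γ h s) s := by
  unfold dphi
  have h1 := (psi_deriv γ (s + h)).comp_add_const s h
  exact h1.sub (psi_deriv γ s)

lemma dphi_sign {γ : ℝ} (hγ : 0 < γ) (h s : ℝ) :
    (0 < dphi γ h s ↔ |s + h| < |s|) ∧ (dphi γ h s < 0 ↔ |s| < |s + h|) := by
  have hc : 0 < Real.pi / (2 * γ) := by positivity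
  have hq : ∀ t : ℝ, |Real.pi * t / (2 * γ)| = Real.pi / (2 * γ) * |t| := by
    intro t
    rw [show Real.pi * t / (2 * γ) = Real.pi / (2 * γ) * t by ring, abs_mul, abs_of_pos hc]
  have hlt : ∀ a b : ℝ, (Real.pi / (2 * γ) * (Real.cosh (Real.pi * a / (2 * γ)))⁻¹ <
      Real.pi / (2 * γ) * (Real.cosh (Real.pi * b / (2 * γ)))⁻¹) ↔ |b| < |a| := by
    intro a b
    rw [mul_lt_mul_iff_right₀ hc, inv_lt_inv₀ (Real.cosh_pos _) (Real.cosh_pos _), Real.cosh_lt_cosh,
      hq, hq, mul_lt_mul_iff_right₀ hc]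
  unfold dphi
  rw [sub_pos, sub_neg]
  exact ⟨hlt _ _, hlt _ _⟩

lemma rl_half {γ : ℝ} (hγ : 0 < γ) {h : ℝ} (hh : h ≠ 0) (H : ℝ → ℂ) :
    Tendsto (fun l : ℝ => ∫ x in Set.Iio (-h / 2), H x *
      Complex.exp (Complex.I * (l : ℂ) * ((psi γ (x + h) - psi γ x : ℝ) : ℂ))) (cocompact ℝ) (𝓝 0) ∧
    Tendsto (fun l : ℝ => ∫ x in Set.Ioi (-h / 2), H x *
      Complex.exp (Complex.I * (l : ℂ) * ((psi γ (x + h) - psi γ x : ℝ) : ℂ))) (cocompact ℝ) (𝓝 0)
      := by
  have hdiff : Differentiable ℝ (fun s => psi γ (s + h) - psi γ s) := fun s =>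
    (phi_deriv γ h s).differentiableAt
  have hder : ∀ s, deriv (fun s => psi γ (s + h) - psi γ s) s = dphi γ h s := fun s =>
    (phi_deriv γ h s).deriv
  have habs : ∀ s : ℝ, |s| < |s + h| ↔ 0 < h * (2 * s + h) := by
    intro s
    rw [← sq_lt_sq]
    constructor <;> intro H <;> nlinarith
  have habs' : ∀ s : ℝ, |s + h| < |s| ↔ h * (2 * s + h) < 0 := by
    intro s
    rw [← sq_lt_sq]
    constructor <;> intro H <;> nlinarith
  rcases lt_or_gt_of_ne hh with hneg | hpos
  · -- h < 0
    have hL : ∀ s ∈ Set.Iio (-h / 2), dphi γ h s < 0 := by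
      intro s hs
      rw [(dphi_sign hγ h s).2, habs]
      have : 2 * s + h < 0 := by have := Set.mem_Iio.1 hs; linarith
      exact mul_pos_of_neg_of_neg hneg this
    have hR : ∀ s ∈ Set.Ioi (-h / 2), 0 < dphi γ h s := by
      intro s hs
      rw [(dphi_sign hγ h s).1, habs']
      have : 0 < 2 * s + h := by have := Set.mem_Ioi.1 hs; linarith
      exact mul_neg_of_neg_of_pos hneg this
    constructor
    · apply rl _ measurableSet_Iio _ (dphi γ h)
      · exact fun x _ => (phi_deriv γ h x).hasDerivWithinAt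
      · apply StrictAntiOn.injOn
        apply strictAntiOn_of_deriv_neg (convex_Iio _) hdiff.continuous.continuousOn
        intro x hx
        rw [interior_Iio] at hx
        rw [hder]; exact hL x hx
      · exact fun x hx => (hL x hx).ne
    · apply rl _ measurableSet_Ioi _ (dphi γ h)
      · exact fun x _ => (phi_deriv γ h x).hasDerivWithinAt
      · apply StrictMonoOn.injOn
        apply strictMonoOn_of_deriv_pos (convex_Ioi _) hdiff.continuous.continuousOn
        intro x hx
        rw [interior_Ioi] at hx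
        rw [hder]; exact hR x hx
      · exact fun x hx => (hR x hx).ne'
  · have hL : ∀ s ∈ Set.Iio (-h / 2), 0 < dphi γ h s := by
      intro s hs
      rw [(dphi_sign hγ h s).1, habs']
      have : 2 * s + h < 0 := by have := Set.mem_Iio.1 hs; linarith
      exact mul_neg_of_pos_of_neg hpos this
    have hR : ∀ s ∈ Set.Ioi (-h / 2), dphi γ h s < 0 := by
      intro s hs
      rw [(dphi_sign hγ h s).2, habs]
      have : 0 < 2 * s + h := by have := Set.mem_Ioi.1 hs; linarith
      exact mul_pos hpos this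
    constructor
    · apply rl _ measurableSet_Iio _ (dphi γ h)
      · exact fun x _ => (phi_deriv γ h x).hasDerivWithinAt
      · apply StrictMonoOn.injOn
        apply strictMonoOn_of_deriv_pos (convex_Iio _) hdiff.continuous.continuousOn
        intro x hx
        rw [interior_Iio] at hx
        rw [hder]; exact hL x hx
      · exact fun x hx => (hL x hx).ne'
    · apply rl _ measurableSet_Ioi _ (dphi γ h)
      · exact fun x _ => (phi_deriv γ h x).hasDerivWithinAt
      · apply StrictAntiOn.injOn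
        apply strictAntiOn_of_deriv_neg (convex_Ioi _) hdiff.continuous.continuousOn
        intro x hx
        rw [interior_Ioi] at hx
        rw [hder]; exact hR x hx
      · exact fun x hx => (hR x hx).ne

lemma psi_cont (γ : ℝ) : Continuous (psi γ) := by
  unfold psi; fun_prop

lemma norm_e (l a : ℝ) : ‖Complex.exp (Complex.I * (l : ℂ) * (a : ℂ))‖ = 1 := by
  have : Complex.I * (l : ℂ) * (a : ℂ) = ((l * a : ℝ) : ℂ) * Complex.I := by push_cast; ring
  rw [this, Complex.norm_exp_ofReal_mul_I]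

/-- Riemann-Lebesgue for the shifted phase -/
lemma rl_full {γ : ℝ} (hγ : 0 < γ) {h : ℝ} (hh : h ≠ 0) {H : ℝ → ℂ} (hH : Integrable H) :
    Tendsto (fun l : ℝ => ∫ x : ℝ, H x *
      Complex.exp (Complex.I * (l : ℂ) * ((psi γ (x + h) - psi γ x : ℝ) : ℂ))) (cocompact ℝ) (𝓝 0)
      := by
  obtain ⟨h1, h2⟩ := rl_half hγ hh H
  have h3 := h1.add h2
  rw [add_zero] at h3
  refine h3.congr fun l => ?_
  have hi : Integrable fun x => H x *
      Complex.exp (Complex.I * (l : ℂ) * ((psi γ (x + h) - psi γ x : ℝ) : ℂ)) := by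
    refine hH.norm.mono' ?_ (Eventually.of_forall fun x => ?_)
    · apply hH.aestronglyMeasurable.mul
      apply Continuous.aestronglyMeasurable
      have := psi_cont γ
      fun_prop
    · rw [norm_mul, norm_e, mul_one]
  rw [← integral_add_compl (s := Set.Iic (-h / 2)) measurableSet_Iic hi, Set.compl_Iic,
    integral_Iic_eq_integral_Iio]

/-- `J_j(h)` -/
def JJ (γ : ℝ) (g : ℝ → ℂ) (j : ℤ) (h : ℝ) : ℂ :=
  ∫ s : ℝ, (g (s + h) * (starRingEnd ℂ) (g s)) *
    Complex.exp (Complex.I * ((2 * j : ℝ) : ℂ) * ((psi γ (s + h) - psi γ s : ℝ) : ℂ))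

section

variable {γ : ℝ} (hE1 : S_E1) (hγ : 0 < γ) {g : ℝ → ℂ} (hg : Nice g)

include hg

lemma gg_int : Integrable (fun z : ℝ × ℝ => g (z.1 + z.2) * (starRingEnd ℂ) (g z.1))
    (volume.prod volume) := by
  have h1 : Integrable (fun z : ℝ × ℝ => (starRingEnd ℂ) (g z.1) * g z.2)
      (volume.prod volume) := by
    have hc : Integrable (fun s => (starRingEnd ℂ) (g s)) := by
      refine hg.int.norm.mono' ?_ (Eventually.of_forall fun s => by simp)
      exact (Complex.continuous_conj.comp hg.cont).aestronglyMeasurable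
    exact hc.mul_prod hg.int
  have h2 : MeasurePreserving (fun z : ℝ × ℝ => (z.1, z.1 + z.2)) (volume.prod volume)
      (volume.prod volume) := measurePreserving_prod_add volume volume
  have h3 := h2.integrable_comp_of_integrable h1
  refine h3.congr (Eventually.of_forall fun z => ?_)
  simp only [Function.comp]
  ring

lemma ggj_int (j : ℤ) : Integrable (fun z : ℝ × ℝ => g (z.1 + z.2) * (starRingEnd ℂ) (g z.1) *
    Complex.exp (Complex.I * ((2 * j : ℝ) : ℂ) * ((psi γ (z.1 + z.2) - psi γ z.1 : ℝ) : ℂ)))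
    (volume.prod volume) := by
  refine (gg_int hg).norm.mono' ?_ (Eventually.of_forall fun z => ?_)
  · apply (gg_int hg).aestronglyMeasurable.mul
    apply Continuous.aestronglyMeasurable
    have := psi_cont γ
    fun_prop
  · rw [norm_mul, norm_e, mul_one]

lemma JJ_int (j : ℤ) : Integrable (JJ γ g j) := by
  unfold JJ
  exact (ggj_int (γ := γ) hg j).integral_prod_right

include hγ in
lemma JJ_tendsto : Tendsto (fun j : ℤ => ∫ h, ‖JJ γ g j h‖) cofinite (𝓝 0) := by
  have hb := gg_int hg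
  have h0 : (∫ h : ℝ, (0 : ℝ)) = 0 := by simp
  rw [← h0]
  have hcg : (cofinite : Filter ℤ).IsCountablyGenerated := by
    rw [Int.cofinite_eq]
    infer_instance
  apply tendsto_integral_filter_of_dominated_convergence
    (fun h => ∫ s : ℝ, ‖g (s + h) * (starRingEnd ℂ) (g s)‖)
  · exact Eventually.of_forall fun j => (JJ_int (γ := γ) hg j).norm.aestronglyMeasurable
  · refine Eventually.of_forall fun j => Eventually.of_forall fun h => ?_
    rw [norm_norm]
    unfold JJ
    refine (norm_integral_le_integral_norm _).trans (le_of_eq ?_)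
    apply integral_congr_ae
    refine Eventually.of_forall fun s => ?_
    simp only
    rw [norm_mul _ (Complex.exp _), norm_e, mul_one]
  · exact hb.norm.integral_prod_right
  · have h1 : ∀ᵐ h : ℝ, h ≠ 0 := by
      rw [ae_iff]
      simp
    have h2 : ∀ᵐ h : ℝ, Integrable (fun s : ℝ => g (s + h) * (starRingEnd ℂ) (g s)) :=
      hb.prod_left_ae
    filter_upwards [h1, h2] with h hh hi
    have h3 := rl_full hγ hh hi
    have h4 : Tendsto (fun j : ℤ => ((2 * (j : ℝ)))) cofinite (cocompact ℝ) := by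
      have h5 : Tendsto (fun j : ℤ => (j : ℝ)) cofinite (cocompact ℝ) := Int.tendsto_coe_cofinite
      apply tendsto_cocompact_of_tendsto_dist_comp_atTop (0 : ℝ)
      have h6 : ∀ j : ℤ, dist (2 * (j : ℝ)) 0 = 2 * ‖(j : ℝ)‖ := by
        intro j
        rw [dist_zero_right, norm_mul, Real.norm_of_nonneg (by norm_num)]
      simp_rw [h6]
      exact (tendsto_norm_cocompact_atTop.comp h5).const_mul_atTop (by norm_num)
    have h5 := (h3.comp h4).norm
    rw [norm_zero] at h5
    exact h5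

include hE1 hγ

lemma sq_le (j : ℤ) (r : ℝ) : ‖UU γ g j r‖ ^ 2 ≤ ∫ h, ‖JJ γ g j h‖ := by
  set F : ℝ → ℂ := fun t => g t * om γ t ^ j * Complex.exp (Complex.I * t * r) with hF
  have hFc : Continuous F := by
    have := om_cont hE1 hγ j
    have := hg.cont
    simp only [hF]
    fun_prop
  have hexp : ∀ t : ℝ, ‖Complex.exp (Complex.I * t * r)‖ = 1 := fun t => norm_e t r
  have hFi : Integrable F := by
    refine (G_int hE1 hγ hg j).norm.mono' hFc.aestronglyMeasurable (Eventually.of_forall fun t => ?_)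
    simp only [hF]
    rw [norm_mul _ (Complex.exp _), hexp, mul_one]
  have hU : UU γ g j r = ∫ t, F t := rfl
  have hconj : (starRingEnd ℂ) (∫ t, F t) = ∫ s, (starRingEnd ℂ) (F s) := integral_conj.symm
  have h1 : ((‖UU γ g j r‖ ^ 2 : ℝ) : ℂ) = ∫ s, ∫ h, F (s + h) * (starRingEnd ℂ) (F s) := by
    have e1 : ((‖UU γ g j r‖ ^ 2 : ℝ) : ℂ) = (∫ t, F t) * (starRingEnd ℂ) (∫ t, F t) := by
      rw [← hU, Complex.mul_conj, Complex.normSq_eq_norm_sq]
    rw [e1, hconj, ← integral_const_mul]
    apply integral_congr_ae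
    refine Eventually.of_forall fun s => ?_
    simp only
    rw [integral_mul_const, integral_add_left_eq_self F s]
  have hFF : ∀ s h : ℝ, F (s + h) * (starRingEnd ℂ) (F s) =
      (g (s + h) * (starRingEnd ℂ) (g s) *
        Complex.exp (Complex.I * ((2 * j : ℝ) : ℂ) * ((psi γ (s + h) - psi γ s : ℝ) : ℂ))) *
        Complex.exp (Complex.I * h * r) := by
    intro s h
    rw [← om_shift hE1 hγ s h j]
    simp only [hF, map_mul]
    have : Complex.exp (Complex.I * ((s + h : ℝ) : ℂ) * r) *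
        (starRingEnd ℂ) (Complex.exp (Complex.I * s * r)) = Complex.exp (Complex.I * h * r) := by
      rw [← Complex.exp_conj, ← Complex.exp_add]
      congr 1
      simp only [map_mul, Complex.conj_I, Complex.conj_ofReal]
      push_cast; ring
    rw [← this]; ring
  have hint : Integrable (fun z : ℝ × ℝ => F (z.1 + z.2) * (starRingEnd ℂ) (F z.1))
      (volume.prod volume) := by
    refine (ggj_int (γ := γ) hg j).norm.mono' ?_ (Eventually.of_forall fun z => ?_)
    · apply Continuous.aestronglyMeasurable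
      exact (hFc.comp (by fun_prop)).mul (Complex.continuous_conj.comp (hFc.comp (by fun_prop)))
    · rw [hFF, norm_mul _ (Complex.exp (Complex.I * z.2 * r)), norm_e, mul_one]
  rw [integral_integral_swap (f := fun s h => F (s + h) * (starRingEnd ℂ) (F s)) hint] at h1
  have h2 : ∀ h : ℝ, ∫ s : ℝ, F (s + h) * (starRingEnd ℂ) (F s) =
      JJ γ g j h * Complex.exp (Complex.I * h * r) := by
    intro h
    simp_rw [hFF]
    rw [integral_mul_const]
    rfl
  simp_rw [h2] at h1
  have h3 : ‖UU γ g j r‖ ^ 2 = ‖((‖UU γ g j r‖ ^ 2 : ℝ) : ℂ)‖ := by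
    rw [Complex.norm_real, Real.norm_of_nonneg (by positivity)]
  rw [h3, h1]
  refine (norm_integral_le_integral_norm _).trans (le_of_eq ?_)
  apply integral_congr_ae
  refine Eventually.of_forall fun h => ?_
  simp only
  rw [norm_mul, norm_e, mul_one]

end

end PE3

open PE3 in
theorem t_E3 (hE1 : S_E1) : S_E3 := by
  intro γ hγ g hg ε hε
  have h1 := JJ_tendsto hγ hg
  have h2 : ∀ᶠ j : ℤ in cofinite, ∫ h, ‖JJ γ g j h‖ < ε ^ 2 :=
    h1.eventually (gt_mem_nhds (by positivity))
  rw [Int.cofinite_eq, eventually_sup, eventually_atBot, eventually_atTop] at h2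
  obtain ⟨⟨a, ha⟩, ⟨b, hb⟩⟩ := h2
  refine ⟨max (-a).toNat b.toNat, fun j hj r => ?_⟩
  have h3 : ∫ h, ‖JJ γ g j h‖ < ε ^ 2 := by
    rcases le_total 0 j with h0 | h0
    · apply hb
      rw [abs_of_nonneg h0] at hj
      have : (b.toNat : ℤ) ≤ ((max (-a).toNat b.toNat : ℕ) : ℤ) := by
        exact_mod_cast le_max_right _ _
      have := Int.self_le_toNat b
      omega
    · apply ha
      rw [abs_of_nonpos h0] at hj
      have : ((-a).toNat : ℤ) ≤ ((max (-a).toNat b.toNat : ℕ) : ℤ) := by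
        exact_mod_cast le_max_left _ _
      have := Int.self_le_toNat (-a)
      omega
  have h4 := (sq_le hE1 hγ hg j r).trans h3.le
  exact (pow_le_pow_iff_left₀ (norm_nonneg _) hε.le two_ne_zero).1 h4

end Pool.Agent.T2H99.HY
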