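import Pool.Agent.T2H99.HY.E2
import Pool.Agent.H153R4.Pl

set_option autoImplicit false

noncomputable section

open MeasureTheory Filter Topology FourierTransform
open scoped ENNReal

namespace Pool.Agent.T2H99.HY

namespace PE4

open PE2

lemma exp_sub_le (z : ℂ) : ‖Complex.exp z - Complex.exp (-z)‖ ≤ 2 * ‖z‖ * Real.exp |z.re| := by
  have hd : ∀ s : ℝ, HasDerivAt (fun s : ℝ => Complex.exp ((s : ℂ) * z))
      (Complex.exp ((s : ℂ) * z) * z) s := by
    intro s
    have h1 : HasDerivAt (fun s : ℝ => (s : ℂ) * z) (1 * z) s :=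
      (Complex.ofRealCLM.hasDerivAt (x := s)).mul_const z
    simpa using h1.cexp
  have h := Convex.norm_image_sub_le_of_norm_hasDerivWithin_le (f := fun s : ℝ =>
    Complex.exp ((s : ℂ) * z)) (f' := fun s : ℝ => Complex.exp ((s : ℂ) * z) * z)
    (C := Real.exp |z.re| * ‖z‖) (s := Set.Icc (-1 : ℝ) 1) (x := -1) (y := 1)
    (fun s _ => (hd s).hasDerivWithinAt) ?_ (convex_Icc _ _) (by simp) (by simp)
  · simp only [Complex.ofReal_one, one_mul, Complex.ofReal_neg, neg_mul] at h
    refine h.trans (le_of_eq ?_)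
    have : ‖(1 : ℝ) - -1‖ = 2 := by norm_num
    rw [this]; ring
  · intro s hs
    rw [norm_mul]
    apply mul_le_mul_of_nonneg_right _ (norm_nonneg _)
    rw [Complex.norm_exp]
    apply Real.exp_le_exp.2
    simp only [Complex.mul_re, Complex.ofReal_re, Complex.ofReal_im, zero_mul, sub_zero]
    calc s * z.re ≤ |s * z.re| := le_abs_self _
      _ = |s| * |z.re| := abs_mul _ _
      _ ≤ 1 * |z.re| := by
          apply mul_le_mul_of_nonneg_right _ (abs_nonneg _)
          rw [abs_le]; exact hs
      _ = |z.re| := one_mul _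

end PE4

open PE2 PE4 in
theorem t_E4 (hE1 : S_E1) : S_E4 := by
  intro γ hγ g hg
  have hπ : (0 : ℝ) < 2 * Real.pi := by positivity
  -- the two constants
  set C1 : ℝ := 2 * Real.pi * (∫⁻ t, ‖g t‖ₑ ^ 2).toReal with hC1
  have hgfin : ∫⁻ t, ‖g t‖ₑ ^ 2 < ∞ := by
    have h := hg.l2.eLpNorm_lt_top
    have b2 := eLpNorm_nnreal_pow_eq_lintegral (f := g) (μ := (volume : Measure ℝ)) (p := 2)
      (by norm_num)
    have c1 : (((2 : NNReal) : ℝ≥0∞)) = 2 := by norm_num
    rw [c1] at b2
    simp only [NNReal.coe_ofNat, ENNReal.rpow_ofNat] at b2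
    rw [← b2]
    exact ENNReal.pow_lt_top h
  set C2 : ℝ := Real.exp γ * ∫ t, (γ + |t|) * ‖g t‖ with hC2
  have hi2 : Integrable fun t : ℝ => (γ + |t|) * ‖g t‖ := by
    have h1 := (hg.int.norm.const_mul γ).add hg.int1.norm
    refine h1.congr (Eventually.of_forall fun t => ?_)
    simp only [Pi.add_apply, norm_mul, Complex.norm_real, Real.norm_eq_abs]
    ring
  have hC20 : 0 ≤ C2 := by
    apply mul_nonneg (Real.exp_pos _).le
    apply integral_nonneg
    intro t
    positivity
  have hC10 : 0 ≤ C1 := by positivity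
  refine ⟨C1 + C2 + 1, by positivity, fun j => ⟨UU_cont hE1 hγ hg j, ?_, ?_⟩⟩
  · -- Plancherel
    set G : ℝ → ℂ := fun t => g t * om γ t ^ j with hG
    have hGn : ∀ t, ‖G t‖ = ‖g t‖ := fun t => by
      simp only [hG]; rw [norm_mul, om_zpow hE1 hγ, mul_one]
    have hGi : Integrable G := G_int hE1 hγ hg j
    have hG2 : MemLp G 2 := by
      refine (memLp_congr_norm ?_ hg.l2.aestronglyMeasurable ?_).2 hg.l2
      · exact hGi.aestronglyMeasurable
      · exact Eventually.of_forall hGn
    have hpl := Pool.Agent.H153R4.plancherel G hGi hG2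
    have hUU : ∀ r : ℝ, UU γ g j r = 𝓕 G (r * (-(2 * Real.pi)⁻¹)) := by
      intro r
      unfold UU
      rw [Real.fourier_eq']
      apply integral_congr_ae
      refine Eventually.of_forall fun t => ?_
      simp only [RCLike.inner_apply, conj_trivial, smul_eq_mul, hG]
      rw [mul_comm]
      congr 2
      push_cast
      have : (2 * (Real.pi : ℂ)) ≠ 0 := by exact_mod_cast hπ.ne'
      field_simp
    have hc : (-(2 * Real.pi)⁻¹ : ℝ) ≠ 0 := by
      rw [neg_ne_zero]; exact inv_ne_zero hπ.ne'
    have hcont : Continuous (𝓕 G) := by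
      have := VectorFourier.fourierIntegral_continuous (L := innerₗ ℝ) Real.continuous_fourierChar
        continuous_inner hGi
      exact this
    calc ∫⁻ r, ‖UU γ g j r‖ₑ ^ 2 = ∫⁻ r : ℝ, (fun ξ => ‖𝓕 G ξ‖ₑ ^ 2) (r * (-(2 * Real.pi)⁻¹)) := by
          simp_rw [hUU]
      _ = ∫⁻ ξ, ‖𝓕 G ξ‖ₑ ^ 2 ∂(Measure.map (fun r : ℝ => r * (-(2 * Real.pi)⁻¹)) volume) := by
          rw [lintegral_map]
          · exact (hcont.measurable.enorm.pow_const 2)
          · exact measurable_id.mul_const _
      _ = ENNReal.ofReal (2 * Real.pi) * ∫⁻ t, ‖g t‖ₑ ^ 2 := by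
          rw [Real.map_volume_mul_right hc, lintegral_smul_measure, hpl]
          congr 1
          · rw [inv_neg, inv_inv, abs_neg, abs_of_pos hπ]
          · congr 1
            funext t
            rw [← ofReal_norm_eq_enorm, hGn, ofReal_norm_eq_enorm]
      _ = ENNReal.ofReal C1 := by
          rw [hC1, ENNReal.ofReal_mul hπ.le, ENNReal.ofReal_toReal hgfin.ne]
      _ ≤ ENNReal.ofReal (C1 + C2 + 1) := by
          apply ENNReal.ofReal_le_ofReal; linarith
  · intro r hr0 hr1
    have hexp : ∀ s t : ℝ, ‖Complex.exp (Complex.I * t * s)‖ = 1 := by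
      intro s t
      have : Complex.I * t * s = ((t * s : ℝ) : ℂ) * Complex.I := by push_cast; ring
      rw [this, Complex.norm_exp_ofReal_mul_I]
    have hi : ∀ r : ℝ, Integrable (fun t : ℝ => g t * om γ t ^ j * Complex.exp (Complex.I * t * r)) := by
      intro r
      refine (G_int hE1 hγ hg j).norm.mono' ?_ (Eventually.of_forall fun t => by
        rw [norm_mul, hexp, mul_one])
      exact ((hg.cont.mul (om_cont hE1 hγ j)).mul (by fun_prop)).aestronglyMeasurable
    have h1 : OO γ g j r = ∫ t : ℝ, g t * om γ t ^ j *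
        ((Complex.exp ((γ + Complex.I * t) * r) - Complex.exp (-((γ + Complex.I * t) * r))) / 2) := by
      unfold OO EE UU
      rw [← integral_const_mul, ← integral_const_mul, ← integral_sub ((hi r).const_mul _)
        ((hi (-r)).const_mul _), ← integral_div]
      congr 1
      funext t
      have e1 : Complex.exp ((γ + Complex.I * t) * r) =
          (Real.exp (γ * r) : ℂ) * Complex.exp (Complex.I * t * r) := by
        rw [Complex.ofReal_exp, ← Complex.exp_add]
        congr 1; push_cast; ring
      have e2 : Complex.exp (-((γ + Complex.I * t) * r)) =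
          (Real.exp (γ * -r) : ℂ) * Complex.exp (Complex.I * t * ((-r : ℝ) : ℂ)) := by
        rw [Complex.ofReal_exp, ← Complex.exp_add]
        congr 1; push_cast; ring
      rw [e1, e2]
      ring
    rw [h1]
    calc ‖∫ t : ℝ, g t * om γ t ^ j * ((Complex.exp ((γ + Complex.I * t) * r) -
          Complex.exp (-((γ + Complex.I * t) * r))) / 2)‖
        ≤ ∫ t : ℝ, (Real.exp γ * r) * ((γ + |t|) * ‖g t‖) := by
          apply norm_integral_le_of_norm_le (hi2.const_mul _)
          refine Eventually.of_forall fun t => ?_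
          rw [norm_mul, norm_mul, om_zpow hE1 hγ, mul_one, norm_div]
          have h2 := exp_sub_le ((γ + Complex.I * t) * r)
          have h3 : ‖((γ : ℂ) + Complex.I * t) * r‖ ≤ (γ + |t|) * r := by
            rw [norm_mul, Complex.norm_real, Real.norm_eq_abs, abs_of_nonneg hr0]
            apply mul_le_mul_of_nonneg_right _ hr0
            refine (norm_add_le _ _).trans ?_
            rw [norm_mul, Complex.norm_I, one_mul, Complex.norm_real, Complex.norm_real,
              Real.norm_eq_abs, Real.norm_eq_abs, abs_of_pos hγ]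
          have h4 : (((γ : ℂ) + Complex.I * t) * r).re = γ * r := by simp
          rw [h4] at h2
          have h5 : Real.exp |γ * r| ≤ Real.exp γ := by
            apply Real.exp_le_exp.2
            rw [abs_of_nonneg (by positivity)]
            nlinarith
          have h6 : ‖Complex.exp ((γ + Complex.I * t) * r) -
              Complex.exp (-((γ + Complex.I * t) * r))‖ ≤ 2 * ((γ + |t|) * r) * Real.exp γ := by
            refine h2.trans ?_
            apply mul_le_mul _ h5 (Real.exp_pos _).le (by positivity)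
            linarith
          have h7 : ‖(2 : ℂ)‖ = 2 := by norm_num
          rw [h7]
          calc ‖g t‖ * (‖Complex.exp ((γ + Complex.I * t) * r) -
              Complex.exp (-((γ + Complex.I * t) * r))‖ / 2)
              ≤ ‖g t‖ * (2 * ((γ + |t|) * r) * Real.exp γ / 2) := by
                apply mul_le_mul_of_nonneg_left _ (norm_nonneg _)
                linarith
            _ = (Real.exp γ * r) * ((γ + |t|) * ‖g t‖) := by ring
      _ = C2 * r := by rw [integral_const_mul, hC2]; ring
      _ ≤ (C1 + C2 + 1) * r := by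
          apply mul_le_mul_of_nonneg_right _ hr0; linarith

end Pool.Agent.T2H99.HY
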