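import Pool.Agent.T2H99.HY.C

set_option autoImplicit false

noncomputable section

open MeasureTheory Filter Topology
open scoped ENNReal

namespace Pool.Agent.T2H99.HY

namespace PG

open PC

lemma lf : IsLocallyFiniteMeasure mu := by
  unfold mu
  apply IsLocallyFiniteMeasure.withDensity_ofReal
  have := x0_cont
  exact continuous_const.div this fun x => (x0_pos x).ne'

attribute [local instance] lf

section

variable (p : ℝ) [Fact (1 ≤ ENNReal.ofReal p)]

/-- the generators -/
def gen : Set (Lp ℂ (ENNReal.ofReal p) mu) :=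
  {f : Lp ℂ (ENNReal.ofReal p) mu | ∃ (y : V) (F : ℝ → ℂ),
      ContDiff ℝ (⊤ : ℕ∞) F ∧ HasCompactSupport F ∧ (f : V → ℂ) =ᵐ[mu] fun x => F (ch x y)}

/-- the closed span -/
def MM : Submodule ℂ (Lp ℂ (ENNReal.ofReal p) mu) := (Submodule.span ℂ (gen p)).topologicalClosure

/-- the function represents an element of the closed span -/
def InM (f : V → ℂ) : Prop := ∃ h : MemLp f (ENNReal.ofReal p) mu, h.toLp f ∈ MM p

lemma InM.add {f g : V → ℂ} (hf : InM p f) (hg : InM p g) : InM p (f + g) := by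
  obtain ⟨h1, h2⟩ := hf
  obtain ⟨h3, h4⟩ := hg
  refine ⟨h1.add h3, ?_⟩
  rw [MemLp.toLp_add h1 h3]
  exact (MM p).add_mem h2 h4

lemma InM.smul {f : V → ℂ} (c : ℂ) (hf : InM p f) : InM p (c • f) := by
  obtain ⟨h1, h2⟩ := hf
  refine ⟨h1.const_smul c, ?_⟩
  rw [MemLp.toLp_const_smul c h1]
  exact (MM p).smul_mem c h2

lemma InM.zero : InM p 0 := by
  refine ⟨MemLp.zero, ?_⟩
  rw [MemLp.toLp_zero]
  exact (MM p).zero_mem

lemma InM.sum {ι : Type} (s : Finset ι) (f : ι → V → ℂ) (hf : ∀ i ∈ s, InM p (f i)) :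
    InM p (∑ i ∈ s, f i) := by
  classical
  induction s using Finset.induction_on with
  | empty => simpa using InM.zero p
  | insert a s ha ih =>
    rw [Finset.sum_insert ha]
    exact (hf a (Finset.mem_insert_self a s)).add p
      (ih fun i hi => hf i (Finset.mem_insert_of_mem hi))

/-- a form of dominated convergence -/
lemma InM.of_tendsto {f : ℕ → V → ℂ} {f' : V → ℂ} {B : Set V} (hB : MeasurableSet B)
    (hBf : mu B ≠ ∞) {C : ℝ} (hC : 0 ≤ C) (hf : ∀ n, InM p (f n))
    (hf' : AEStronglyMeasurable f' mu)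
    (hb : ∀ n x, ‖f n x‖ ≤ B.indicator (fun _ => C) x)
    (hlim : ∀ x, Tendsto (fun n => f n x) atTop (𝓝 (f' x))) : InM p f' := by
  have hp1 : (1 : ℝ≥0∞) ≤ ENNReal.ofReal p := Fact.out
  have hp0 : 0 < p := by
    have := lt_of_lt_of_le one_pos hp1
    rwa [ENNReal.ofReal_pos] at this
  have hpe : ENNReal.ofReal p ≠ 0 := (lt_of_lt_of_le one_pos hp1).ne'
  have hpt : ENNReal.ofReal p ≠ ∞ := ENNReal.ofReal_ne_top
  have hb' : ∀ x, ‖f' x‖ ≤ B.indicator (fun _ => C) x := fun x =>
    le_of_tendsto (hlim x).norm (Eventually.of_forall fun n => hb n x)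
  have hmem : MemLp f' (ENNReal.ofReal p) mu :=
    (memLp_indicator_const (ENNReal.ofReal p) hB C (Or.inr hBf)).mono' hf'
      (Eventually.of_forall hb')
  refine ⟨hmem, ?_⟩
  have hcl : IsClosed (MM p : Set (Lp ℂ (ENNReal.ofReal p) mu)) :=
    Submodule.isClosed_topologicalClosure _
  refine hcl.mem_of_tendsto ?_ (Eventually.of_forall fun n => (hf n).2) (b := atTop)
  rw [Lp.tendsto_Lp_iff_tendsto_eLpNorm'' f (fun n => (hf n).1) f' hmem]
  have hn : ∀ n, eLpNorm (f n - f') (ENNReal.ofReal p) mu =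
      (∫⁻ x, ‖f n x - f' x‖ₑ ^ p ∂mu) ^ (1 / p) := by
    intro n
    rw [eLpNorm_eq_lintegral_rpow_enorm_toReal hpe hpt, ENNReal.toReal_ofReal hp0.le]
    rfl
  simp_rw [hn]
  have h1 : Tendsto (fun n => ∫⁻ x, ‖f n x - f' x‖ₑ ^ p ∂mu) atTop (𝓝 (∫⁻ x : V, 0 ∂mu)) := by
    apply tendsto_lintegral_of_dominated_convergence'
      (B.indicator (fun _ => ENNReal.ofReal (2 * C) ^ p))
    · intro n
      exact (((hf n).1.1.sub hf').enorm).pow_const _
    · intro n
      refine Eventually.of_forall fun x => ?_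
      have e1 : ‖f n x - f' x‖ ≤ B.indicator (fun _ => 2 * C) x := by
        refine (norm_sub_le _ _).trans ((add_le_add (hb n x) (hb' x)).trans (le_of_eq ?_))
        by_cases hx : x ∈ B
        · rw [Set.indicator_of_mem hx, Set.indicator_of_mem hx]; ring
        · rw [Set.indicator_of_notMem hx, Set.indicator_of_notMem hx, add_zero]
      show ‖f n x - f' x‖ₑ ^ p ≤ _
      by_cases hx : x ∈ B
      · rw [Set.indicator_of_mem hx] at e1 ⊢
        rw [← ofReal_norm]
        exact ENNReal.rpow_le_rpow (ENNReal.ofReal_le_ofReal e1) hp0.le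
      · rw [Set.indicator_of_notMem hx] at e1 ⊢
        have : ‖f n x - f' x‖ₑ = 0 := by
          rw [← ofReal_norm, ENNReal.ofReal_eq_zero]; exact e1
        rw [this, ENNReal.zero_rpow_of_pos hp0]
    · rw [lintegral_indicator hB, setLIntegral_const]
      exact ENNReal.mul_ne_top (ENNReal.rpow_ne_top_of_nonneg hp0.le ENNReal.ofReal_ne_top) hBf
    · refine Eventually.of_forall fun x => ?_
      have e1 : Tendsto (fun n => f n x - f' x) atTop (𝓝 0) := by
        have := (hlim x).sub_const (f' x)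
        rwa [sub_self] at this
      have e2 := (continuous_enorm.tendsto (0 : ℂ)).comp e1
      rw [enorm_zero] at e2
      have e3 := ((ENNReal.continuous_rpow_const (y := p)).tendsto 0).comp e2
      rw [ENNReal.zero_rpow_of_pos hp0] at e3
      exact e3
  rw [lintegral_zero] at h1
  have h2 := ((ENNReal.continuous_rpow_const (y := 1 / p)).tendsto 0).comp h1
  rw [ENNReal.zero_rpow_of_pos (by positivity)] at h2
  exact h2

end

/-- compactness of hyperbolic balls -/
lemma ch_bound {x y : V} {T R : ℝ} (hT : 0 ≤ T) (hy : ‖y‖ ≤ R) (h : ch x y ≤ T) :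
    ‖x‖ ≤ T * (1 + 2 * R) := by
  have hR : 0 ≤ R := (norm_nonneg _).trans hy
  have h1 : x0 x * (x0 y - ‖y‖) ≤ T := by
    unfold ch at h
    have h2 := real_inner_le_norm x y
    have h3 : ‖x‖ ≤ x0 x := by
      apply le_of_sq_le_sq _ (x0_pos x).le
      rw [x0_sq]; linarith
    nlinarith [norm_nonneg y]
  have h4 : (x0 y - ‖y‖) * (x0 y + ‖y‖) = 1 := by
    have := x0_sq y
    nlinarith
  have h5 : 0 < x0 y + ‖y‖ := by
    have := x0_pos y
    have := norm_nonneg y
    linarith
  have h6 : x0 x ≤ T * (x0 y + ‖y‖) := by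
    calc x0 x = x0 x * (x0 y - ‖y‖) * (x0 y + ‖y‖) := by rw [mul_assoc, h4, mul_one]
      _ ≤ T * (x0 y + ‖y‖) := mul_le_mul_of_nonneg_right h1 h5.le
  have h7 : x0 y ≤ 1 + R := by
    apply le_of_sq_le_sq _ (by linarith)
    rw [x0_sq]
    nlinarith [norm_nonneg y]
  have h8 : ‖x‖ ≤ x0 x := by
    apply le_of_sq_le_sq _ (x0_pos x).le
    rw [x0_sq]; linarith
  calc ‖x‖ ≤ T * (x0 y + ‖y‖) := h8.trans h6
    _ ≤ T * (1 + 2 * R) := by
      apply mul_le_mul_of_nonneg_left _ hT
      linarith

section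

variable (p : ℝ) [Fact (1 ≤ ENNReal.ofReal p)]

/-- radial functions -/
lemma radial_mem {F : ℝ → ℂ} (hF : ContDiff ℝ (⊤ : ℕ∞) F) (hc : HasCompactSupport F) (y : V) :
    InM p (fun x => F (ch x y)) := by
  have hchc : Continuous fun x => ch x y := by unfold ch x0; fun_prop
  have hcont : Continuous fun x => F (ch x y) := hF.continuous.comp hchc
  obtain ⟨T, hT⟩ := hc.isCompact.isBounded.subset_closedBall 0
  have hsupp : HasCompactSupport fun x => F (ch x y) := by
    apply HasCompactSupport.intro (isCompact_closedBall (0 : V) (max T 0 * (1 + 2 * ‖y‖)))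
    intro x hx
    by_contra hne
    apply hx
    have h1 : ch x y ∈ tsupport F := subset_tsupport _ hne
    have h2 := hT h1
    rw [mem_closedBall_zero_iff] at h2 ⊢
    exact ch_bound (le_max_right _ _) le_rfl ((le_abs_self _).trans (h2.trans (le_max_left _ _)))
  have hm : MemLp (fun x => F (ch x y)) (ENNReal.ofReal p) mu :=
    hcont.memLp_of_hasCompactSupport hsupp
  refine ⟨hm, ?_⟩
  apply Submodule.le_topologicalClosure
  apply Submodule.subset_span
  exact ⟨y, F, hF, hc, hm.coeFn_toLp⟩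

/-- convolutions with radial functions -/
lemma conv_mem {φ : V → ℂ} (hφ : Continuous φ) (hφc : HasCompactSupport φ) {ψ : ℝ → ℝ}
    (hψ : ContDiff ℝ (⊤ : ℕ∞) ψ) (hψc : HasCompactSupport ψ) :
    InM p (fun x => ∫ v, φ v * (ψ (ch x v) : ℂ) ∂mu) := by
  obtain ⟨T', hT'⟩ := hψc.isCompact.isBounded.subset_closedBall 0
  obtain ⟨R', hR'⟩ := hφc.isCompact.isBounded.subset_closedBall 0
  set T := max T' 0 with hTd
  set R := max R' 0 with hRd
  have hT0 : 0 ≤ T := le_max_right _ _
  have hR0 : 0 ≤ R := le_max_right _ _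
  have hTs : ∀ t, ψ t ≠ 0 → t ≤ T := by
    intro t ht
    have h2 := hT' (subset_tsupport _ ht)
    rw [mem_closedBall_zero_iff] at h2
    exact (le_abs_self _).trans (h2.trans (le_max_left _ _))
  have hRs : ∀ v, φ v ≠ 0 → ‖v‖ ≤ R := by
    intro v hv
    have h2 := hR' (subset_tsupport _ hv)
    rw [mem_closedBall_zero_iff] at h2
    exact h2.trans (le_max_left _ _)
  obtain ⟨Cφ, hCφ⟩ := hφ.bounded_above_of_compact_support hφc
  obtain ⟨Cψ, hCψ⟩ := hψ.continuous.bounded_above_of_compact_support hψc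
  have hCφ0 : 0 ≤ Cφ := (norm_nonneg _).trans (hCφ 0)
  have hCψ0 : 0 ≤ Cψ := (norm_nonneg _).trans (hCψ 0)
  set A : Set V := Metric.closedBall 0 R with hA
  set B : Set V := Metric.closedBall 0 (T * (1 + 2 * R)) with hB
  have hAm : MeasurableSet A := Metric.isClosed_closedBall.measurableSet
  have hBm : MeasurableSet B := Metric.isClosed_closedBall.measurableSet
  have hAf : mu A ≠ ∞ := (isCompact_closedBall (0 : V) R).measure_lt_top.ne
  have hBf : mu B ≠ ∞ := (isCompact_closedBall (0 : V) _).measure_lt_top.ne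
  set G : V → V → ℂ := fun x v => φ v * (ψ (ch x v) : ℂ) with hG
  have hGc : Continuous fun q : V × V => G q.1 q.2 := by
    apply (hφ.comp continuous_snd).mul
    exact Complex.continuous_ofReal.comp (hψ.continuous.comp ch_cont)
  have hGx : ∀ x, Continuous fun v => G x v := by
    intro x
    have hchx : Continuous fun v => ch x v := by unfold ch x0; fun_prop
    exact hφ.mul (Complex.continuous_ofReal.comp (hψ.continuous.comp hchx))
  have hGb : ∀ x v, ‖G x v‖ ≤ Cφ * Cψ := by
    intro x v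
    simp only [hG]
    rw [norm_mul, Complex.norm_real]
    exact mul_le_mul (hCφ v) (hCψ _) (norm_nonneg _) hCφ0
  have hG0 : ∀ x v, x ∉ B → G x v = 0 := by
    intro x v hx
    by_contra hne
    apply hx
    simp only [hG] at hne
    have h1 := left_ne_zero_of_mul hne
    have h2 := right_ne_zero_of_mul hne
    rw [Complex.ofReal_ne_zero] at h2
    rw [hB, mem_closedBall_zero_iff]
    exact ch_bound hT0 (hRs v h1) (hTs _ h2)
  set σ : ℕ → SimpleFunc V V := fun n =>
    SimpleFunc.approxOn (id : V → V) measurable_id Set.univ 0 (Set.mem_univ _) n with hσ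
  have hσl : ∀ v, Tendsto (fun n => σ n v) atTop (𝓝 v) := by
    intro v
    exact SimpleFunc.tendsto_approxOn measurable_id (Set.mem_univ _) (by simp)
  set f : ℕ → V → ℂ := fun n x => ∫ v in A, G x (σ n v) ∂mu with hf
  have hGσm : ∀ n x, Measurable fun v => G x (σ n v) := by
    intro n x
    exact (hGx x).measurable.comp (σ n).measurable
  have hGσi : ∀ n x, IntegrableOn (fun v => G x (σ n v)) A mu := by
    intro n x
    apply Measure.integrableOn_of_bounded hAf (hGσm n x).aestronglyMeasurable (M := Cφ * Cψ)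
    exact Eventually.of_forall fun v => hGb x _
  have hfM : ∀ n, InM p (f n) := by
    intro n
    have h1 : f n = ∑ w ∈ (σ n).range, (((mu.real (A ∩ (σ n) ⁻¹' {w}) : ℝ) : ℂ) * φ w) •
        fun x => (fun t => (ψ t : ℂ)) (ch x w) := by
      funext x
      rw [Finset.sum_apply]
      simp only [Pi.smul_apply, smul_eq_mul]
      have hU : A = ⋃ w ∈ (σ n).range, A ∩ (σ n) ⁻¹' {w} := by
        ext v
        simp only [Set.mem_iUnion, Set.mem_inter_iff, Set.mem_preimage, Set.mem_singleton_iff,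
          exists_prop]
        constructor
        · intro hv
          exact ⟨σ n v, (σ n).mem_range_self v, hv, rfl⟩
        · rintro ⟨w, -, hv, -⟩
          exact hv
      simp only [hf]
      have h2 : ∫ v in A, G x (σ n v) ∂mu =
          ∫ v in ⋃ w ∈ (σ n).range, A ∩ (σ n) ⁻¹' {w}, G x (σ n v) ∂mu := by rw [← hU]
      rw [h2, integral_biUnion_finset]
      · apply Finset.sum_congr rfl
        intro w _
        have h3 : ∫ v in A ∩ (σ n) ⁻¹' {w}, G x (σ n v) ∂mu =
            ∫ v in A ∩ (σ n) ⁻¹' {w}, G x w ∂mu := by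
          apply setIntegral_congr_fun (hAm.inter ((σ n).measurableSet_fiber w))
          intro v hv
          simp only
          rw [show σ n v = w from hv.2]
        rw [h3, setIntegral_const, Complex.real_smul]
        simp only [hG]
        ring
      · intro w _
        exact hAm.inter ((σ n).measurableSet_fiber w)
      · intro w _ w' _ hne
        apply Set.disjoint_left.2
        intro v hv hv'
        exact hne (hv.2.symm.trans hv'.2)
      · intro w _
        exact (hGσi n x).mono_set Set.inter_subset_left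
    rw [h1]
    apply InM.sum
    intro w _
    apply InM.smul
    exact radial_mem p (F := fun t => (ψ t : ℂ)) (Complex.ofRealCLM.contDiff.comp hψ)
      (hψc.comp_left Complex.ofReal_zero) w
  have hlim : ∀ x, Tendsto (fun n => f n x) atTop (𝓝 (∫ v, φ v * (ψ (ch x v) : ℂ) ∂mu)) := by
    intro x
    have h1 : ∫ v, φ v * (ψ (ch x v) : ℂ) ∂mu = ∫ v in A, G x v ∂mu := by
      symm
      apply setIntegral_eq_integral_of_forall_compl_eq_zero
      intro v hv
      simp only [hG]
      have : φ v = 0 := by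
        by_contra hne
        apply hv
        rw [hA, mem_closedBall_zero_iff]
        exact hRs v hne
      rw [this, zero_mul]
    rw [h1]
    apply tendsto_integral_of_dominated_convergence (fun _ => Cφ * Cψ)
    · intro n
      exact (hGσm n x).aestronglyMeasurable
    · exact integrableOn_const hAf
    · intro n
      exact Eventually.of_forall fun v => hGb x _
    · refine Eventually.of_forall fun v => ?_
      exact ((hGx x).tendsto v).comp (hσl v)
  apply InM.of_tendsto p hBm hBf (C := Cφ * Cψ * mu.real A) (by positivity) hfM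
  · exact aestronglyMeasurable_of_tendsto_ae atTop (fun n => (hfM n).1.1)
      (Eventually.of_forall hlim)
  · intro n x
    by_cases hx : x ∈ B
    · rw [Set.indicator_of_mem hx]
      simp only [hf]
      exact norm_setIntegral_le_of_norm_le_const (lt_top_iff_ne_top.2 hAf) (fun v _ => hGb x _)
    · rw [Set.indicator_of_notMem hx]
      simp only [hf]
      have : ∀ v, G x (σ n v) = 0 := fun v => hG0 x _ hx
      simp_rw [this]
      simp
  · exact hlim

end

/-! ### approximate identity -/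

lemma op : Measure.IsOpenPosMeasure mu := by
  apply Measure.AbsolutelyContinuous.isOpenPosMeasure (μ := volume)
  unfold mu
  apply withDensity_absolutelyContinuous'
  · apply Measurable.aemeasurable
    apply ENNReal.measurable_ofReal.comp
    exact (continuous_const.div x0_cont fun x => (x0_pos x).ne').measurable
  · refine Eventually.of_forall fun x => ?_
    rw [Ne, ENNReal.ofReal_eq_zero, not_le]
    have := x0_pos x
    positivity

attribute [local instance] op

/-- the bump functions -/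
def bmp (m : ℕ) : ContDiffBump (1 : ℝ) where
  rIn := 1 / (2 * ((m : ℝ) + 2))
  rOut := 1 / ((m : ℝ) + 2)
  rIn_pos := by positivity
  rIn_lt_rOut := by
    apply one_div_lt_one_div_of_lt
    · positivity
    · have : (0 : ℝ) ≤ m := Nat.cast_nonneg m
      linarith

lemma bmp_le {m : ℕ} {t : ℝ} (h : bmp m t ≠ 0) : t < 1 + 1 / ((m : ℝ) + 2) := by
  have h1 : t ∈ Function.support (bmp m) := h
  rw [(bmp m).support_eq, Metric.mem_ball, Real.dist_eq] at h1
  have h2 := (abs_lt.1 h1).2
  have h3 : (bmp m).rOut = 1 / ((m : ℝ) + 2) := rfl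
  rw [h3] at h2
  linarith

lemma bmp_le2 {m : ℕ} {t : ℝ} (h : bmp m t ≠ 0) : t ≤ 2 := by
  have h1 := bmp_le h
  have h2 : 1 / ((m : ℝ) + 2) ≤ 1 := by
    rw [div_le_one (by positivity)]
    have : (0 : ℝ) ≤ m := Nat.cast_nonneg m
    linarith
  linarith

lemma x0_bmp_cont (m : ℕ) : Continuous fun u : V => bmp m (x0 u) :=
  (bmp m).continuous.comp x0_cont

lemma x0_bmp_supp (m : ℕ) : HasCompactSupport fun u : V => bmp m (x0 u) := by
  apply HasCompactSupport.intro (isCompact_closedBall (0 : V) 2)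
  intro x hx
  by_contra hne
  apply hx
  rw [mem_closedBall_zero_iff]
  have h1 := bmp_le2 hne
  have h2 : ‖x‖ ≤ x0 x := by
    apply le_of_sq_le_sq _ (x0_pos x).le
    rw [x0_sq]; linarith
  linarith

/-- the normalisation -/
def cm (m : ℕ) : ℝ := ∫ u : V, bmp m (x0 u) ∂mu

lemma x0_bmp_int (m : ℕ) : Integrable (fun u : V => bmp m (x0 u)) mu :=
  (x0_bmp_cont m).integrable_of_hasCompactSupport (x0_bmp_supp m)

lemma cm_pos (m : ℕ) : 0 < cm m := by
  unfold cm
  apply (x0_bmp_cont m).integral_pos_of_hasCompactSupport_nonneg_nonzero (x0_bmp_supp m)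
  · intro u
    exact (bmp m).nonneg
  · show bmp m (x0 0) ≠ 0
    have h1 : x0 0 = 1 := by unfold x0; simp
    rw [h1]
    have : bmp m 1 = 1 := (bmp m).one_of_mem_closedBall (by
      rw [Metric.mem_closedBall, dist_self]
      exact (bmp m).rIn_pos.le)
    rw [this]
    exact one_ne_zero

lemma act_cont (g : (ℝ × V) →ₗ[ℝ] (ℝ × V)) : Continuous (act g) := by
  have h1 : Continuous g := LinearMap.continuous_of_finiteDimensional g
  have h2 : Continuous lift := by
    unfold lift
    exact x0_cont.prodMk continuous_id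
  exact continuous_snd.comp (h1.comp h2)

/-- change of variables by the reflection -/
lemma change (hA : S_A) (x : V) : ∃ a : V → V, Continuous a ∧ a 0 = x ∧
    ∀ (H : V → ℂ) (_ : Continuous H) (m : ℕ),
      ∫ v, H v * (bmp m (ch x v) : ℂ) ∂mu = ∫ u, H (a u) * (bmp m (x0 u) : ℂ) ∂mu := by
  obtain ⟨g, hg, hgg, hg0, hgy⟩ := hA.2.1 x
  obtain ⟨hmp, hlift, hch⟩ := hA.1 g hg
  refine ⟨act g, act_cont g, hg0, fun H hH m => ?_⟩
  have h1 : ∫ v, H v * (bmp m (ch x v) : ℂ) ∂mu =
      ∫ v, H v * (bmp m (ch x v) : ℂ) ∂(Measure.map (act g) mu) := by rw [hmp.map_eq]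
  have hchx : Continuous fun v => ch x v := by unfold ch x0; fun_prop
  have hc : Continuous fun v => H v * (bmp m (ch x v) : ℂ) :=
    hH.mul (Complex.continuous_ofReal.comp ((bmp m).continuous.comp hchx))
  rw [h1, integral_map hmp.measurable.aemeasurable hc.aestronglyMeasurable]
  apply integral_congr_ae
  refine Eventually.of_forall fun u => ?_
  simp only
  have h2 : ch x (act g u) = x0 u := by
    have := hch 0 u
    rw [hg0, zero_ch] at this
    exact this
  rw [h2]

section

variable (p : ℝ) [Fact (1 ≤ ENNReal.ofReal p)]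

lemma phi_mem (hA : S_A) {φ : V → ℂ} (hφ : Continuous φ) (hφc : HasCompactSupport φ) :
    InM p φ := by
  obtain ⟨R', hR'⟩ := hφc.isCompact.isBounded.subset_closedBall 0
  set R := max R' 0 with hRd
  have hR0 : 0 ≤ R := le_max_right _ _
  have hRs : ∀ v, φ v ≠ 0 → ‖v‖ ≤ R := by
    intro v hv
    have h2 := hR' (subset_tsupport _ hv)
    rw [mem_closedBall_zero_iff] at h2
    exact h2.trans (le_max_left _ _)
  obtain ⟨Cφ, hCφ⟩ := hφ.bounded_above_of_compact_support hφc
  have hCφ0 : 0 ≤ Cφ := (norm_nonneg _).trans (hCφ 0)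
  set B : Set V := Metric.closedBall 0 (2 * (1 + 2 * R)) with hB
  have hBm : MeasurableSet B := Metric.isClosed_closedBall.measurableSet
  have hBf : mu B ≠ ∞ := (isCompact_closedBall (0 : V) _).measure_lt_top.ne
  set f : ℕ → V → ℂ := fun m x => ((cm m)⁻¹ : ℂ) * ∫ v, φ v * (bmp m (ch x v) : ℂ) ∂mu with hf
  have hfM : ∀ m, InM p (f m) := fun m =>
    InM.smul p _ (conv_mem p hφ hφc (bmp m).contDiff (bmp m).hasCompactSupport)
  have hint : ∀ m (H : V → ℂ), Continuous H →
      Integrable (fun u => H u * (bmp m (x0 u) : ℂ)) mu := by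
    intro m H hH
    have hc : Continuous fun u => H u * (bmp m (x0 u) : ℂ) :=
      hH.mul (Complex.continuous_ofReal.comp (x0_bmp_cont m))
    apply hc.integrable_of_hasCompactSupport
    have h1 : HasCompactSupport fun u : V => (bmp m (x0 u) : ℂ) :=
      (x0_bmp_supp m).comp_left Complex.ofReal_zero
    exact h1.mul_left
  have hcm : ∀ m, ∫ u : V, (bmp m (x0 u) : ℂ) ∂mu = (cm m : ℂ) := fun m => integral_ofReal
  -- the key estimate
  have key : ∀ m (H : V → ℂ), Continuous H → ∀ ε : ℝ, 0 ≤ ε →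
      (∀ u, bmp m (x0 u) ≠ 0 → ‖H u‖ ≤ ε) →
      ‖((cm m)⁻¹ : ℂ) * ∫ u, H u * (bmp m (x0 u) : ℂ) ∂mu‖ ≤ ε := by
    intro m H hH ε hε hb
    have h1 : ‖∫ u, H u * (bmp m (x0 u) : ℂ) ∂mu‖ ≤ ∫ u, ε * bmp m (x0 u) ∂mu := by
      apply norm_integral_le_of_norm_le ((x0_bmp_int m).const_mul ε)
      refine Eventually.of_forall fun u => ?_
      rw [norm_mul, Complex.norm_real, Real.norm_of_nonneg (bmp m).nonneg]
      by_cases h0 : bmp m (x0 u) = 0
      · rw [h0]; simp
      · exact mul_le_mul_of_nonneg_right (hb u h0) (bmp m).nonneg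
    rw [integral_const_mul] at h1
    have hc := cm_pos m
    rw [norm_mul, norm_inv, Complex.norm_real, Real.norm_of_nonneg hc.le]
    calc (cm m)⁻¹ * ‖∫ u, H u * (bmp m (x0 u) : ℂ) ∂mu‖ ≤ (cm m)⁻¹ * (ε * cm m) :=
          mul_le_mul_of_nonneg_left h1 (by positivity)
      _ = ε := by field_simp
  apply InM.of_tendsto p hBm hBf hCφ0 hfM hφ.aestronglyMeasurable
  · intro m x
    obtain ⟨a, hac, ha0, hch⟩ := change hA x
    by_cases hx : x ∈ B
    · rw [Set.indicator_of_mem hx]
      simp only [hf]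
      rw [hch φ hφ m]
      exact key m (fun u => φ (a u)) (hφ.comp hac) Cφ hCφ0 fun u _ => hCφ _
    · rw [Set.indicator_of_notMem hx]
      simp only [hf]
      have h1 : ∀ v, φ v * (bmp m (ch x v) : ℂ) = 0 := by
        intro v
        by_contra hne
        apply hx
        have h2 := right_ne_zero_of_mul hne
        rw [Complex.ofReal_ne_zero] at h2
        rw [hB, mem_closedBall_zero_iff]
        exact ch_bound (by norm_num) (hRs v (left_ne_zero_of_mul hne)) (bmp_le2 h2)
      simp_rw [h1]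
      simp
  · intro x
    obtain ⟨a, hac, ha0, hch⟩ := change hA x
    rw [Metric.tendsto_atTop]
    intro ε hε
    have hcont : Continuous fun u => φ (a u) - φ x := (hφ.comp hac).sub continuous_const
    have h0 : φ (a 0) - φ x = 0 := by rw [ha0, sub_self]
    obtain ⟨δ, hδ, hδ'⟩ := Metric.continuous_iff.1 hcont 0 (ε / 2) (by positivity)
    obtain ⟨N, hN⟩ := exists_nat_gt (3 / δ ^ 2)
    refine ⟨N, fun m hm => ?_⟩
    have h1 : f m x - φ x = ((cm m)⁻¹ : ℂ) * ∫ u, (φ (a u) - φ x) * (bmp m (x0 u) : ℂ) ∂mu := by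
      simp only [hf]
      rw [hch φ hφ m]
      have h2 : ∫ u, (φ (a u) - φ x) * (bmp m (x0 u) : ℂ) ∂mu =
          (∫ u, φ (a u) * (bmp m (x0 u) : ℂ) ∂mu) - φ x * (cm m : ℂ) := by
        simp_rw [sub_mul]
        have i1 : Integrable (fun u => φ (a u) * (bmp m (x0 u) : ℂ)) mu :=
          hint m (fun u => φ (a u)) (hφ.comp hac)
        have i2 : Integrable (fun u => φ x * (bmp m (x0 u) : ℂ)) mu :=
          hint m (fun _ => φ x) continuous_const
        rw [integral_sub i1 i2, integral_const_mul, hcm]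
      rw [h2]
      have : (cm m : ℂ) ≠ 0 := by exact_mod_cast (cm_pos m).ne'
      field_simp
    rw [dist_eq_norm, h1]
    refine lt_of_le_of_lt (key m _ hcont (ε / 2) (by positivity) fun u hu => ?_) (by linarith)
    have h2 := bmp_le hu
    have h3 := x0_sq u
    have h4 : 1 / ((m : ℝ) + 2) < δ ^ 2 / 3 := by
      rw [div_lt_div_iff₀ (by positivity) (by norm_num)]
      have h5 : (N : ℝ) ≤ m := by exact_mod_cast hm
      have h6 : 3 / δ ^ 2 < (m : ℝ) + 2 := by linarith
      rw [div_lt_iff₀ (by positivity)] at h6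
      linarith
    have h5 : 1 / ((m : ℝ) + 2) ≤ 1 := by
      rw [div_le_one (by positivity)]
      have : (0 : ℝ) ≤ m := Nat.cast_nonneg m
      linarith
    have h6 : 0 < 1 / ((m : ℝ) + 2) := by positivity
    have h7 : ‖u‖ ^ 2 < δ ^ 2 := by
      have h8 : x0 u ^ 2 < (1 + 1 / ((m : ℝ) + 2)) ^ 2 := by
        apply pow_lt_pow_left₀ h2 (x0_pos u).le two_ne_zero
      nlinarith
    have h8 : ‖u‖ < δ := lt_of_pow_lt_pow_left₀ 2 hδ.le h7
    have h9 := hδ' u (by rwa [dist_zero_right])
    rw [h0, dist_zero_right] at h9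
    exact h9.le

end

end PG

open PG in
theorem t_G (hA : S_A) : S_G := by
  intro p hp _
  have hlf := lf
  rw [Submodule.dense_iff_topologicalClosure_eq_top, eq_top_iff]
  intro f _
  have hcl : IsClosed (MM p : Set (Lp ℂ (ENNReal.ofReal p) mu)) :=
    Submodule.isClosed_topologicalClosure _
  have h : f ∈ closure (MM p : Set (Lp ℂ (ENNReal.ofReal p) mu)) := by
    rw [Metric.mem_closure_iff]
    intro ε hε
    obtain ⟨φ, hφc, hφe, hφ, hφm⟩ := (Lp.memLp f).exists_hasCompactSupport_eLpNorm_sub_le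
      ENNReal.ofReal_ne_top (ε := ENNReal.ofReal (ε / 2)) (by
        rw [Ne, ENNReal.ofReal_eq_zero, not_le]; positivity)
    obtain ⟨hm, hM⟩ := phi_mem p hA hφ hφc
    refine ⟨hm.toLp φ, hM, ?_⟩
    rw [dist_eq_norm]
    have e1 : f - hm.toLp φ = ((Lp.memLp f).sub hm).toLp ((f : V → ℂ) - φ) := by
      rw [MemLp.toLp_sub (Lp.memLp f) hm, Lp.toLp_coeFn]
    rw [e1, Lp.norm_toLp]
    have e2 : (eLpNorm ((f : V → ℂ) - φ) (ENNReal.ofReal p) mu).toReal ≤ ε / 2 := by
      apply ENNReal.toReal_le_of_le_ofReal (by positivity) hφe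
    linarith
  rwa [hcl.closure_eq] at h

end Pool.Agent.T2H99.HY
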