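import Pool.Agent.T2H99.HY.Stm

set_option autoImplicit false

noncomputable section

open MeasureTheory Filter Topology

namespace Pool.Agent.T2H99.HY

namespace PH

variable {E : Type} [NormedAddCommGroup E] [NormedSpace ℂ E]

lemma fwd (T : E →L[ℂ] E) (D : Set E)
    (h1 : ∀ x ∈ D, Tendsto (fun n : ℕ => (T ^ n) x) atTop (𝓝 0)) (x : E)
    (hx : x ∈ Submodule.span ℂ D) : Tendsto (fun n : ℕ => (T ^ n) x) atTop (𝓝 0) := by
  induction hx using Submodule.span_induction with
  | mem x h => exact h1 x h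
  | zero => simp
  | add x y _ _ hx hy =>
    simp_rw [map_add]
    simpa using hx.add hy
  | smul a x _ hx =>
    simp_rw [map_smul]
    simpa using hx.const_smul a

lemma bwd (T : E →L[ℂ] E) (D : Set E)
    (h2 : ∀ x ∈ D, ∃ u : ℕ → E, Tendsto u atTop (𝓝 0) ∧ ∀ n, (T ^ n) (u n) = x) (x : E)
    (hx : x ∈ Submodule.span ℂ D) :
    ∃ u : ℕ → E, Tendsto u atTop (𝓝 0) ∧ ∀ n, (T ^ n) (u n) = x := by
  induction hx using Submodule.span_induction with
  | mem x h => exact h2 x h
  | zero => exact ⟨fun _ => 0, tendsto_const_nhds, by simp⟩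
  | add x y _ _ hx hy =>
    obtain ⟨u, hu, hu'⟩ := hx
    obtain ⟨v, hv, hv'⟩ := hy
    exact ⟨fun n => u n + v n, by simpa using hu.add hv, fun n => by rw [map_add, hu', hv']⟩
  | smul a x _ hx =>
    obtain ⟨u, hu, hu'⟩ := hx
    exact ⟨fun n => a • u n, by simpa using hu.const_smul a, fun n => by rw [map_smul, hu']⟩

end PH

theorem t_H : S_H := by
  intro E _ _ _ _ T D hD h1 h2
  -- transitivity
  have htr : ∀ U W : Set E, IsOpen U → U.Nonempty → IsOpen W → W.Nonempty →
      ∃ n : ℕ, ∃ z ∈ W, (T ^ n) z ∈ U := by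
    intro U W hU hUn hW hWn
    obtain ⟨x, hxW, hx⟩ := hD.inter_open_nonempty W hW hWn
    obtain ⟨y, hyU, hy⟩ := hD.inter_open_nonempty U hU hUn
    have hf := PH.fwd T D h1 x hx
    obtain ⟨u, hu, hu'⟩ := PH.bwd T D h2 y hy
    have e1 : ∀ᶠ n in atTop, x + u n ∈ W := by
      have : Tendsto (fun n => x + u n) atTop (𝓝 (x + 0)) := hu.const_add x
      rw [add_zero] at this
      exact this (hW.mem_nhds hxW)
    have e2 : ∀ᶠ n in atTop, (T ^ n) x + y ∈ U := by
      have : Tendsto (fun n => (T ^ n) x + y) atTop (𝓝 (0 + y)) := hf.add_const y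
      rw [zero_add] at this
      exact this (hU.mem_nhds hyU)
    obtain ⟨n, hn1, hn2⟩ := (e1.and e2).exists
    refine ⟨n, x + u n, hn1, ?_⟩
    rw [map_add, hu']
    exact hn2
  -- Baire
  set b := TopologicalSpace.countableBasis E with hb
  have hbb := TopologicalSpace.isBasis_countableBasis E
  have hbc := TopologicalSpace.countable_countableBasis E
  have hd : Dense (⋂ U ∈ b, {f : E | ∃ n : ℕ, (T ^ n) f ∈ U}) := by
    apply dense_biInter_of_isOpen
    · intro U hU
      have : {f : E | ∃ n : ℕ, (T ^ n) f ∈ U} = ⋃ n : ℕ, (T ^ n) ⁻¹' U := by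
        ext f; simp
      rw [this]
      exact isOpen_iUnion fun n => (hbb.isOpen hU).preimage (T ^ n).continuous
    · exact hbc
    · intro U hU
      rw [dense_iff_inter_open]
      intro W hW hWn
      have hUn : U.Nonempty := TopologicalSpace.nonempty_of_mem_countableBasis hU
      obtain ⟨n, z, hz, hz'⟩ := htr U W (hbb.isOpen hU) hUn hW hWn
      exact ⟨z, hz, n, hz'⟩
  obtain ⟨f, hf⟩ := hd.nonempty
  refine ⟨f, ?_⟩
  rw [hbb.dense_iff]
  intro U hU hUn
  simp only [Set.mem_iInter] at hf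
  obtain ⟨n, hn⟩ := hf U hU
  exact ⟨_, hn, n, rfl⟩

end Pool.Agent.T2H99.HY
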