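import Pool.Agent.T2H99.HY.C
import Pool.Agent.T2H99.HY.E2

set_option autoImplicit false

noncomputable section

open MeasureTheory Filter Topology
open scoped ENNReal

namespace Pool.Agent.T2H99.HY

namespace PI

open PC PE2

/-- pointwise bound, small radius -/
lemma pt_small {p : ℝ} (hp : 2 < p) {s S a C M : ℝ} (hs : 0 < s) (hS : s ≤ S)
    (ha : 0 ≤ a) (hM : 0 ≤ M) (hC : 0 < C) (h1 : a ≤ C * s) (h2 : a ≤ Real.exp 1 * M) :
    S ^ 2 * (a / S) ^ p ≤ Real.exp 1 ^ 2 * C ^ (p - 2) * M ^ 2 := by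
  have hSp : 0 < S := by linarith
  have h3 : 0 ≤ a / S := by positivity
  have h4 : a / S ≤ C := by
    rw [div_le_iff₀ hSp]
    nlinarith
  have h5 : (a / S) ^ p = (a / S) ^ 2 * (a / S) ^ (p - 2) := by
    rw [← Real.rpow_two, ← Real.rpow_add_of_nonneg h3 (by norm_num) (by linarith)]
    congr 1; ring
  have h6 : (a / S) ^ (p - 2) ≤ C ^ (p - 2) := Real.rpow_le_rpow h3 h4 (by linarith)
  have h7 : a ^ 2 ≤ (Real.exp 1 * M) ^ 2 := pow_le_pow_left₀ ha h2 2
  calc S ^ 2 * (a / S) ^ p = a ^ 2 * (a / S) ^ (p - 2) := by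
        rw [h5]; field_simp
    _ ≤ (Real.exp 1 * M) ^ 2 * C ^ (p - 2) := by
        apply mul_le_mul h7 h6 (Real.rpow_nonneg h3 _) (by positivity)
    _ = _ := by ring

/-- pointwise bound, large radius -/
lemma pt_large {p : ℝ} (hp : 2 < p) {s S a u v M : ℝ} (hs : 1 ≤ s) (hS : Real.exp s ≤ 4 * S)
    (ha : 0 ≤ a) (hM : 0 ≤ M) (hu : 0 ≤ u) (hv : 0 ≤ v) (huM : u ≤ M) (hvM : v ≤ M)
    (h1 : a ≤ Real.exp ((1 - 2 / p) * s) * ((u + v) / 2)) :
    S ^ 2 * (a / S) ^ p ≤ 4 ^ (p - 2) * M ^ (p - 2) * (u ^ 2 + v ^ 2) := by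
  have hSp : 0 < S := by
    have := Real.exp_pos s
    linarith
  have hp0 : 0 < p := by linarith
  set E := Real.exp ((1 - 2 / p) * s) with hE
  have hEp : 0 < E := Real.exp_pos _
  set b := a / E with hb
  have hb0 : 0 ≤ b := by positivity
  have hb1 : b ≤ (u + v) / 2 := by
    rw [hb, div_le_iff₀ hEp, mul_comm]; exact h1
  have hbM : b ≤ M := by linarith
  have e1 : a / S = b * (E / S) := by rw [hb]; field_simp
  have e2 : S ^ 2 * (E / S) ^ p = (Real.exp s / S) ^ (p - 2) := by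
    have e3 : E ^ p = Real.exp s ^ (p - 2) := by
      rw [hE, ← Real.exp_mul, ← Real.exp_mul]
      congr 1; field_simp
    rw [Real.div_rpow hEp.le hSp.le, Real.div_rpow (Real.exp_pos _).le hSp.le, e3,
      Real.rpow_sub hSp, Real.rpow_two]
    have : S ^ p ≠ 0 := (Real.rpow_pos_of_pos hSp p).ne'
    field_simp
  have e4 : (Real.exp s / S) ^ (p - 2) ≤ 4 ^ (p - 2) := by
    apply Real.rpow_le_rpow (by positivity) _ (by linarith)
    rw [div_le_iff₀ hSp]; exact hS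
  have e5 : b ^ p = b ^ 2 * b ^ (p - 2) := by
    rw [← Real.rpow_two, ← Real.rpow_add_of_nonneg hb0 (by norm_num) (by linarith)]
    congr 1; ring
  have e6 : b ^ (p - 2) ≤ M ^ (p - 2) := Real.rpow_le_rpow hb0 hbM (by linarith)
  have e7 : b ^ 2 ≤ u ^ 2 + v ^ 2 := by
    have : b ^ 2 ≤ ((u + v) / 2) ^ 2 := pow_le_pow_left₀ hb0 hb1 2
    nlinarith [sq_nonneg (u - v)]
  calc S ^ 2 * (a / S) ^ p = b ^ p * (S ^ 2 * (E / S) ^ p) := by
        rw [e1, Real.mul_rpow hb0 (by positivity)]; ring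
    _ ≤ (b ^ 2 * b ^ (p - 2)) * 4 ^ (p - 2) := by
        rw [e2, e5]
        exact mul_le_mul_of_nonneg_left e4 (by positivity)
    _ ≤ ((u ^ 2 + v ^ 2) * M ^ (p - 2)) * 4 ^ (p - 2) := by
        apply mul_le_mul_of_nonneg_right _ (by positivity)
        apply mul_le_mul e7 e6 (by positivity) (by positivity)
    _ = _ := by ring

lemma sinh_ge {s : ℝ} (hs : 1 ≤ s) : Real.exp s ≤ 4 * Real.sinh s := by
  rw [Real.sinh_eq]
  have h1 : Real.exp (-s) * Real.exp s = 1 := by rw [← Real.exp_add]; simp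
  have h2 : 2 < Real.exp s := by
    have := Real.add_one_lt_exp (show s ≠ 0 by linarith)
    linarith
  have h3 := Real.exp_pos (-s)
  nlinarith

/-- the law of the distance -/
lemma dist_law (hA : S_A) (hZ : S_Z) (y : V) (P : ℝ → ℝ≥0∞) (hP : Measurable P) :
    ∫⁻ x, P (dd x y) ∂mu = ∫⁻ s in Set.Ioi (0 : ℝ), ENNReal.ofReal (4 * Real.pi * Real.sinh s ^ 2)
      * P s := by
  obtain ⟨g, hg, hgg, hg0, hgy⟩ := hA.2.1 y
  obtain ⟨hmp, hlift, hch⟩ := hA.1 g hg
  have h1 : ∫⁻ x, P (dd x y) ∂mu = ∫⁻ x, P (dd x 0) ∂mu := by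
    have hm : Measurable fun x => P (dd x 0) := hP.comp (ddr_meas 0)
    rw [← hmp.lintegral_comp hm]
    apply lintegral_congr
    intro x
    have : dd (act g x) 0 = dd x y := by
      rw [← hgy]; unfold dd; rw [hch]
    rw [this]
  rw [h1]
  have he : ‖(EuclideanSpace.single 0 1 : V)‖ = 1 := by simp
  have h2 := zonal hZ he (fun q => P q.1) (hP.comp measurable_fst)
  simp only at h2
  rw [h2]
  apply setLIntegral_congr_fun measurableSet_Ioi
  intro s hs
  simp only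
  have hss : 0 < Real.sinh s := Real.sinh_pos_iff.2 hs
  rw [setLIntegral_const, Real.volume_Ioo, mul_comm (P s), ← mul_assoc, ← ENNReal.ofReal_mul
    (by positivity)]
  congr 2
  ring

section

variable {γ : ℝ} {g : ℝ → ℂ}

lemma OO_le (hγ : 0 < γ) (j : ℤ) {s : ℝ} (hs : 0 ≤ s) :
    ‖OO γ g j s‖ ≤ Real.exp (γ * s) * ((‖UU γ g j s‖ + ‖UU γ g j (-s)‖) / 2) := by
  unfold OO EE
  rw [norm_div, Complex.norm_ofNat, mul_div_assoc']
  apply div_le_div_of_nonneg_right _ (by norm_num)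
  refine (norm_sub_le _ _).trans ?_
  rw [norm_mul, norm_mul, Complex.norm_real, Complex.norm_real, Real.norm_of_nonneg
    (Real.exp_pos _).le, Real.norm_of_nonneg (Real.exp_pos _).le, mul_add]
  have : Real.exp (γ * -s) ≤ Real.exp (γ * s) := by
    apply Real.exp_le_exp.2
    nlinarith
  have h2 := mul_le_mul_of_nonneg_right this (norm_nonneg (UU γ g j (-s)))
  linarith

lemma UU_le (hE1 : S_E1) (hγ : 0 < γ) (hg : Nice g) (j : ℤ) (r : ℝ) :
    ‖UU γ g j r‖ ≤ ∫ t, ‖g t‖ := by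
  unfold UU
  refine (norm_integral_le_integral_norm _).trans (le_of_eq ?_)
  apply integral_congr_ae
  refine Eventually.of_forall fun t => ?_
  simp only
  have : ‖Complex.exp (Complex.I * t * r)‖ = 1 := by
    have : Complex.I * t * r = ((t * r : ℝ) : ℂ) * Complex.I := by push_cast; ring
    rw [this, Complex.norm_exp_ofReal_mul_I]
  rw [norm_mul, norm_mul, om_zpow hE1 hγ, mul_one, this, mul_one]

end

/-- the main bound -/
lemma bound (hA : S_A) (hZ : S_Z) (hE1 : S_E1) {p : ℝ} (hp : 2 < p) {g : ℝ → ℂ} (hg : Nice g)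
    (y : V) {C : ℝ} (hC : 0 < C) (j : ℤ)
    (hl2 : ∫⁻ r, ‖UU (1 - 2 / p) g j r‖ₑ ^ 2 ≤ ENNReal.ofReal C)
    (hsm : ∀ r : ℝ, 0 ≤ r → r ≤ 1 → ‖OO (1 - 2 / p) g j r‖ ≤ C * r)
    {M : ℝ} (hM : ∀ r : ℝ, ‖UU (1 - 2 / p) g j r‖ ≤ M) :
    ∫⁻ x, ‖rad (1 - 2 / p) g j y x‖ₑ ^ p ∂mu ≤
      ENNReal.ofReal (4 * Real.pi * (Real.exp 1 ^ 2 * C ^ (p - 2)) * M ^ 2 +
        8 * Real.pi * 4 ^ (p - 2) * C * M ^ (p - 2)) := by
  set γ := 1 - 2 / p with hγdef
  have hp0 : 0 < p := by linarith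
  have hγ : 0 < γ := by
    have : 2 / p < 1 := by rw [div_lt_one hp0]; exact hp
    rw [hγdef]; linarith
  have hγ1 : γ < 1 := by
    have : 0 < 2 / p := by positivity
    rw [hγdef]; linarith
  have hM0 : 0 ≤ M := (norm_nonneg _).trans (hM 0)
  have hEc := EE_cont hE1 hγ hg j
  have hUc := UU_cont hE1 hγ hg j
  have hOc : Continuous (OO γ g j) := by
    unfold OO
    exact (hEc.sub (hEc.comp continuous_neg)).div_const 2
  set P : ℝ → ℝ≥0∞ := fun s => ‖OO γ g j s / (Real.sinh s : ℂ)‖ₑ ^ p with hP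
  have hPm : Measurable P := by
    have h1 : Measurable fun s => OO γ g j s / (Real.sinh s : ℂ) :=
      hOc.measurable.div (Complex.measurable_ofReal.comp Real.continuous_sinh.measurable)
    exact h1.enorm.pow_const _
  have h0 : ∫⁻ x, ‖rad γ g j y x‖ₑ ^ p ∂mu = ∫⁻ x, P (dd x y) ∂mu := rfl
  rw [h0, dist_law hA hZ y P hPm]
  set K1 : ℝ := 4 * Real.pi * (Real.exp 1 ^ 2 * C ^ (p - 2)) * M ^ 2 with hK1
  set K2 : ℝ := 4 * Real.pi * 4 ^ (p - 2) * M ^ (p - 2) with hK2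
  have hπ := Real.pi_pos
  have hK10 : 0 ≤ K1 := by positivity
  have hK20 : 0 ≤ K2 := by positivity
  have hpt : ∀ s ∈ Set.Ioi (0 : ℝ), ENNReal.ofReal (4 * Real.pi * Real.sinh s ^ 2) * P s ≤
      (Set.Ioc (0 : ℝ) 1).indicator (fun _ => ENNReal.ofReal K1) s +
        ENNReal.ofReal K2 * (‖UU γ g j s‖ₑ ^ 2 + ‖UU γ g j (-s)‖ₑ ^ 2) := by
    intro s hs
    have hs0 : 0 < s := hs
    have hss : 0 < Real.sinh s := Real.sinh_pos_iff.2 hs
    have hPs : P s = ENNReal.ofReal ((‖OO γ g j s‖ / Real.sinh s) ^ p) := by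
      simp only [hP]
      rw [← ofReal_norm, norm_div, Complex.norm_real, Real.norm_of_nonneg hss.le,
        ENNReal.ofReal_rpow_of_nonneg (by positivity) hp0.le]
    rw [hPs, ← ENNReal.ofReal_mul (by positivity)]
    have hO := OO_le (g := g) hγ j hs0.le
    by_cases h1 : s ≤ 1
    · rw [Set.indicator_of_mem (show s ∈ Set.Ioc (0 : ℝ) 1 from ⟨hs0, h1⟩)]
      refine le_trans ?_ le_self_add
      apply ENNReal.ofReal_le_ofReal
      have hO2 : ‖OO γ g j s‖ ≤ Real.exp 1 * M := by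
        refine hO.trans ?_
        apply mul_le_mul
        · apply Real.exp_le_exp.2
          nlinarith
        · linarith [hM s, hM (-s)]
        · positivity
        · positivity
      have := pt_small hp hs0 (Real.self_le_sinh_iff.2 hs0.le) (norm_nonneg _) hM0 hC
        (hsm s hs0.le h1) hO2
      calc 4 * Real.pi * Real.sinh s ^ 2 * (‖OO γ g j s‖ / Real.sinh s) ^ p =
          4 * Real.pi * (Real.sinh s ^ 2 * (‖OO γ g j s‖ / Real.sinh s) ^ p) := by ring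
        _ ≤ 4 * Real.pi * (Real.exp 1 ^ 2 * C ^ (p - 2) * M ^ 2) := by
            apply mul_le_mul_of_nonneg_left this (by positivity)
        _ = K1 := by rw [hK1]; ring
    · rw [Set.indicator_of_notMem (show s ∉ Set.Ioc (0 : ℝ) 1 from fun h => h1 h.2), zero_add]
      rw [not_le] at h1
      have := pt_large hp h1.le (sinh_ge h1.le) (norm_nonneg _) hM0 (norm_nonneg _)
        (norm_nonneg _) (hM s) (hM (-s)) hO
      have e : ENNReal.ofReal K2 * (‖UU γ g j s‖ₑ ^ 2 + ‖UU γ g j (-s)‖ₑ ^ 2) =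
          ENNReal.ofReal (K2 * (‖UU γ g j s‖ ^ 2 + ‖UU γ g j (-s)‖ ^ 2)) := by
        rw [ENNReal.ofReal_mul hK20, ENNReal.ofReal_add (by positivity) (by positivity),
          ENNReal.ofReal_pow (norm_nonneg _), ENNReal.ofReal_pow (norm_nonneg _), ofReal_norm,
          ofReal_norm]
      rw [e]
      apply ENNReal.ofReal_le_ofReal
      calc 4 * Real.pi * Real.sinh s ^ 2 * (‖OO γ g j s‖ / Real.sinh s) ^ p =
          4 * Real.pi * (Real.sinh s ^ 2 * (‖OO γ g j s‖ / Real.sinh s) ^ p) := by ring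
        _ ≤ 4 * Real.pi * (4 ^ (p - 2) * M ^ (p - 2) *
            (‖UU γ g j s‖ ^ 2 + ‖UU γ g j (-s)‖ ^ 2)) := by
            apply mul_le_mul_of_nonneg_left this (by positivity)
        _ = _ := by rw [hK2]; ring
  have hUm : Measurable fun s => ‖UU γ g j s‖ₑ ^ 2 := hUc.measurable.enorm.pow_const _
  have hUm' : Measurable fun s => ‖UU γ g j (-s)‖ₑ ^ 2 :=
    (hUc.comp continuous_neg).measurable.enorm.pow_const _
  calc ∫⁻ s in Set.Ioi (0 : ℝ), ENNReal.ofReal (4 * Real.pi * Real.sinh s ^ 2) * P s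
      ≤ ∫⁻ s in Set.Ioi (0 : ℝ), ((Set.Ioc (0 : ℝ) 1).indicator (fun _ => ENNReal.ofReal K1) s +
        ENNReal.ofReal K2 * (‖UU γ g j s‖ₑ ^ 2 + ‖UU γ g j (-s)‖ₑ ^ 2)) :=
        setLIntegral_mono' measurableSet_Ioi hpt
    _ ≤ ∫⁻ s, ((Set.Ioc (0 : ℝ) 1).indicator (fun _ => ENNReal.ofReal K1) s +
        ENNReal.ofReal K2 * (‖UU γ g j s‖ₑ ^ 2 + ‖UU γ g j (-s)‖ₑ ^ 2)) :=
        setLIntegral_le_lintegral _ _
    _ = ENNReal.ofReal K1 + ENNReal.ofReal K2 * ((∫⁻ s, ‖UU γ g j s‖ₑ ^ 2) +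
        ∫⁻ s, ‖UU γ g j (-s)‖ₑ ^ 2) := by
        rw [lintegral_add_left (measurable_const.indicator measurableSet_Ioc),
          lintegral_indicator measurableSet_Ioc, setLIntegral_const, Real.volume_Ioc,
          lintegral_const_mul' _ _ ENNReal.ofReal_ne_top, lintegral_add_left hUm]
        congr 1
        simp
    _ = ENNReal.ofReal K1 + ENNReal.ofReal K2 * ((∫⁻ s, ‖UU γ g j s‖ₑ ^ 2) +
        ∫⁻ s, ‖UU γ g j s‖ₑ ^ 2) := by
        congr 3
        exact (Measure.measurePreserving_neg volume).lintegral_comp hUm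
    _ ≤ ENNReal.ofReal K1 + ENNReal.ofReal K2 * (ENNReal.ofReal C + ENNReal.ofReal C) := by
        gcongr
    _ = _ := by
        rw [← ENNReal.ofReal_add hC.le hC.le, ← ENNReal.ofReal_mul hK20,
          ← ENNReal.ofReal_add hK10 (by positivity)]
        congr 1
        rw [hK2]; ring

end PI

open PC PE2 PI in
theorem t_I (hA : S_A) (hZ : S_Z) (hE1 : S_E1) (hE3 : S_E3) (hE4 : S_E4) : S_I := by
  intro p hp g hg y
  have hp0 : 0 < p := by linarith
  set γ := 1 - 2 / p with hγdef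
  have hγ : 0 < γ := by
    have : 2 / p < 1 := by rw [div_lt_one hp0]; exact hp
    rw [hγdef]; linarith
  obtain ⟨C, hC, hE⟩ := hE4 γ hγ g hg
  have hpe : ENNReal.ofReal p ≠ 0 := by
    rw [Ne, ENNReal.ofReal_eq_zero]; linarith
  have hpt : ENNReal.ofReal p ≠ ∞ := ENNReal.ofReal_ne_top
  have hnorm : ∀ f : V → ℂ, eLpNorm f (ENNReal.ofReal p) mu = (∫⁻ x, ‖f x‖ₑ ^ p ∂mu) ^ (1 / p) := by
    intro f
    rw [eLpNorm_eq_lintegral_rpow_enorm_toReal hpe hpt, ENNReal.toReal_ofReal hp0.le]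
  have hmeas : ∀ j, AEStronglyMeasurable (rad γ g j y) mu := by
    intro j
    apply Measurable.aestronglyMeasurable
    have hEc := EE_cont hE1 hγ hg j
    have hOc : Continuous (OO γ g j) := by
      unfold OO
      exact (hEc.sub (hEc.comp continuous_neg)).div_const 2
    have h1 : Measurable fun s => OO γ g j s / (Real.sinh s : ℂ) :=
      hOc.measurable.div (Complex.measurable_ofReal.comp Real.continuous_sinh.measurable)
    exact h1.comp (ddr_meas y)
  constructor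
  · intro j
    refine ⟨hmeas j, ?_⟩
    rw [hnorm]
    apply ENNReal.rpow_lt_top_of_nonneg (by positivity)
    have := bound hA hZ hE1 hp hg y hC j (hE j).2.1 (hE j).2.2 (UU_le hE1 hγ hg j)
    exact (lt_of_le_of_lt this ENNReal.ofReal_lt_top).ne
  · intro ε hε
    set A1 : ℝ := 4 * Real.pi * (Real.exp 1 ^ 2 * C ^ (p - 2)) with hA1
    set A2 : ℝ := 8 * Real.pi * 4 ^ (p - 2) * C with hA2
    have hcont : Tendsto (fun M : ℝ => A1 * M ^ 2 + A2 * M ^ (p - 2)) (𝓝[>] 0) (𝓝 0) := by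
      have hc : Continuous fun M : ℝ => A1 * M ^ 2 + A2 * M ^ (p - 2) := by
        apply Continuous.add (by fun_prop)
        apply Continuous.mul continuous_const
        exact Real.continuous_rpow_const (by linarith)
      have h1 := hc.tendsto 0
      have h2 : A1 * (0 : ℝ) ^ 2 + A2 * (0 : ℝ) ^ (p - 2) = 0 := by
        rw [Real.zero_rpow (by linarith)]; ring
      rw [h2] at h1
      exact h1.mono_left nhdsWithin_le_nhds
    have hev : ∀ᶠ M : ℝ in 𝓝[>] 0, A1 * M ^ 2 + A2 * M ^ (p - 2) < ε ^ p :=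
      hcont.eventually (gt_mem_nhds (Real.rpow_pos_of_pos hε p))
    obtain ⟨M, hM1, hM2⟩ := (hev.and self_mem_nhdsWithin).exists
    obtain ⟨N, hN⟩ := hE3 γ hγ g hg M hM2
    refine ⟨N, fun j hj => ?_⟩
    have h1 := bound hA hZ hE1 hp hg y hC j (hE j).2.1 (hE j).2.2 (hN j hj)
    rw [hnorm]
    have h2 : ∫⁻ x, ‖rad γ g j y x‖ₑ ^ p ∂mu ≤ ENNReal.ofReal ε ^ p := by
      refine h1.trans ?_
      rw [ENNReal.ofReal_rpow_of_nonneg hε.le hp0.le]
      exact ENNReal.ofReal_le_ofReal hM1.le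
    calc (∫⁻ x, ‖rad γ g j y x‖ₑ ^ p ∂mu) ^ (1 / p) ≤ (ENNReal.ofReal ε ^ p) ^ (1 / p) :=
          ENNReal.rpow_le_rpow h2 (by positivity)
      _ = ENNReal.ofReal ε := by
          rw [← ENNReal.rpow_mul, mul_one_div_cancel hp0.ne', ENNReal.rpow_one]

end Pool.Agent.T2H99.HY
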