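import Pool.Agent.T2H99.HY.Stm

set_option autoImplicit false

noncomputable section

open MeasureTheory Filter Topology FourierTransform SchwartzMap
open scoped ContDiff

namespace Pool.Agent.T2H99.HY

theorem t_J : S_J := by
  intro γ B hB hBc
  set b : ℝ → ℂ := fun r => (Real.exp (-(γ * r)) : ℂ) * B r with hb
  have hb1 : ContDiff ℝ (⊤ : ℕ∞) b := by
    apply ContDiff.mul _ hB
    have : ContDiff ℝ (⊤ : ℕ∞) fun r : ℝ => Real.exp (-(γ * r)) := by fun_prop
    exact Complex.ofRealCLM.contDiff.comp this
  have hb2 : HasCompactSupport b := hBc.mul_left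
  set bS : 𝓢(ℝ, ℂ) := hb2.toSchwartzMap hb1 with hbS
  have hbSx : ∀ x, bS x = b x := fun x => rfl
  set fS : 𝓢(ℝ, ℂ) := 𝓕 bS with hfS
  have hpi : (2 * Real.pi : ℝ) ≠ 0 := by positivity
  set g : ℝ → ℂ := fun t => (1 / (2 * Real.pi) : ℝ) • fS (t / (2 * Real.pi)) with hg
  have hint : Integrable fS := fS.integrable
  have hint1 : Integrable (fun x : ℝ => x * fS x) := by
    have h := fS.integrable_pow_mul (μ := volume) 1
    refine h.mono' ?_ ?_
    · exact (Complex.continuous_ofReal.mul fS.continuous).aestronglyMeasurable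
    · refine Eventually.of_forall fun x => ?_
      simp
  refine ⟨g, ⟨?_, ?_, ?_, ?_⟩, ?_⟩
  · have h0 : Continuous fun t : ℝ => fS (t / (2 * Real.pi)) :=
      fS.continuous.comp (continuous_id.div_const _)
    exact h0.const_smul (1 / (2 * Real.pi) : ℝ)
  · exact (hint.comp_div hpi).smul (1 / (2 * Real.pi) : ℝ)
  · have h := hint1.comp_div hpi
    refine (h.smul (1 : ℝ)).congr ?_
    refine Eventually.of_forall fun t => ?_
    simp only [hg, one_smul, Complex.real_smul]
    push_cast
    have : (2 * (Real.pi : ℂ)) ≠ 0 := by exact_mod_cast hpi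
    field_simp
  · have h2 : MemLp fS 2 := fS.memLp 2
    have h3 : MemLp (fun t : ℝ => fS (t / (2 * Real.pi))) 2 := by
      have hm : Measurable fun t : ℝ => t / (2 * Real.pi) := measurable_id.div_const _
      have hmap : Measure.map (fun t : ℝ => t / (2 * Real.pi)) volume =
          ENNReal.ofReal (2 * Real.pi) • (volume : Measure ℝ) := by
        have h := Real.map_volume_mul_right (a := (2 * Real.pi)⁻¹) (inv_ne_zero hpi)
        have h4 : (fun t : ℝ => t / (2 * Real.pi)) = fun t => t * (2 * Real.pi)⁻¹ := by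
          funext t; rw [div_eq_mul_inv]
        rw [h4, h, inv_inv, abs_of_pos (by positivity)]
      have h5 : MemLp fS 2 (Measure.map (fun t : ℝ => t / (2 * Real.pi)) volume) := by
        rw [hmap]
        exact h2.smul_measure ENNReal.ofReal_ne_top
      exact h5.comp_of_map hm.aemeasurable
    exact h3.const_smul (1 / (2 * Real.pi) : ℝ)
  · intro r
    unfold EE UU
    have h1 : ∫ t : ℝ, g t * om γ t ^ (0 : ℤ) * Complex.exp (Complex.I * t * r) = b r := by
      have e1 : ∀ t : ℝ, g t * om γ t ^ (0 : ℤ) * Complex.exp (Complex.I * t * r) =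
          (1 / (2 * Real.pi) : ℝ) • (fun ξ : ℝ => fS ξ *
            Complex.exp (((2 * Real.pi * (ξ * r) : ℝ) : ℂ) * Complex.I)) (t / (2 * Real.pi)) := by
        intro t
        simp only [hg, zpow_zero, mul_one, Complex.real_smul]
        have : Complex.I * t * r =
            ((2 * Real.pi * (t / (2 * Real.pi) * r) : ℝ) : ℂ) * Complex.I := by
          push_cast
          have : (2 * (Real.pi : ℂ)) ≠ 0 := by exact_mod_cast hpi
          field_simp
        rw [this]
        ring
      simp_rw [e1]
      rw [integral_smul]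
      rw [Measure.integral_comp_div (fun ξ : ℝ => fS ξ *
            Complex.exp (((2 * Real.pi * (ξ * r) : ℝ) : ℂ) * Complex.I)) (2 * Real.pi)]
      rw [abs_of_pos (by positivity), smul_smul, one_div, inv_mul_cancel₀ hpi, one_smul]
      have h2 : (𝓕⁻ fS) r = b r := by
        rw [hfS, FourierTransform.fourierInv_fourier_eq, hbSx]
      rw [← h2, SchwartzMap.fourierInv_coe, Real.fourierInv_eq']
      apply integral_congr_ae
      refine Eventually.of_forall fun ξ => ?_
      simp only [RCLike.inner_apply, conj_trivial, smul_eq_mul]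
      rw [mul_comm r ξ]
      ring_nf
    rw [h1]
    simp only [hb]
    rw [← mul_assoc, ← Complex.ofReal_mul, ← Real.exp_add, add_neg_cancel, Real.exp_zero]
    simp

end Pool.Agent.T2H99.HY
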