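import Pool.Agent.T2H99.HY.Stm

set_option autoImplicit false

noncomputable section

open MeasureTheory Filter Topology
open scoped ENNReal

namespace Pool.Agent.T2H99.HY.Main

open Pool.Agent.T2H99.HY

lemma dd_self (hA : S_A) (x : V) : dd x x = 0 := by
  have h : ch x x = 1 := by
    unfold ch x0
    rw [real_inner_self_eq_norm_sq, ← pow_two, Real.sq_sqrt (by positivity)]
    ring
  unfold dd
  rw [h, Real.arcosh_zero]

lemma dd_comm (hA : S_A) (x y : V) : dd x y = dd y x := by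
  unfold dd; rw [(hA.2.2 x y).2.1]

lemma dd_nonneg (hA : S_A) (x y : V) : 0 ≤ dd x y := Real.arcosh_nonneg (hA.2.2 x y).1

lemma dd_pos (hA : S_A) {x y : V} (h : x ≠ y) : 0 < dd x y := by
  apply Real.arcosh_pos
  rcases lt_or_eq_of_le (hA.2.2 x y).1 with h1 | h1
  · exact h1
  · exact absurd ((hA.2.2 x y).2.2 h1.symm) h

lemma cosh_dd (hA : S_A) (x y : V) : Real.cosh (dd x y) = ch x y := Real.cosh_arcosh (hA.2.2 x y).1

lemma mu_singleton (y : V) : mu {y} = 0 := by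
  unfold mu
  exact withDensity_absolutelyContinuous _ _ (measure_singleton y)

lemma x0_pos (x : V) : 0 < x0 x := by
  unfold x0; positivity

lemma x0_cont : Continuous x0 := by
  unfold x0; fun_prop

instance : SigmaFinite mu := by
  unfold mu
  infer_instance

/-- the vectors of the orbits -/
def vv (hI : S_I) {p : ℝ} (hp : 2 < p) {g : ℝ → ℂ} (hg : Nice g) (y : V) (j : ℤ) :
    Lp ℂ (ENNReal.ofReal p) mu :=
  ((hI p hp g hg y).1 j).toLp (rad (1 - 2 / p) g j y)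

lemma vv_coe (hI : S_I) {p : ℝ} (hp : 2 < p) {g : ℝ → ℂ} (hg : Nice g) (y : V) (j : ℤ) :
    (vv hI hp hg y j : V → ℂ) =ᵐ[mu] rad (1 - 2 / p) g j y :=
  MemLp.coeFn_toLp _

lemma gam_pos {p : ℝ} (hp : 2 < p) : 0 < 1 - 2 / p := by
  have : 2 / p < 1 := by rw [div_lt_one (by linarith)]; exact hp
  linarith

lemma gam_lt {p : ℝ} (hp : 2 < p) : 1 - 2 / p < 1 := by
  have : 0 < 2 / p := by positivity
  linarith

/-- one step of the orbit -/
lemma step (hA : S_A) (hC1 : S_C1) (hE2 : S_E2) (hI : S_I) {p : ℝ} (hp : 2 < p)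
    [Fact (1 ≤ ENNReal.ofReal p)]
    (S : Lp ℂ (ENNReal.ofReal p) mu →L[ℂ] Lp ℂ (ENNReal.ofReal p) mu)
    (hS : ∀ f : Lp ℂ (ENNReal.ofReal p) mu,
        (∀ᵐ x ∂mu, Integrable (fun w : V => (kk (1 - 2 / p) (dd x w) : ℂ) * f w) mu) ∧
        (S f : V → ℂ) =ᵐ[mu] fun x => ∫ w : V, (kk (1 - 2 / p) (dd x w) : ℂ) * f w ∂mu)
    {g : ℝ → ℂ} (hg : Nice g) (y : V) (j : ℤ) :
    vv hI hp hg y j - S (vv hI hp hg y j) = vv hI hp hg y (j + 1) := by
  have hγ := gam_pos hp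
  obtain ⟨hc, ho, hconv⟩ := hE2 _ hγ g hg j
  apply Lp.ext
  have hne : ∀ᵐ x ∂mu, x ≠ y := by
    rw [ae_iff]
    simp only [ne_eq, not_not]
    exact mu_singleton y
  filter_upwards [Lp.coeFn_sub (vv hI hp hg y j) (S (vv hI hp hg y j)), (hS (vv hI hp hg y j)).2,
    vv_coe hI hp hg y j, vv_coe hI hp hg y (j + 1), hne] with x h1 h2 h3 h4 h5
  rw [h1, Pi.sub_apply, h2, h3, h4]
  have h6 : ∫ w : V, (kk (1 - 2 / p) (dd x w) : ℂ) * (vv hI hp hg y j : V → ℂ) w ∂mu =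
      ∫ w : V, (kk (1 - 2 / p) (dd x w) : ℂ) *
        (OO (1 - 2 / p) g j (dd w y) / (Real.sinh (dd w y) : ℂ)) ∂mu := by
    apply integral_congr_ae
    filter_upwards [vv_coe hI hp hg y j] with w hw
    rw [hw]
    rfl
  rw [h6, (hC1 _ hγ _ hc ho x y h5 (hconv _).1).2, (hconv _).2]
  unfold rad
  ring

lemma nonneg_p {p : ℝ} (hp : 2 < p) : (0 : ℝ) ≤ p := by linarith

/-- radial functions are values of `vv` -/
lemma radial_eq (hA : S_A) (hI : S_I) (hJ : S_J) {p : ℝ} (hp : 2 < p)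
    [Fact (1 ≤ ENNReal.ofReal p)] (f : Lp ℂ (ENNReal.ofReal p) mu)
    (y : V) (F : ℝ → ℂ) (hF : ContDiff ℝ (⊤ : ℕ∞) F) (hFc : HasCompactSupport F)
    (hf : (f : V → ℂ) =ᵐ[mu] fun x => F (ch x y)) :
    ∃ (g : ℝ → ℂ) (hg : Nice g), f = vv hI hp hg y 0 := by
  set γ := 1 - 2 / p with hγ
  set B : ℝ → ℂ := fun r => (Real.sinh r : ℂ) * F (Real.cosh r) with hB
  have hB1 : ContDiff ℝ (⊤ : ℕ∞) B := by
    apply ContDiff.mul
    · exact Complex.ofRealCLM.contDiff.comp Real.contDiff_sinh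
    · exact hF.comp Real.contDiff_cosh
  have hB2 : HasCompactSupport B := by
    obtain ⟨R, hR⟩ : ∃ R : ℝ, ∀ c, R < |c| → F c = 0 := by
      obtain ⟨R, hR⟩ := hFc.isCompact.isBounded.subset_closedBall (0 : ℝ)
      refine ⟨R, fun c hc => ?_⟩
      by_contra h
      have := hR (subset_tsupport F h)
      rw [Metric.mem_closedBall, dist_zero_right, Real.norm_eq_abs] at this
      linarith
    apply HasCompactSupport.of_support_subset_isCompact (isCompact_closedBall (0 : ℝ) R)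
    intro r hr
    rw [Metric.mem_closedBall, dist_zero_right, Real.norm_eq_abs]
    by_contra h
    apply hr
    have h1 : R < |Real.cosh r| := by
      rw [abs_of_pos (Real.cosh_pos _)]
      have h2 : |r| < Real.cosh |r| := by
        have h3 : |r| ≤ Real.sinh |r| := Real.self_le_sinh_iff.2 (abs_nonneg r)
        exact lt_of_le_of_lt h3 (Real.sinh_lt_cosh _)
      rw [Real.cosh_abs] at h2
      linarith
    simp only [hB, hR _ h1, mul_zero]
  obtain ⟨g, hg, hgB⟩ := hJ γ B hB1 hB2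
  refine ⟨g, hg, ?_⟩
  apply Lp.ext
  have hne : ∀ᵐ x ∂mu, x ≠ y := by
    rw [ae_iff]
    simp only [ne_eq, not_not]
    exact mu_singleton y
  filter_upwards [hf, vv_coe hI hp hg y 0, hne] with x h1 h2 h3
  rw [h1, h2]
  have hpos := dd_pos hA h3
  have hs : (Real.sinh (dd x y) : ℂ) ≠ 0 := by
    have := Real.sinh_pos_iff.2 hpos
    exact_mod_cast this.ne'
  unfold rad OO
  rw [hgB, hgB]
  simp only [hB, Real.sinh_neg, Real.cosh_neg, cosh_dd hA]
  field_simp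
  push_cast
  ring

/-- the operator `T = 1 - S` is hypercyclic -/
theorem main (hA : S_A) (hC1 : S_C1) (hE2 : S_E2) (hI : S_I) (hJ : S_J)
    (hG : S_G) (hH : S_H) {p : ℝ} (hp : 2 < p) [Fact (1 ≤ ENNReal.ofReal p)]
    (S : Lp ℂ (ENNReal.ofReal p) mu →L[ℂ] Lp ℂ (ENNReal.ofReal p) mu)
    (hS : ∀ f : Lp ℂ (ENNReal.ofReal p) mu,
        (∀ᵐ x ∂mu, Integrable (fun w : V => (kk (1 - 2 / p) (dd x w) : ℂ) * f w) mu) ∧
        (S f : V → ℂ) =ᵐ[mu] fun x => ∫ w : V, (kk (1 - 2 / p) (dd x w) : ℂ) * f w ∂mu) :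
    ∃ f : Lp ℂ (ENNReal.ofReal p) mu,
      Dense (Set.range fun n : ℕ => ((1 - S) ^ n) f) := by
  haveI : Fact (ENNReal.ofReal p ≠ ⊤) := ⟨ENNReal.ofReal_ne_top⟩
  have hstep : ∀ {g : ℝ → ℂ} (hg : Nice g) (y : V) (j : ℤ),
      (1 - S) (vv hI hp hg y j) = vv hI hp hg y (j + 1) := by
    intro g hg y j
    exact step hA hC1 hE2 hI hp S hS hg y j
  have hpow : ∀ {g : ℝ → ℂ} (hg : Nice g) (y : V) (n : ℕ) (j : ℤ),
      ((1 - S) ^ n) (vv hI hp hg y j) = vv hI hp hg y (j + n) := by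
    intro g hg y n
    induction n with
    | zero => intro j; simp
    | succ n ih =>
      intro j
      rw [pow_succ, ContinuousLinearMap.mul_apply, hstep, ih]
      congr 1
      push_cast
      ring
  have hlim : ∀ {g : ℝ → ℂ} (hg : Nice g) (y : V) (a : ℕ → ℤ), (∀ n, |a n| = n) →
      Tendsto (fun n => vv hI hp hg y (a n)) atTop (𝓝 0) := by
    intro g hg y a ha
    rw [tendsto_zero_iff_norm_tendsto_zero, Metric.tendsto_atTop]
    intro ε hε
    obtain ⟨N, hN⟩ := (hI p hp g hg y).2 (ε / 2) (by positivity)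
    refine ⟨N, fun n hn => ?_⟩
    have h1 := hN (a n) (by rw [ha]; exact_mod_cast hn)
    rw [dist_zero_right, norm_norm]
    have h2 : ‖vv hI hp hg y (a n)‖ ≤ ε / 2 := by
      unfold vv
      rw [Lp.norm_toLp]
      exact ENNReal.toReal_le_of_le_ofReal (by positivity) h1
    linarith
  refine hH _ (1 - S) _ (hG p (by linarith)) ?_ ?_
  · rintro f ⟨y, F, hF, hFc, hf⟩
    obtain ⟨g, hg, rfl⟩ := radial_eq hA hI hJ hp f y F hF hFc hf
    simp_rw [hpow hg y]
    apply hlim hg y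
    intro n
    simp
  · rintro f ⟨y, F, hF, hFc, hf⟩
    obtain ⟨g, hg, rfl⟩ := radial_eq hA hI hJ hp f y F hF hFc hf
    refine ⟨fun n => vv hI hp hg y (-(n : ℤ)), hlim hg y _ (by intro n; simp), fun n => ?_⟩
    rw [hpow hg y]
    simp

end Pool.Agent.T2H99.HY.Main
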