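import Pool.Agent.T2H99.HY.Stm

set_option autoImplicit false

noncomputable section

open MeasureTheory Filter Topology
open scoped ENNReal

namespace Pool.Agent.T2H99.HY

namespace PZ

lemma x0_cont : Continuous x0 := by unfold x0; fun_prop

lemma x0_pos (x : V) : 0 < x0 x := by unfold x0; positivity

/-- the coordinates -/
def Psi (x : V) : ℝ × ℝ × ℝ := (x 0, x 1, x 2)

lemma Psi_mp : MeasurePreserving Psi volume volume := by
  have h1 := EuclideanSpace.volume_preserving_symm_measurableEquiv_toLp (Fin 3)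
  have h2 := volume_preserving_piFinSuccAbove (fun _ : Fin 3 => ℝ) 0
  have h3 : MeasurePreserving (Prod.map (id : ℝ → ℝ) (MeasurableEquiv.finTwoArrow (α := ℝ)))
      volume volume := (MeasurePreserving.id volume).prod (volume_preserving_finTwoArrow ℝ)
  have h4 := h3.comp (h2.comp h1)
  exact h4

lemma norm_sq (x : V) : ‖x‖ ^ 2 = (x 0) ^ 2 + ((x 1) ^ 2 + (x 2) ^ 2) := by
  rw [EuclideanSpace.real_norm_sq_eq, Fin.sum_univ_three]
  ring

/-- integration of functions of `x_0` and `x_1² + x_2²` -/
lemma lint_cyl (H : ℝ → ℝ → ℝ≥0∞) (hH : Measurable (Function.uncurry H)) :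
    ∫⁻ x : V, H (x 0) ((x 1) ^ 2 + (x 2) ^ 2) =
      ∫⁻ z : ℝ, ENNReal.ofReal (2 * Real.pi) *
        ∫⁻ ρ in Set.Ioi (0 : ℝ), ENNReal.ofReal ρ * H z (ρ ^ 2) := by
  have h1 : ∫⁻ x : V, H (x 0) ((x 1) ^ 2 + (x 2) ^ 2) =
      ∫⁻ q : ℝ × ℝ × ℝ, H q.1 (q.2.1 ^ 2 + q.2.2 ^ 2) := by
    rw [← Psi_mp.lintegral_comp]
    · rfl
    · have hq : Measurable fun q : ℝ × ℝ × ℝ => (q.1, q.2.1 ^ 2 + q.2.2 ^ 2) := by fun_prop
      exact hH.comp hq
  rw [h1, Measure.volume_eq_prod, lintegral_prod _ (by
    apply Measurable.aemeasurable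
    have hq : Measurable fun q : ℝ × ℝ × ℝ => (q.1, q.2.1 ^ 2 + q.2.2 ^ 2) := by fun_prop
    exact hH.comp hq)]
  apply lintegral_congr
  intro z
  simp only
  rw [← lintegral_comp_polarCoord_symm (fun q : ℝ × ℝ => H z (q.1 ^ 2 + q.2 ^ 2))]
  have h2 : ∀ p : ℝ × ℝ, ENNReal.ofReal p.1 • H z ((polarCoord.symm p).1 ^ 2 +
      (polarCoord.symm p).2 ^ 2) = ENNReal.ofReal p.1 * H z (p.1 ^ 2) * 1 := by
    intro p
    rw [polarCoord_symm_apply]
    simp only [smul_eq_mul, mul_one]
    congr 2
    have := Real.cos_sq_add_sin_sq p.2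
    nlinarith
  simp_rw [h2]
  rw [polarCoord_target, Measure.volume_eq_prod, ← Measure.prod_restrict]
  rw [lintegral_prod_mul (f := fun ρ : ℝ => ENNReal.ofReal ρ * H z (ρ ^ 2)) (g := fun _ : ℝ => 1)]
  · rw [lintegral_one, Measure.restrict_apply_univ, Real.volume_Ioo, mul_comm]
    congr 2
    ring
  · apply Measurable.aemeasurable
    apply Measurable.mul (by fun_prop)
    exact hH.comp (measurable_const.prodMk (by fun_prop))
  · fun_prop

/-- the substitution `ρ² + z² = sinh² b` -/
lemma subst (z : ℝ) (P : ℝ → ℝ≥0∞) :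
    ∫⁻ ρ in Set.Ioi (0 : ℝ), ENNReal.ofReal ρ * (ENNReal.ofReal (1 / Real.sqrt (1 + (z ^ 2 + ρ ^ 2))) *
        P (Real.arcosh (Real.sqrt (1 + (z ^ 2 + ρ ^ 2))))) =
      ∫⁻ b in {b : ℝ | 0 < b ∧ |z| < Real.sinh b}, ENNReal.ofReal (Real.sinh b) * P b := by
  set S : Set ℝ := {b : ℝ | 0 < b ∧ |z| < Real.sinh b} with hS
  have hSm : MeasurableSet S := by
    apply MeasurableSet.inter
    · exact measurableSet_Ioi
    · exact measurableSet_lt measurable_const Real.continuous_sinh.measurable
  set f : ℝ → ℝ := fun b => Real.sqrt (Real.sinh b ^ 2 - z ^ 2) with hf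
  have hpos : ∀ b ∈ S, 0 < Real.sinh b ^ 2 - z ^ 2 := by
    intro b hb
    have := pow_lt_pow_left₀ hb.2 (abs_nonneg z) two_ne_zero
    rw [sq_abs] at this
    linarith
  have hsinh : ∀ b ∈ S, 0 < Real.sinh b := fun b hb => Real.sinh_pos_iff.2 hb.1
  have hder : ∀ b ∈ S, HasDerivWithinAt f
      (Real.sinh b * Real.cosh b / Real.sqrt (Real.sinh b ^ 2 - z ^ 2)) S b := by
    intro b hb
    have h1 : HasDerivAt (fun b : ℝ => Real.sinh b ^ 2 - z ^ 2)
        (2 * Real.sinh b * Real.cosh b) b := by
      have := ((Real.hasDerivAt_sinh b).fun_pow 2).sub_const (z ^ 2)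
      simpa using this
    have h2 := h1.sqrt (hpos b hb).ne'
    refine (h2.congr_deriv ?_).hasDerivWithinAt
    field_simp
  have hinj : Set.InjOn f S := by
    intro a ha b hb hab
    simp only [hf] at hab
    rw [Real.sqrt_inj (hpos a ha).le (hpos b hb).le] at hab
    have h1 : Real.sinh a ^ 2 = Real.sinh b ^ 2 := by linarith
    have h2 := (pow_left_inj₀ (hsinh a ha).le (hsinh b hb).le two_ne_zero).1 h1
    exact Real.sinh_injective h2
  have himg : f '' S = Set.Ioi 0 := by
    ext ρ
    constructor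
    · rintro ⟨b, hb, rfl⟩
      exact Real.sqrt_pos.2 (hpos b hb)
    · intro hρ
      simp only [Set.mem_Ioi] at hρ
      refine ⟨Real.arsinh (Real.sqrt (z ^ 2 + ρ ^ 2)), ⟨?_, ?_⟩, ?_⟩
      · rw [Real.arsinh_pos_iff]
        exact Real.sqrt_pos.2 (by positivity)
      · rw [Real.sinh_arsinh, ← Real.sqrt_sq_eq_abs]
        apply Real.sqrt_lt_sqrt (sq_nonneg _)
        nlinarith
      · simp only [hf]
        rw [Real.sinh_arsinh, Real.sq_sqrt (by positivity), add_sub_cancel_left, Real.sqrt_sq hρ.le]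
  have key := lintegral_image_eq_lintegral_abs_deriv_mul hSm hder hinj
    (fun ρ => ENNReal.ofReal ρ * (ENNReal.ofReal (1 / Real.sqrt (1 + (z ^ 2 + ρ ^ 2))) *
        P (Real.arcosh (Real.sqrt (1 + (z ^ 2 + ρ ^ 2))))))
  rw [himg] at key
  rw [key]
  apply setLIntegral_congr_fun hSm
  intro b hb
  simp only
  have h1 : 1 + (z ^ 2 + f b ^ 2) = Real.cosh b ^ 2 := by
    simp only [hf]
    rw [Real.sq_sqrt (hpos b hb).le, Real.cosh_sq]; ring
  have hfb : 0 < Real.sqrt (Real.sinh b ^ 2 - z ^ 2) := Real.sqrt_pos.2 (hpos b hb)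
  have hch := Real.cosh_pos b
  have hsh := hsinh b hb
  rw [h1, Real.sqrt_sq hch.le, Real.arcosh_cosh hb.1.le, ← mul_assoc, ← mul_assoc]
  congr 1
  rw [abs_of_nonneg (by positivity), ← ENNReal.ofReal_mul (by positivity),
    ← ENNReal.ofReal_mul (by positivity)]
  congr 1
  simp only [hf]
  field_simp

end PZ

open PZ in
theorem t_Z : S_Z := by
  intro e he
  set S : Set (ℝ × ℝ) := {q : ℝ × ℝ | 0 < q.1 ∧ |q.2| < Real.sinh q.1} with hS
  have hSm : MeasurableSet S := by
    apply MeasurableSet.inter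
    · exact measurableSet_lt measurable_const measurable_fst
    · exact measurableSet_lt (measurable_snd.abs) (Real.continuous_sinh.measurable.comp measurable_fst)
  have hac : Measurable fun x : V => Real.arcosh (x0 x) := by
    have : Continuous fun x : V => Real.arcosh (x0 x) := by
      apply Real.continuousOn_arcosh.comp_continuous x0_cont
      intro x
      simp only [Set.mem_Ici]
      unfold x0
      rw [Real.one_le_sqrt]
      nlinarith [sq_nonneg ‖x‖]
    exact this.measurable
  have hmap : Measurable fun x : V => (Real.arcosh (x0 x), inner ℝ x e) :=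
    hac.prodMk (by fun_prop)
  apply Measure.ext_of_lintegral
  intro P hP
  rw [lintegral_map hP hmap, lintegral_withDensity_eq_lintegral_mul _ (by fun_prop) hP]
  -- rotation
  set e0 : V := EuclideanSpace.single 0 1 with he0
  have hn : ‖e‖ = ‖e0‖ := by rw [he, he0]; simp
  set L : V ≃ₗᵢ[ℝ] V := (ℝ ∙ (e - e0))ᗮ.reflection with hL
  have hLe : L e = e0 := Submodule.reflection_sub hn
  have h1 : ∫⁻ x : V, P (Real.arcosh (x0 x), inner ℝ x e) ∂mu =
      ∫⁻ x : V, ENNReal.ofReal (1 / x0 x) * P (Real.arcosh (x0 x), x 0) := by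
    unfold mu
    have hd : Measurable fun x : V => ENNReal.ofReal (1 / x0 x) :=
      ENNReal.measurable_ofReal.comp (measurable_const.div x0_cont.measurable)
    have hw := lintegral_withDensity_eq_lintegral_mul volume hd (hP.comp hmap)
    simp only [Function.comp_apply] at hw
    rw [hw]
    · rw [← L.measurePreserving.lintegral_comp]
      · apply lintegral_congr
        intro x
        simp only [Pi.mul_apply, Function.comp]
        have e1 : x0 (L x) = x0 x := by unfold x0; rw [L.norm_map]
        have e2 : inner ℝ (L x) e = x 0 := by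
          have hLL : L (L x) = x := by
            rw [hL]; exact Submodule.reflection_reflection _ _
          rw [← L.inner_map_map, hLe, hLL, he0, EuclideanSpace.inner_single_right]
          simp
        rw [e1, e2]
      · apply Measurable.mul
        · exact ENNReal.measurable_ofReal.comp (measurable_const.div x0_cont.measurable)
        · exact hP.comp (hac.prodMk (by fun_prop))
  rw [h1]
  have h2 : ∀ x : V, ENNReal.ofReal (1 / x0 x) * P (Real.arcosh (x0 x), x 0) =
      (fun z u : ℝ => ENNReal.ofReal (1 / Real.sqrt (1 + (z ^ 2 + u))) *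
        P (Real.arcosh (Real.sqrt (1 + (z ^ 2 + u))), z)) (x 0) ((x 1) ^ 2 + (x 2) ^ 2) := by
    intro x
    unfold x0
    rw [norm_sq]
  have harc : Measurable Real.arcosh := by
    unfold Real.arcosh
    fun_prop
  refine (lintegral_congr h2).trans ?_
  rw [lint_cyl (fun z u : ℝ => ENNReal.ofReal (1 / Real.sqrt (1 + (z ^ 2 + u))) *
        P (Real.arcosh (Real.sqrt (1 + (z ^ 2 + u))), z))]
  · have h3 : ∀ z : ℝ, ∫⁻ ρ in Set.Ioi (0 : ℝ), ENNReal.ofReal ρ *
        (ENNReal.ofReal (1 / Real.sqrt (1 + (z ^ 2 + ρ ^ 2))) *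
        P (Real.arcosh (Real.sqrt (1 + (z ^ 2 + ρ ^ 2))), z)) =
        ∫⁻ b in {b : ℝ | 0 < b ∧ |z| < Real.sinh b}, ENNReal.ofReal (Real.sinh b) * P (b, z) :=
      fun z => subst z (fun b => P (b, z))
    simp_rw [h3]
    rw [← lintegral_indicator hSm, Measure.volume_eq_prod, lintegral_prod_symm]
    · apply lintegral_congr
      intro z
      have hm : MeasurableSet {b : ℝ | 0 < b ∧ |z| < Real.sinh b} := by
        apply MeasurableSet.inter
        · exact measurableSet_Ioi
        · exact measurableSet_lt measurable_const Real.continuous_sinh.measurable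
      rw [← lintegral_indicator hm, ← lintegral_const_mul']
      · apply lintegral_congr
        intro b
        by_cases hb : 0 < b ∧ |z| < Real.sinh b
        · rw [Set.indicator_of_mem (by exact hb), Set.indicator_of_mem (by exact hb)]
          simp only [Pi.mul_apply]
          rw [← mul_assoc, ← ENNReal.ofReal_mul (by positivity)]
        · rw [Set.indicator_of_notMem (by exact hb), Set.indicator_of_notMem (by exact hb), mul_zero]
      · exact ENNReal.ofReal_ne_top
    · apply Measurable.aemeasurable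
      apply Measurable.indicator _ hSm
      apply Measurable.mul _ hP
      fun_prop
  · apply Measurable.mul
    · fun_prop
    · apply hP.comp
      apply Measurable.prodMk
      · exact harc.comp (by fun_prop)
      · exact measurable_fst

end Pool.Agent.T2H99.HY
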