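import Pool.Agent.T2H99.HY.A
import Pool.Agent.T2H99.HY.Z
import Pool.Agent.T2H99.HY.B1
import Pool.Agent.T2H99.HY.B2
import Pool.Agent.T2H99.HY.D3
import Pool.Agent.T2H99.HY.E1
import Pool.Agent.T2H99.HY.E2
import Pool.Agent.T2H99.HY.E3
import Pool.Agent.T2H99.HY.E4
import Pool.Agent.T2H99.HY.I
import Pool.Agent.T2H99.HY.J
import Pool.Agent.T2H99.HY.G
import Pool.Agent.T2H99.HY.H
import Pool.Agent.T2H99.HY.Main

set_option autoImplicit false

noncomputable section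

open MeasureTheory Filter Topology
open scoped ENNReal

namespace Pool.Agent.T2H99.HY.Final

open Pool.Agent.T2H99.HY PC PC2 PD

/-! ### all packages -/

lemma sA : S_A := t_A
lemma sZ : S_Z := t_Z
lemma sB1 : S_B1 := t_B1
lemma sB2 : S_B2 := t_B2 sB1
lemma sC1 : S_C1 := t_C1 sA sZ sB1
lemma sC2 : S_C2 := t_C2 sA sZ sB1
lemma sD : S_D := t_D sA sB1 sC2
lemma sE1 : S_E1 := t_E1
lemma sE2 : S_E2 := t_E2 sB1 sB2 sE1
lemma sE3 : S_E3 := t_E3 sE1
lemma sE4 : S_E4 := t_E4 sE1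
lemma sI : S_I := t_I sA sZ sE1 sE3 sE4
lemma sJ : S_J := t_J
lemma sG : S_G := t_G sA
lemma sH : S_H := t_H

/-! ### the symbol -/

lemma nsq_cosh (z : ℂ) :
    Complex.normSq (Complex.cosh z) = Real.sinh z.re ^ 2 + Real.cos z.im ^ 2 := by
  have h : Complex.cosh z = ((Real.cosh z.re * Real.cos z.im : ℝ) : ℂ) +
      ((Real.sinh z.re * Real.sin z.im : ℝ) : ℂ) * Complex.I := by
    conv_lhs => rw [← Complex.re_add_im z]
    rw [Complex.cosh_add, Complex.cosh_mul_I, Complex.sinh_mul_I]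
    push_cast
    ring
  rw [h, Complex.normSq_add_mul_I]
  have h1 := Real.cosh_sq z.re
  have h2 := Real.sin_sq_add_cos_sq z.im
  nlinarith

lemma nsq_sinh (z : ℂ) :
    Complex.normSq (Complex.sinh z) = Real.sinh z.re ^ 2 + Real.sin z.im ^ 2 := by
  have h : Complex.sinh z = ((Real.sinh z.re * Real.cos z.im : ℝ) : ℂ) +
      ((Real.cosh z.re * Real.sin z.im : ℝ) : ℂ) * Complex.I := by
    conv_lhs => rw [← Complex.re_add_im z]
    rw [Complex.sinh_add, Complex.cosh_mul_I, Complex.sinh_mul_I]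
    push_cast
    ring
  rw [h, Complex.normSq_add_mul_I]
  have h1 := Real.cosh_sq z.re
  have h2 := Real.sin_sq_add_cos_sq z.im
  nlinarith

lemma cosh_ne {z : ℂ} (hz : |z.im| < Real.pi / 2) : Complex.cosh z ≠ 0 := by
  intro h
  have h1 := nsq_cosh z
  rw [h, map_zero] at h1
  obtain ⟨h2, h3⟩ := abs_lt.1 hz
  have h4 : 0 < Real.cos z.im := Real.cos_pos_of_mem_Ioo ⟨h2, h3⟩
  nlinarith [sq_nonneg (Real.sinh z.re)]

lemma norm_tanh_le {z : ℂ} (hz : |z.im| ≤ Real.pi / 4) : ‖Complex.tanh z‖ ≤ 1 := by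
  have hπ := Real.pi_pos
  have h0 : Complex.cosh z ≠ 0 := cosh_ne (by linarith)
  rw [Complex.tanh_eq_sinh_div_cosh, norm_div, div_le_one (norm_pos_iff.2 h0)]
  apply le_of_sq_le_sq _ (norm_nonneg _)
  rw [← Complex.normSq_eq_norm_sq, ← Complex.normSq_eq_norm_sq, nsq_cosh, nsq_sinh]
  obtain ⟨h2, h3⟩ := abs_le.1 hz
  have h4 : 0 ≤ Real.cos (2 * z.im) :=
    Real.cos_nonneg_of_neg_pi_div_two_le_of_le (by linarith) (by linarith)
  rw [Real.cos_two_mul] at h4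
  have h5 := Real.sin_sq_add_cos_sq z.im
  nlinarith

/-- the symbol `tanh² (π λ / 4 γ)` -/
def sym (γ : ℝ) (l : ℂ) : ℂ := Complex.tanh (Real.pi * l / (4 * γ)) ^ 2

lemma arg_im {γ : ℝ} (hγ : 0 < γ) (l : ℂ) :
    (Real.pi * l / (4 * γ) : ℂ).im = Real.pi / (4 * γ) * l.im := by
  have : (Real.pi * l / (4 * γ) : ℂ) = ((Real.pi / (4 * γ) : ℝ) : ℂ) * l := by
    push_cast; ring
  rw [this, Complex.im_ofReal_mul]

lemma arg_im_abs {γ : ℝ} (hγ : 0 < γ) (l : ℂ) :
    |(Real.pi * l / (4 * γ) : ℂ).im| = Real.pi / (4 * γ) * |l.im| := by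
  have hπ := Real.pi_pos
  rw [arg_im hγ, abs_mul, abs_of_pos (by positivity : 0 < Real.pi / (4 * γ))]

lemma sym_le {γ : ℝ} (hγ : 0 < γ) {l : ℂ} (hl : |l.im| ≤ γ) : ‖sym γ l‖ ≤ 1 := by
  unfold sym
  rw [norm_pow]
  apply pow_le_one₀ (norm_nonneg _)
  apply norm_tanh_le
  rw [arg_im_abs hγ]
  have hπ := Real.pi_pos
  rw [div_mul_eq_mul_div, div_le_div_iff₀ (by positivity) (by norm_num)]
  nlinarith

lemma cosh_arg_ne {γ : ℝ} (hγ : 0 < γ) {l : ℂ} (hl : |l.im| < 2 * γ) :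
    Complex.cosh (Real.pi * l / (4 * γ)) ≠ 0 := by
  apply cosh_ne
  rw [arg_im_abs hγ]
  have hπ := Real.pi_pos
  rw [div_mul_eq_mul_div, div_lt_div_iff₀ (by positivity) (by norm_num)]
  nlinarith

lemma sym_diff {γ : ℝ} (hγ : 0 < γ) {l : ℂ} (hl : |l.im| < 2 * γ) :
    DifferentiableAt ℂ (sym γ) l := by
  unfold sym
  apply DifferentiableAt.pow
  have h1 : (fun l : ℂ => Complex.tanh (Real.pi * l / (4 * γ))) = fun l =>
      Complex.sinh (Real.pi * l / (4 * γ)) / Complex.cosh (Real.pi * l / (4 * γ)) := by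
    funext l
    rw [Complex.tanh_eq_sinh_div_cosh]
  rw [h1]
  have h2 : DifferentiableAt ℂ (fun l : ℂ => (Real.pi * l / (4 * γ) : ℂ)) l := by fun_prop
  exact (h2.csinh).div (h2.ccosh) (cosh_arg_ne hγ hl)

lemma sym_even (γ : ℝ) (l : ℂ) : sym γ (-l) = sym γ l := by
  unfold sym
  have : (Real.pi * -l / (4 * γ) : ℂ) = -(Real.pi * l / (4 * γ)) := by ring
  rw [this, Complex.tanh_neg, neg_sq]

lemma sym_eq {γ : ℝ} (hγ : 0 < γ) {l : ℂ} (hl : |l.im| < 2 * γ) :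
    sym γ l = 1 - 1 / Complex.cos (Real.pi * (Complex.I * l) / (4 * γ)) ^ 2 := by
  have h0 := cosh_arg_ne hγ hl
  have h1 : (Real.pi * (Complex.I * l) / (4 * γ) : ℂ) =
      (Real.pi * l / (4 * γ) : ℂ) * Complex.I := by ring
  unfold sym
  rw [h1, Complex.cos_mul_I, Complex.tanh_eq_sinh_div_cosh, div_pow]
  have h2 := Complex.cosh_sq (Real.pi * l / (4 * γ))
  field_simp
  rw [h2]
  ring

/-! ### translations -/

lemma dd_act {g : (ℝ × V) →ₗ[ℝ] (ℝ × V)} (hg : IsLor g) (x y : V) :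
    dd (act g x) (act g y) = dd x y := by
  unfold dd
  rw [(sA.1 g hg).2.2]

lemma ker_act {g : (ℝ × V) →ₗ[ℝ] (ℝ × V)} (hg : IsLor g) (γ : ℝ) {f f' : V → ℂ}
    (hf : AEStronglyMeasurable f mu) (h : f' =ᵐ[mu] f ∘ act g) (x : V) :
    ∫ w : V, (kk γ (dd x w) : ℂ) * f' w ∂mu =
      ∫ w : V, (kk γ (dd (act g x) w) : ℂ) * f w ∂mu := by
  have hmp := (sA.1 g hg).1
  have hm : AEStronglyMeasurable (fun w : V => (kk γ (dd (act g x) w) : ℂ) * f w)
      (Measure.map (act g) mu) := by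
    rw [hmp.map_eq]
    have h1 : AEStronglyMeasurable (fun w : V => (kk γ (dd (act g x) w) : ℂ)) mu :=
      (Complex.measurable_ofReal.comp ((kk_meas γ).comp (ddl_meas (act g x)))).aestronglyMeasurable
    exact h1.mul hf
  have h2 : ∫ w : V, (kk γ (dd (act g x) w) : ℂ) * f w ∂mu =
      ∫ w : V, (kk γ (dd (act g x) w) : ℂ) * f w ∂(Measure.map (act g) mu) := by
    rw [hmp.map_eq]
  rw [h2, integral_map hmp.measurable.aemeasurable hm]
  apply integral_congr_ae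
  filter_upwards [h] with w hw
  rw [hw, dd_act hg]
  rfl

/-- The multiplier. -/
theorem final (p : ℝ) (hp : 2 < p) [Fact (1 ≤ ENNReal.ofReal p)] :
    ∃ T : Lp ℂ (ENNReal.ofReal p) mu →L[ℂ] Lp ℂ (ENNReal.ofReal p) mu,
      (∀ g : (ℝ × V) →ₗ[ℝ] (ℝ × V), IsLor g → ∃ h : MeasurePreserving (act g) mu mu,
        ∀ f, T (Lp.compMeasurePreserving (act g) h f) =
          Lp.compMeasurePreserving (act g) h (T f)) ∧
      (∀ (φ : V → ℂ) (f : Lp ℂ (ENNReal.ofReal p) mu), Continuous φ → HasCompactSupport φ →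
        (f : V → ℂ) =ᵐ[mu] φ → ∀ b : V, ‖b‖ = 1 → ∀ l : ℂ, |l.im| < 2 * (1 - 2 / p) →
        Integrable (fun x => (f : V → ℂ) x * (hh b x : ℂ) ^ (Complex.I * l - 1)) mu ∧
        Integrable (fun x => (T f : V → ℂ) x * (hh b x : ℂ) ^ (Complex.I * l - 1)) mu ∧
        ∫ x, (T f : V → ℂ) x * (hh b x : ℂ) ^ (Complex.I * l - 1) ∂mu =
          sym (1 - 2 / p) l * ∫ x, (f : V → ℂ) x * (hh b x : ℂ) ^ (Complex.I * l - 1) ∂mu) ∧
      ∃ f, Dense (Set.range fun n : ℕ => (T ^ n) f) := by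
  obtain ⟨S, hS⟩ := sD p hp
  have hp0 : 0 < p := by linarith
  set γ := 1 - 2 / p with hγdef
  have hγ : 0 < γ := by
    have : 2 / p < 1 := by rw [div_lt_one hp0]; exact hp
    rw [hγdef]; linarith
  refine ⟨1 - S, ?_, ?_, ?_⟩
  · intro g hg
    refine ⟨(sA.1 g hg).1, fun f => ?_⟩
    have h := (sA.1 g hg).1
    have e1 : ∀ u : Lp ℂ (ENNReal.ofReal p) mu, (1 - S) u = u - S u := fun u => rfl
    rw [e1, e1, map_sub]
    congr 1
    apply Lp.ext
    have h1 := (hS (Lp.compMeasurePreserving (act g) h f)).2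
    have h2 := Lp.coeFn_compMeasurePreserving (S f) h
    have h3 := h.quasiMeasurePreserving.ae_eq_comp (hS f).2
    have h4 := Lp.coeFn_compMeasurePreserving f h
    filter_upwards [h1, h2, h3] with x h1 h2 h3
    rw [h1, h2, h3]
    exact ker_act hg γ (Lp.aestronglyMeasurable f) h4 x
  · intro φ f hφ hφc hf b hb l hl
    have hlf := PG.lf
    set ν : ℂ := Complex.I * l with hν
    have hνre : |ν.re| < 2 * γ := by
      rw [hν]
      simpa using hl
    have hhc : Continuous fun x : V => (hh b x : ℂ) ^ (ν - 1) := by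
      apply Continuous.cpow (Complex.continuous_ofReal.comp (hh_cont b)) continuous_const
      intro x
      show ((hh b x : ℝ) : ℂ) ∈ Complex.slitPlane
      rw [Complex.ofReal_mem_slitPlane]
      exact hh_pos hb x
    have hi : Integrable (fun x => (hh b x : ℂ) ^ (ν - 1) * φ x) mu :=
      (hhc.mul hφ).integrable_of_hasCompactSupport hφc.mul_left
    have hif : Integrable (fun x => (hh b x : ℂ) ^ (ν - 1) * (f : V → ℂ) x) mu := by
      refine hi.congr ?_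
      filter_upwards [hf] with x hx
      rw [hx]
    obtain ⟨s1, s2⟩ := PD3.symbol sA sB1 sB2 sC2 hγ hb hνre (Lp.aestronglyMeasurable f) hif
    have hT : ((1 - S) f : V → ℂ) =ᵐ[mu] fun x => (f : V → ℂ) x -
        ∫ w : V, (kk γ (dd x w) : ℂ) * f w ∂mu := by
      have e1 : (1 - S) f = f - S f := rfl
      rw [e1]
      filter_upwards [Lp.coeFn_sub f (S f), (hS f).2] with x h1 h2
      rw [h1, Pi.sub_apply, h2]
    have hTi : Integrable (fun x => (hh b x : ℂ) ^ (ν - 1) * (f : V → ℂ) x -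
        (hh b x : ℂ) ^ (ν - 1) * ∫ w : V, (kk γ (dd x w) : ℂ) * f w ∂mu) mu := hif.sub s1
    have hae : (fun x => ((1 - S) f : V → ℂ) x * (hh b x : ℂ) ^ (ν - 1)) =ᵐ[mu]
        fun x => (hh b x : ℂ) ^ (ν - 1) * (f : V → ℂ) x -
        (hh b x : ℂ) ^ (ν - 1) * ∫ w : V, (kk γ (dd x w) : ℂ) * f w ∂mu := by
      filter_upwards [hT] with x hx
      rw [hx]; ring
    refine ⟨?_, ?_, ?_⟩
    · refine hif.congr (Eventually.of_forall fun x => ?_)
      simp only
      rw [mul_comm]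
    · exact hTi.congr hae.symm
    · rw [integral_congr_ae hae, integral_sub hif s1, s2, sym_eq hγ hl]
      have : ∫ x, (f : V → ℂ) x * (hh b x : ℂ) ^ (ν - 1) ∂mu =
          ∫ x, (hh b x : ℂ) ^ (ν - 1) * (f : V → ℂ) x ∂mu := by
        congr 1
        funext x
        rw [mul_comm]
      rw [this]
      ring
  · exact Main.main sA sC1 sE2 sI sJ sG sH hp S hS

end Pool.Agent.T2H99.HY.Final
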