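import Pool.Agent.T2H99.HY.Defs

/-!
Statements (as `Prop`s) of all packages of the project HY (MP_e4fe74_an, helper99).
Package `X` proves `theorem t_X : S_X` (or `theorem t_X (h : S_Y) ... : S_X`) in
`Pool/Agent/T2H99/HY/X.lean`, importing only this file (and Mathlib, or any file of the start).
-/

set_option autoImplicit false

noncomputable section

open MeasureTheory Filter Topology
open scoped ENNReal

namespace Pool.Agent.T2H99.HY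

/-! ### geometry -/

/-- A: Lorentz maps act on `H^3`, preserve the measure and the distance; the point `y` is exchanged
with the origin by a Lorentz reflection. -/
def S_A : Prop :=
  (∀ g : (ℝ × V) →ₗ[ℝ] (ℝ × V), IsLor g →
    MeasurePreserving (act g) mu mu ∧ (∀ x, lift (act g x) = g (lift x)) ∧
      ∀ x y, ch (act g x) (act g y) = ch x y) ∧
  (∀ y : V, ∃ g : (ℝ × V) →ₗ[ℝ] (ℝ × V), IsLor g ∧ (∀ a, g (g a) = a) ∧
    act g 0 = y ∧ act g y = 0) ∧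
  ∀ x y, 1 ≤ ch x y ∧ ch x y = ch y x ∧ (ch x y = 1 → x = y)

/-- Z: the joint distribution of the distance from the origin and of `⟨x, e⟩` -/
def S_Z : Prop :=
  ∀ e : V, ‖e‖ = 1 →
    Measure.map (fun x : V => (Real.arcosh (x0 x), inner ℝ x e)) mu =
      (volume.restrict {q : ℝ × ℝ | 0 < q.1 ∧ |q.2| < Real.sinh q.1}).withDensity
        (fun q => ENNReal.ofReal (2 * Real.pi * Real.sinh q.1))

/-! ### the kernel -/

/-- B1: elementary properties of `κ` and `k` -/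
def S_B1 : Prop :=
  ∀ γ : ℝ, 0 < γ →
    Continuous (kap γ) ∧ (∀ r, kap γ (-r) = kap γ r) ∧ (∀ r, 0 < kap γ r) ∧
    Tendsto (kap γ) atTop (𝓝 0) ∧
    (∀ r, 0 < r → HasDerivAt (kap γ) (-(2 * Real.pi * Real.sinh r * kk γ r)) r) ∧
    (∀ r, 0 < r → 0 ≤ kk γ r) ∧
    (∀ ν : ℝ, |ν| < 2 * γ → Integrable (fun r => kap γ r * Real.exp (ν * r)))

/-- B2: the Fourier-Laplace transform of `κ` -/
def S_B2 : Prop :=
  ∀ γ : ℝ, 0 < γ → ∀ ν : ℂ, |ν.re| < 2 * γ →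
    ∫ r : ℝ, (kap γ r : ℂ) * Complex.exp (-ν * r) = 1 / Complex.cos (Real.pi * ν / (4 * γ)) ^ 2

/-- C1: convolution of the kernel with a radial function -/
def S_C1 : Prop :=
  ∀ γ : ℝ, 0 < γ → ∀ O : ℝ → ℂ, Continuous O → (∀ r, O (-r) = - O r) → ∀ x y : V, x ≠ y →
    Integrable (fun s : ℝ => (kap γ (dd x y - s) : ℂ) * O s) →
    Integrable (fun w : V => (kk γ (dd x w) : ℂ) * (O (dd w y) / (Real.sinh (dd w y) : ℂ))) mu ∧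
    ∫ w : V, (kk γ (dd x w) : ℂ) * (O (dd w y) / (Real.sinh (dd w y) : ℂ)) ∂mu =
      (∫ s : ℝ, (kap γ (dd x y - s) : ℂ) * O s) / (Real.sinh (dd x y) : ℂ)

/-- C2: the functions `(x_0 - ⟨x, b⟩)^(ν - 1)` are eigenfunctions of the kernel -/
def S_C2 : Prop :=
  ∀ γ : ℝ, 0 < γ → ∀ b : V, ‖b‖ = 1 → ∀ ν : ℂ, |ν.re| < 2 * γ → ∀ x : V,
    Integrable (fun w : V => (kk γ (dd x w) : ℂ) * (hh b w : ℂ) ^ (ν - 1)) mu ∧
    ∫ w : V, (kk γ (dd x w) : ℂ) * (hh b w : ℂ) ^ (ν - 1) ∂mu =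
      (∫ r : ℝ, (kap γ r : ℂ) * Complex.exp (-ν * r)) * (hh b x : ℂ) ^ (ν - 1)

/-! ### the operator -/

/-- D: the kernel operator is bounded on `L^p`, `γ = 1 - 2/p` (Schur test with the weight
`(x_0 - ⟨x, b⟩)^(-(1 - γ²)/2)`) -/
def S_D : Prop :=
  ∀ p : ℝ, 2 < p → ∀ [Fact (1 ≤ ENNReal.ofReal p)],
    ∃ S : Lp ℂ (ENNReal.ofReal p) mu →L[ℂ] Lp ℂ (ENNReal.ofReal p) mu,
      ∀ f : Lp ℂ (ENNReal.ofReal p) mu,
        (∀ᵐ x ∂mu, Integrable (fun w : V => (kk (1 - 2 / p) (dd x w) : ℂ) * f w) mu) ∧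
        (S f : V → ℂ) =ᵐ[mu] fun x => ∫ w : V, (kk (1 - 2 / p) (dd x w) : ℂ) * f w ∂mu

/-- D2: the symbol of the kernel operator -/
def S_D2 : Prop :=
  ∀ γ : ℝ, 0 < γ → ∀ b : V, ‖b‖ = 1 → ∀ f : V → ℂ, AEStronglyMeasurable f mu →
    Integrable (fun w => ((hh b w)⁻¹ : ℂ) * f w) mu →
    Integrable (fun x => ((hh b x)⁻¹ : ℂ) * ∫ w : V, (kk γ (dd x w) : ℂ) * f w ∂mu) mu ∧
    ∀ l : ℝ, ∫ x : V, (∫ w : V, (kk γ (dd x w) : ℂ) * f w ∂mu) *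
        (hh b x : ℂ) ^ (Complex.I * l - 1) ∂mu =
      1 / Complex.cos (Real.pi * (Complex.I * l) / (4 * γ)) ^ 2 *
        ∫ x : V, f x * (hh b x : ℂ) ^ (Complex.I * l - 1) ∂mu

/-! ### Fourier analysis on the line -/

/-- E1: the symbol on the boundary of the strip -/
def S_E1 : Prop :=
  ∀ γ : ℝ, 0 < γ → (∀ t, ‖om γ t‖ = 1) ∧ Continuous (om γ) ∧
    ∀ t : ℝ, 1 / Complex.cos (Real.pi * (γ + Complex.I * t) / (4 * γ)) ^ 2 = 1 - om γ t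

/-- E2: convolution with `κ` -/
def S_E2 : Prop :=
  ∀ γ : ℝ, 0 < γ → ∀ g : ℝ → ℂ, Nice g → ∀ j : ℤ,
    Continuous (OO γ g j) ∧ (∀ r, OO γ g j (-r) = - OO γ g j r) ∧
    ∀ r : ℝ, Integrable (fun s : ℝ => (kap γ (r - s) : ℂ) * OO γ g j s) ∧
      ∫ s : ℝ, (kap γ (r - s) : ℂ) * OO γ g j s = OO γ g j r - OO γ g (j + 1) r

/-- E3: dispersion -/
def S_E3 : Prop :=
  ∀ γ : ℝ, 0 < γ → ∀ g : ℝ → ℂ, Nice g → ∀ ε : ℝ, 0 < ε → ∃ N : ℕ, ∀ j : ℤ, (N : ℤ) ≤ |j| →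
    ∀ r : ℝ, ‖UU γ g j r‖ ≤ ε

/-- E4: bounds which are uniform in `j` -/
def S_E4 : Prop :=
  ∀ γ : ℝ, 0 < γ → ∀ g : ℝ → ℂ, Nice g → ∃ C : ℝ, 0 < C ∧ ∀ j : ℤ,
    Continuous (UU γ g j) ∧ (∫⁻ r, ‖UU γ g j r‖ₑ ^ 2 ≤ ENNReal.ofReal C) ∧
    ∀ r : ℝ, 0 ≤ r → r ≤ 1 → ‖OO γ g j r‖ ≤ C * r

/-- I: the `L^p` norms of the radial functions -/
def S_I : Prop :=
  ∀ p : ℝ, 2 < p → ∀ g : ℝ → ℂ, Nice g → ∀ y : V,
    (∀ j : ℤ, MemLp (rad (1 - 2 / p) g j y) (ENNReal.ofReal p) mu) ∧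
    ∀ ε : ℝ, 0 < ε → ∃ N : ℕ, ∀ j : ℤ, (N : ℤ) ≤ |j| →
      eLpNorm (rad (1 - 2 / p) g j y) (ENNReal.ofReal p) mu ≤ ENNReal.ofReal ε

/-- J: Fourier inversion -/
def S_J : Prop :=
  ∀ γ : ℝ, ∀ B : ℝ → ℂ, ContDiff ℝ (⊤ : ℕ∞) B → HasCompactSupport B →
    ∃ g : ℝ → ℂ, Nice g ∧ ∀ r, EE γ g 0 r = B r

/-! ### density and hypercyclicity -/

/-- G: the translates of the smooth radial functions of compact support span a dense subspace -/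
def S_G : Prop :=
  ∀ p : ℝ, 1 ≤ p → ∀ [Fact (1 ≤ ENNReal.ofReal p)],
    Dense (Submodule.span ℂ {f : Lp ℂ (ENNReal.ofReal p) mu | ∃ (y : V) (F : ℝ → ℂ),
      ContDiff ℝ (⊤ : ℕ∞) F ∧ HasCompactSupport F ∧ (f : V → ℂ) =ᵐ[mu] fun x => F (ch x y)} :
      Set (Lp ℂ (ENNReal.ofReal p) mu))

/-- H: Kitai's criterion -/
def S_H : Prop :=
  ∀ (E : Type) [NormedAddCommGroup E] [NormedSpace ℂ E] [CompleteSpace E]
    [SecondCountableTopology E] (T : E →L[ℂ] E) (D : Set E),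
    Dense (Submodule.span ℂ D : Set E) →
    (∀ x ∈ D, Tendsto (fun n : ℕ => (T ^ n) x) atTop (𝓝 0)) →
    (∀ x ∈ D, ∃ u : ℕ → E, Tendsto u atTop (𝓝 0) ∧ ∀ n, (T ^ n) (u n) = x) →
    ∃ f : E, Dense (Set.range fun n : ℕ => (T ^ n) f)

end Pool.Agent.T2H99.HY
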